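/-
MP_aa62e0_lc (sample compression): side information can be carried by the labels.

A scheme which keeps `k` points and in addition passes `b` bits gives a scheme which keeps
`k + 3 b + 4` points and passes no side information.
-/
import Mathlib

set_option autoImplicit false

namespace Pool.Agent.MPaa62e0T

namespace Advice

section lists

variable {X : Type} [LinearOrder X]

/-- The first point of the list has the label `y`. -/
def Hd (l : List (X × Bool)) (y : Bool) : Prop := ∃ p l', l = p :: l' ∧ p.2 = y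

/-- The number of the runs of equal labels. -/
def runs : List (X × Bool) → ℕ
  | [] => 0
  | [_] => 1
  | p :: q :: l => runs (q :: l) + if p.2 = q.2 then 0 else 1

/-- The first run. -/
theorem split : ∀ (l : List (X × Bool)) (y : Bool), Hd l y →
    ∃ u v, l = u ++ v ∧ u ≠ [] ∧ (∀ p ∈ u, p.2 = y) ∧ (v = [] ∨ Hd v (!y)) ∧
      runs v + 1 = runs l
  | [], y, h => by
    obtain ⟨p, l', h, _⟩ := h
    exact absurd h (by simp)
  | [p], y, h => by
    obtain ⟨q, l', h, hq⟩ := h
    obtain ⟨rfl, rfl⟩ := List.cons_eq_cons.1 h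
    refine ⟨[p], [], rfl, by simp, ?_, Or.inl rfl, rfl⟩
    intro r hr
    rw [List.mem_singleton] at hr
    rw [hr, hq]
  | p :: q :: l, y, h => by
    obtain ⟨r, l', h, hr⟩ := h
    obtain ⟨rfl, rfl⟩ := List.cons_eq_cons.1 h
    by_cases hpq : p.2 = q.2
    · obtain ⟨u, v, h3, h4, h5, h6, h7⟩ := split (q :: l) y ⟨q, l, rfl, by rw [← hpq, hr]⟩
      refine ⟨p :: u, v, by rw [h3]; rfl, by simp, ?_, h6, ?_⟩
      · intro s hs
        rcases List.mem_cons.1 hs with rfl | hs
        · exact hr
        · exact h5 s hs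
      · rw [h7, runs, if_pos hpq, add_zero]
    · refine ⟨[p], q :: l, rfl, by simp, ?_, Or.inr ⟨q, l, rfl, ?_⟩, ?_⟩
      · intro s hs
        rw [List.mem_singleton] at hs
        rw [hs, hr]
      · rw [← hr]
        generalize p.2 = a at hpq
        generalize q.2 = b at hpq
        cases a <;> cases b <;> simp_all
      · rw [runs, if_neg hpq]

theorem split2 (l : List (X × Bool)) (y : Bool) (h : Hd l y) (h2 : 2 ≤ runs l) :
    ∃ u v, l = u ++ v ∧ u ≠ [] ∧ (∀ p ∈ u, p.2 = y) ∧ Hd v (!y) ∧ runs v + 1 = runs l := by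
  obtain ⟨u, v, h3, h4, h5, h6, h7⟩ := split l y h
  refine ⟨u, v, h3, h4, h5, ?_, h7⟩
  rcases h6 with rfl | h6
  · rw [runs] at h7
    omega
  · exact h6

/-- The last point of a nonempty sorted list. -/
theorem exists_last (u : List (X × Bool)) (hu : u ≠ [])
    (hs : u.Pairwise (fun p q => p.1 < q.1)) : ∃ t, [t].Sublist u ∧ t ∈ u ∧ ∀ p ∈ u, p.1 ≤ t.1 := by
  refine ⟨u.getLast hu, ?_, List.getLast_mem hu, fun p hp => ?_⟩
  · exact List.singleton_sublist.2 (List.getLast_mem hu)
  · have h1 := List.dropLast_append_getLast hu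
    rw [← h1] at hp hs
    rcases List.mem_append.1 hp with h | h
    · exact ((List.pairwise_append.1 hs).2.2 p h _ (List.mem_singleton.2 rfl)).le
    · rw [List.mem_singleton] at h
      rw [h]

/-- The decoder for few runs. -/
def dec1 : List (X × Bool) → X → Bool
  | [], _ => false
  | p :: l, x => if x ≤ p.1 then p.2 else dec1 l x

theorem enc1 : ∀ (N : ℕ) (l : List (X × Bool)), l.length ≤ N →
    l.Pairwise (fun p q => p.1 < q.1) →
    ∃ w, w.Sublist l ∧ w.length ≤ runs l ∧ (∀ y, Hd l y → Hd w y) ∧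
      (∀ p q w', w = p :: q :: w' → p.2 ≠ q.2) ∧ ∀ p ∈ l, dec1 w p.1 = p.2 := by
  intro N
  induction N with
  | zero =>
    intro l hl _
    have h0 : l = [] := List.length_eq_zero_iff.1 (Nat.le_zero.1 hl)
    subst h0
    exact ⟨[], List.Sublist.refl _, le_rfl, fun y h => h, by simp, by simp⟩
  | succ N ih =>
    intro l hl hs
    rcases l with _ | ⟨a, l⟩
    · exact ⟨[], List.Sublist.refl _, by simp [runs], fun y h => h, by simp, by simp⟩
    obtain ⟨u, v, h3, h4, h5, h6, h7⟩ := split (a :: l) a.2 ⟨a, l, rfl, rfl⟩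
    have hlen : v.length ≤ N := by
      have h8 := congrArg List.length h3
      rw [List.length_append] at h8
      have h9 : 0 < u.length := List.length_pos_of_ne_nil h4
      omega
    rw [h3] at hs ⊢
    obtain ⟨hsu, hsv, huv⟩ := List.pairwise_append.1 hs
    obtain ⟨w, hw1, hw2, hw3, hw4, hw5⟩ := ih v hlen hsv
    obtain ⟨t, ht1, ht2, ht3⟩ := exists_last u h4 hsu
    refine ⟨t :: w, ?_, ?_, ?_, ?_, ?_⟩
    · exact ht1.append hw1
    · rw [← h3, ← h7, List.length_cons]
      omega
    · intro y hy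
      refine ⟨t, w, rfl, ?_⟩
      obtain ⟨p, l', hp, hpy⟩ := hy
      rw [← h3] at hp
      obtain ⟨rfl, rfl⟩ := List.cons_eq_cons.1 hp
      rw [h5 t ht2, hpy]
    · intro p q w' hpq
      obtain ⟨rfl, hw⟩ := List.cons_eq_cons.1 hpq
      rcases h6 with rfl | h6
      · have h8 : w = [] := List.sublist_nil.1 hw1
        rw [h8] at hw
        exact absurd hw (by simp)
      · obtain ⟨r, l', hr, hr2⟩ := hw3 _ h6
        rw [hw] at hr
        obtain ⟨rfl, rfl⟩ := List.cons_eq_cons.1 hr
        rw [hr2, h5 _ ht2]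
        cases a.2 <;> simp
    · intro p hp
      rcases List.mem_append.1 hp with h | h
      · rw [dec1, if_pos (ht3 p h), h5 p h, h5 t ht2]
      · rw [dec1, if_neg (not_le.2 (huv t ht2 p h)), hw5 p h]

/-- The decoder for `n` windows and the terminator. -/
def dec : ℕ → List Bool → List (X × Bool) → (List Bool → List (X × Bool) → X → Bool) → X → Bool
  | 0, β, t :: l, k, x => if x ≤ t.1 then t.2 else k β l x
  | 0, _, [], _, _ => false
  | n + 1, β, p :: q :: l, k, x =>
    if p.2 = q.2 then
      if x ≤ p.1 then p.2 else if x < q.1 then !p.2 else if x ≤ q.1 then p.2 else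
        match l with
        | [] => false
        | r :: l' => if r.2 = p.2 then (if x ≤ r.1 then p.2 else dec n (true :: β) l' k x)
            else dec n (true :: β) (r :: l') k x
    else
      match l with
      | [] => false
      | r :: l' => if x ≤ p.1 then p.2 else if x ≤ q.1 then q.2 else if x ≤ r.1 then r.2 else
          dec n (false :: β) l' k x
  | _ + 1, _, _, _, _ => false

/-- The encoder for `n` windows and the terminator. -/
theorem enc : ∀ (n : ℕ) (l : List (X × Bool)) (y : Bool),
    l.Pairwise (fun p q => p.1 < q.1) → Hd l y → 3 * n + 2 ≤ runs l →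
    ∃ P A, l = P ++ A ∧ ∀ β : List Bool, β.length = n →
      ∃ w, w.Sublist P ∧ w.length ≤ 3 * β.length + 1 ∧ Hd w y ∧
      (∀ β', β = true :: β' → ∃ p q w', w = p :: q :: w' ∧ p.2 = q.2) ∧
      ∀ γ z k, (∀ p ∈ P, dec β.length γ (w ++ z) k p.1 = p.2) ∧
        ∀ x, (∀ p ∈ P, p.1 < x) → dec β.length γ (w ++ z) k x = k (β.reverse ++ γ) z x
  | 0, l, y, hs, hy, hr => by
    obtain ⟨u, v, h3, h4, h5, h6, h7⟩ := split2 l y hy (by simpa using hr)
    rw [h3] at hs
    obtain ⟨hsu, hsv, huv⟩ := List.pairwise_append.1 hs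
    obtain ⟨t, ht1, ht2, ht3⟩ := exists_last u h4 hsu
    refine ⟨u, v, h3, fun β hβ => ?_⟩
    obtain rfl : β = [] := List.length_eq_zero_iff.1 hβ
    refine ⟨[t], ht1, by simp, ⟨t, [], rfl, h5 t ht2⟩, by simp, fun γ z k => ⟨?_, ?_⟩⟩
    · intro p hp
      rw [List.length_nil, List.cons_append, dec, if_pos (ht3 p hp), h5 p hp, h5 t ht2]
    · intro x hx
      rw [List.length_nil, List.cons_append, dec, if_neg (not_le.2 (hx t ht2))]
      rfl
  | n + 1, l, y, hs, hy, hr => by
    obtain ⟨u1, v1, a3, a4, a5, a6, a7⟩ := split2 l y hy (by omega)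
    obtain ⟨u2, v2, b3, b4, b5, b6, b7⟩ := split2 v1 (!y) a6 (by omega)
    obtain ⟨u3, v3, c3, c4, c5, c6, c7⟩ := split2 v2 (!(!y)) b6 (by omega)
    rw [Bool.not_not] at c5 c6
    rw [a3, b3, c3] at hs
    obtain ⟨hs1, hsv1, huv1⟩ := List.pairwise_append.1 hs
    obtain ⟨hs2, hsv2, huv2⟩ := List.pairwise_append.1 hsv1
    obtain ⟨hs3, hsv3, huv3⟩ := List.pairwise_append.1 hsv2
    obtain ⟨P, A, d1, hIH⟩ := enc n v3 (!y) hsv3 c6 (by omega)
    obtain ⟨t1, e1, e2, e3⟩ := exists_last u1 a4 hs1
    obtain ⟨t2, f1, f2, f3⟩ := exists_last u2 b4 hs2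
    obtain ⟨t3, g1, g2, g3⟩ := exists_last u3 c4 hs3
    have k12 : ∀ p ∈ u1, ∀ q ∈ u2, p.1 < q.1 := fun p hp q hq =>
      huv1 p hp q (List.mem_append_left _ hq)
    have k13 : ∀ p ∈ u1, ∀ q ∈ u3, p.1 < q.1 := fun p hp q hq =>
      huv1 p hp q (List.mem_append_right _ (List.mem_append_left _ hq))
    have k1P : ∀ p ∈ u1, ∀ q ∈ P, p.1 < q.1 := fun p hp q hq =>
      huv1 p hp q (List.mem_append_right _ (List.mem_append_right _ (by
        rw [d1]; exact List.mem_append_left _ hq)))
    have k23 : ∀ p ∈ u2, ∀ q ∈ u3, p.1 < q.1 := fun p hp q hq =>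
      huv2 p hp q (List.mem_append_left _ hq)
    have k2P : ∀ p ∈ u2, ∀ q ∈ P, p.1 < q.1 := fun p hp q hq =>
      huv2 p hp q (List.mem_append_right _ (by rw [d1]; exact List.mem_append_left _ hq))
    have k3P : ∀ p ∈ u3, ∀ q ∈ P, p.1 < q.1 := fun p hp q hq =>
      huv3 p hp q (by rw [d1]; exact List.mem_append_left _ hq)
    have hl : l = (u1 ++ (u2 ++ (u3 ++ P))) ++ A := by
      rw [a3, b3, c3, d1]
      simp only [List.append_assoc]
    have hyy : (y : Bool) ≠ !y := by cases y <;> simp
    refine ⟨u1 ++ (u2 ++ (u3 ++ P)), A, hl, fun β1 hβ1 => ?_⟩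
    rcases β1 with _ | ⟨β0, β⟩
    · exact absurd hβ1 (by simp)
    obtain ⟨w, d2, d3, d4, -, d6⟩ := hIH β (by simpa using hβ1)
    cases β0 with
    | false =>
      refine ⟨t1 :: t2 :: t3 :: w, ?_, ?_,
        ⟨t1, _, rfl, a5 t1 e2⟩, ?_, fun γ z k => ⟨?_, ?_⟩⟩
      · exact e1.append (f1.append (g1.append d2))
      · simp only [List.length_cons]
        omega
      · intro β' h
        exact absurd (List.cons_eq_cons.1 h).1 (by simp)
      · intro p hp
        have hne : ¬ t1.2 = t2.2 := by
          rw [a5 t1 e2, b5 t2 f2]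
          exact hyy
        rw [List.length_cons, List.cons_append, List.cons_append, List.cons_append, dec,
          if_neg hne]
        simp only [List.mem_append] at hp
        rcases hp with h | h | h | h
        · show (if p.1 ≤ t1.1 then t1.2 else _) = _
          rw [if_pos (e3 p h), a5 t1 e2, a5 p h]
        · show (if p.1 ≤ t1.1 then t1.2 else if p.1 ≤ t2.1 then t2.2 else _) = _
          rw [if_neg (not_le.2 (k12 t1 e2 p h)), if_pos (f3 p h), b5 t2 f2, b5 p h]
        · show (if p.1 ≤ t1.1 then t1.2 else if p.1 ≤ t2.1 then t2.2 else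
            if p.1 ≤ t3.1 then t3.2 else _) = _
          rw [if_neg (not_le.2 (k13 t1 e2 p h)), if_neg (not_le.2 (k23 t2 f2 p h)),
            if_pos (g3 p h), c5 t3 g2, c5 p h]
        · show (if p.1 ≤ t1.1 then t1.2 else if p.1 ≤ t2.1 then t2.2 else
            if p.1 ≤ t3.1 then t3.2 else dec β.length (false :: γ) (w ++ z) k p.1) = _
          rw [if_neg (not_le.2 (k1P t1 e2 p h)), if_neg (not_le.2 (k2P t2 f2 p h)),
            if_neg (not_le.2 (k3P t3 g2 p h))]
          exact (d6 (false :: γ) z k).1 p h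
      · intro x hx
        have hne : ¬ t1.2 = t2.2 := by
          rw [a5 t1 e2, b5 t2 f2]
          exact hyy
        rw [List.length_cons, List.cons_append, List.cons_append, List.cons_append, dec,
          if_neg hne]
        show (if x ≤ t1.1 then t1.2 else if x ≤ t2.1 then t2.2 else
            if x ≤ t3.1 then t3.2 else dec β.length (false :: γ) (w ++ z) k x) = _
        rw [if_neg (not_le.2 (hx t1 (by simp [e2]))), if_neg (not_le.2 (hx t2 (by simp [f2]))),
          if_neg (not_le.2 (hx t3 (by simp [g2]))),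
          (d6 (false :: γ) z k).2 x fun p hp => hx p (by simp [hp])]
        rw [List.reverse_cons, List.append_assoc]
        rfl
    | true =>
      obtain ⟨r, w'', hw, hr2⟩ := d4
      rcases u3 with _ | ⟨s, u3⟩
      · exact absurd rfl c4
      have hs2' : s.2 = y := c5 s (by simp)
      have hlab : t1.2 = s.2 := by rw [a5 t1 e2, hs2']
      rcases u3 with _ | ⟨s', u3⟩
      · -- the third run has one point
        refine ⟨t1 :: s :: w, ?_, ?_,
          ⟨t1, _, rfl, a5 t1 e2⟩, fun β' _ => ⟨t1, s, w, rfl, hlab⟩, fun γ z k => ⟨?_, ?_⟩⟩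
        · refine e1.append (List.Sublist.trans ?_ (List.sublist_append_right u2 _))
          exact (List.Sublist.refl [s]).append d2
        · simp only [List.length_cons]
          omega
        · intro p hp
          rw [List.length_cons, hw, List.cons_append, List.cons_append, List.cons_append, dec,
            if_pos hlab]
          simp only [List.mem_append] at hp
          rcases hp with h | h | h | h
          · rw [if_pos (e3 p h), a5 t1 e2, a5 p h]
          · rw [if_neg (not_le.2 (k12 t1 e2 p h)), if_pos (k23 p h s (by simp)), a5 t1 e2, b5 p h]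
          · rw [List.mem_singleton] at h
            subst h
            rw [if_neg (not_le.2 (k13 t1 e2 p (by simp))), if_neg (lt_irrefl _),
              if_pos le_rfl, hlab]
          · rw [if_neg (not_le.2 (k1P t1 e2 p h)),
              if_neg (not_lt.2 (k3P s (by simp) p h).le),
              if_neg (not_le.2 (k3P s (by simp) p h))]
            show (if r.2 = t1.2 then (if p.1 ≤ r.1 then t1.2 else
              dec β.length (true :: γ) (w'' ++ z) k p.1) else
                dec β.length (true :: γ) (r :: (w'' ++ z)) k p.1) = _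
            rw [if_neg (by rw [hr2, a5 t1 e2]; exact hyy.symm)]
            have h8 := (d6 (true :: γ) z k).1 p h
            rw [hw] at h8
            exact h8
        · intro x hx
          rw [List.length_cons, hw, List.cons_append, List.cons_append, List.cons_append, dec,
            if_pos hlab]
          have hxs : s.1 < x := hx s (by simp)
          rw [if_neg (not_le.2 (hx t1 (by simp [e2]))), if_neg (not_lt.2 hxs.le),
            if_neg (not_le.2 hxs)]
          show (if r.2 = t1.2 then (if x ≤ r.1 then t1.2 else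
              dec β.length (true :: γ) (w'' ++ z) k x) else
                dec β.length (true :: γ) (r :: (w'' ++ z)) k x) = _
          rw [if_neg (by rw [hr2, a5 t1 e2]; exact hyy.symm)]
          have h8 := (d6 (true :: γ) z k).2 x fun p hp => hx p (by simp [hp])
          rw [hw] at h8
          rw [List.reverse_cons, List.append_assoc]
          exact h8
      · -- the third run has at least two points
        have hs3' := List.pairwise_cons.1 hs3
        obtain ⟨t, q1, q2, q3⟩ := exists_last (s' :: u3) (by simp) hs3'.2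
        have hst : s.1 < t.1 := hs3'.1 t q2
        have hsle : ∀ p ∈ s :: s' :: u3, s.1 ≤ p.1 := by
          intro p hp
          rcases List.mem_cons.1 hp with rfl | hp
          · exact le_rfl
          · exact (hs3'.1 p hp).le
        have htle : ∀ p ∈ s :: s' :: u3, p.1 ≤ t.1 := by
          intro p hp
          rcases List.mem_cons.1 hp with rfl | hp
          · exact hst.le
          · exact q3 p hp
        have ht3' : t ∈ s :: s' :: u3 := List.mem_cons_of_mem _ q2
        have htl : t.2 = t1.2 := by rw [c5 t ht3', a5 t1 e2]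
        refine ⟨t1 :: s :: t :: w, ?_, ?_,
          ⟨t1, _, rfl, a5 t1 e2⟩, fun β' _ => ⟨t1, s, t :: w, rfl, hlab⟩, fun γ z k => ⟨?_, ?_⟩⟩
        · refine e1.append (List.Sublist.trans ?_ (List.sublist_append_right u2 _))
          have h9 : ([s, t] : List (X × Bool)).Sublist (s :: s' :: u3) := q1.cons_cons s
          exact h9.append d2
        · simp only [List.length_cons]
          omega
        · intro p hp
          rw [List.length_cons, List.cons_append, List.cons_append, List.cons_append, dec,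
            if_pos hlab]
          show (if p.1 ≤ t1.1 then t1.2 else if p.1 < s.1 then !t1.2 else if p.1 ≤ s.1 then t1.2
            else if t.2 = t1.2 then (if p.1 ≤ t.1 then t1.2 else
              dec β.length (true :: γ) (w ++ z) k p.1) else
                dec β.length (true :: γ) (t :: (w ++ z)) k p.1) = _
          rw [if_pos htl]
          simp only [List.mem_append] at hp
          rcases hp with h | h | h | h
          · rw [if_pos (e3 p h), a5 t1 e2, a5 p h]
          · rw [if_neg (not_le.2 (k12 t1 e2 p h)), if_pos (k23 p h s (by simp)), a5 t1 e2, b5 p h]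
          · rw [if_neg (not_le.2 (k13 t1 e2 p h)), if_neg (not_lt.2 (hsle p h)),
              if_pos (htle p h), ite_self, a5 t1 e2, c5 p h]
          · rw [if_neg (not_le.2 (k1P t1 e2 p h)),
              if_neg (not_lt.2 (k3P s (by simp) p h).le),
              if_neg (not_le.2 (k3P s (by simp) p h)),
              if_neg (not_le.2 (k3P t ht3' p h))]
            exact (d6 (true :: γ) z k).1 p h
        · intro x hx
          rw [List.length_cons, List.cons_append, List.cons_append, List.cons_append, dec,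
            if_pos hlab]
          show (if x ≤ t1.1 then t1.2 else if x < s.1 then !t1.2 else if x ≤ s.1 then t1.2
            else if t.2 = t1.2 then (if x ≤ t.1 then t1.2 else
              dec β.length (true :: γ) (w ++ z) k x) else
                dec β.length (true :: γ) (t :: (w ++ z)) k x) = _
          have hxs : s.1 < x := hx s (by simp)
          have hxt : t.1 < x := hx t (List.mem_append_right _ (List.mem_append_right _
            (List.mem_append_left _ ht3')))
          rw [if_pos htl, if_neg (not_le.2 (hx t1 (by simp [e2]))), if_neg (not_lt.2 hxs.le),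
            if_neg (not_le.2 hxs), if_neg (not_le.2 hxt),
            (d6 (true :: γ) z k).2 x fun p hp => hx p (by simp [hp])]
          rw [List.reverse_cons, List.append_assoc]
          rfl

end lists

section sorted

variable {X : Type} [LinearOrder X]

theorem exists_sorted (S : Finset (X × Bool)) (hS : ∀ p ∈ S, ∀ q ∈ S, p.1 = q.1 → p = q) :
    ∃ l : List (X × Bool), l.Pairwise (fun p q => p.1 < q.1) ∧ ∀ p, p ∈ l ↔ p ∈ S := by
  classical
  refine ⟨((S.image Prod.fst).sort).map (fun x => (x, decide ((x, true) ∈ S))), ?_, fun p => ?_⟩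
  · rw [List.pairwise_map]
    exact (Finset.sortedLT_sort (S.image Prod.fst)).pairwise
  · have key : ∀ q ∈ S, decide ((q.1, true) ∈ S) = q.2 := by
      rintro ⟨x, y⟩ hq
      cases y with
      | true => exact decide_eq_true hq
      | false =>
        refine decide_eq_false fun h => ?_
        have h1 := hS _ hq _ h rfl
        simp at h1
    simp only [List.mem_map, Finset.mem_sort, Finset.mem_image]
    constructor
    · rintro ⟨x, ⟨q, hq, rfl⟩, rfl⟩
      rw [key q hq]
      exact hq
    · intro hp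
      exact ⟨p.1, ⟨p, hp, rfl⟩, by rw [key p hp]⟩

open Classical in
/-- The points of `K` in increasing order. -/
noncomputable def sl (K : Finset (X × Bool)) : List (X × Bool) :=
  if h : ∃ l : List (X × Bool), l.Pairwise (fun p q => p.1 < q.1) ∧ ∀ p, p ∈ l ↔ p ∈ K
  then h.choose else []

theorem sl_eq {K : Finset (X × Bool)} {l : List (X × Bool)}
    (hl : l.Pairwise (fun p q => p.1 < q.1)) (hm : ∀ p, p ∈ l ↔ p ∈ K) : sl K = l := by
  have h : ∃ l : List (X × Bool), l.Pairwise (fun p q => p.1 < q.1) ∧ ∀ p, p ∈ l ↔ p ∈ K :=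
    ⟨l, hl, hm⟩
  have h1 := h.choose_spec
  unfold sl
  rw [dif_pos h]
  have : Std.Irrefl (fun p q : X × Bool => p.1 < q.1) := ⟨fun p => lt_irrefl _⟩
  have : Std.Antisymm (fun p q : X × Bool => p.1 < q.1) :=
    ⟨fun p q h h' => absurd h (lt_asymm h')⟩
  exact h1.1.eq_of_mem_iff hl (fun p => (h1.2 p).trans (hm p).symm)

theorem sl_spec {S : Finset (X × Bool)} (hS : ∀ p ∈ S, ∀ q ∈ S, p.1 = q.1 → p = q) :
    (sl S).Pairwise (fun p q => p.1 < q.1) ∧ ∀ p, p ∈ sl S ↔ p ∈ S := by
  obtain ⟨l, hl, hm⟩ := exists_sorted S hS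
  rw [sl_eq hl hm]
  exact ⟨hl, hm⟩

/-- The decoder. -/
def decAll (b : ℕ) (ρ : List Bool → List (X × Bool) → X → Bool) : List (X × Bool) → X → Bool
  | p :: q :: l, x => if p.2 = q.2 then dec (b + 1) [] (p :: q :: l) ρ x else dec1 (p :: q :: l) x
  | l, x => dec1 l x

theorem decAll_of_ne (b : ℕ) (ρ : List Bool → List (X × Bool) → X → Bool)
    {w : List (X × Bool)} (h : ∀ p q w', w = p :: q :: w' → p.2 ≠ q.2) (x : X) :
    decAll b ρ w x = dec1 w x := by
  rcases w with _ | ⟨p, _ | ⟨q, w⟩⟩
  · rfl
  · rfl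
  · rw [decAll, if_neg (h p q w rfl)]

/-- Removal of the advice for a linearly ordered set of points. -/
theorem main (good : Finset (X × Bool) → Prop) (hsub : ∀ S T, T ⊆ S → good S → good T)
    (hfun : ∀ S, good S → ∀ p ∈ S, ∀ q ∈ S, p.1 = q.1 → p = q) (k b : ℕ)
    (ρ : Finset (X × Bool) → List Bool → X → Bool)
    (h : ∀ S, good S → ∃ T ⊆ S, T.card ≤ k ∧ ∃ β : List Bool, β.length = b ∧
      ∀ p ∈ S, ρ T β p.1 = p.2) :
    ∃ ρ' : Finset (X × Bool) → X → Bool, ∀ S, good S →
      ∃ K ⊆ S, K.card ≤ k + (3 * b + 4) ∧ ∀ p ∈ S, ρ' K p.1 = p.2 := by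
  classical
  refine ⟨fun K => decAll b (fun β z x => ρ z.toFinset β.reverse.tail x) (sl K),
    fun S hS => ?_⟩
  obtain ⟨hl, hm⟩ := sl_spec (hfun S hS)
  generalize sl S = l at hl hm
  rcases Nat.lt_or_ge (3 * b + 4) (runs l) with hr | hr
  swap
  · -- few runs
    obtain ⟨w, hw1, hw2, -, hw4, hw5⟩ := enc1 l.length l le_rfl hl
    refine ⟨w.toFinset, fun p hp => ?_, ?_, fun p hp => ?_⟩
    · exact (hm p).1 (hw1.subset (List.mem_toFinset.1 hp))
    · have := List.toFinset_card_le w
      omega
    · show decAll b _ (sl w.toFinset) p.1 = p.2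
      rw [sl_eq (hl.sublist hw1) (fun q => by rw [List.mem_toFinset]), decAll_of_ne _ _ hw4]
      exact hw5 p ((hm p).2 hp)
  -- many runs
  rcases l with _ | ⟨a, l⟩
  · simp [runs] at hr
  obtain ⟨P, A, hPA, henc⟩ := enc (b + 1) (a :: l) a.2 hl ⟨a, l, rfl, rfl⟩ (by omega)
  rw [hPA] at hl hm
  obtain ⟨hlP, hlA, hlPA⟩ := List.pairwise_append.1 hl
  have hAS : A.toFinset ⊆ S := fun p hp =>
    (hm p).1 (List.mem_append_right _ (List.mem_toFinset.1 hp))
  obtain ⟨T, hTA, hTk, β, hβ, hρ⟩ := h A.toFinset (hsub S _ hAS hS)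
  obtain ⟨w, hw1, hw2, hw3, hw4, hw5⟩ := henc (true :: β) (by rw [List.length_cons, hβ])
  obtain ⟨hz, hzm⟩ := sl_spec (S := T) (fun p hp q hq => hfun S hS p (hAS (hTA hp)) q
    (hAS (hTA hq)))
  generalize sl T = z at hz hzm
  have hzT : z.toFinset = T := by
    ext p
    rw [List.mem_toFinset, hzm]
  obtain ⟨h1, h2⟩ := hw5 [] z (fun β z x => ρ z.toFinset β.reverse.tail x)
  rw [List.append_nil, hzT, List.reverse_reverse, List.tail_cons] at h2
  have hwz : (w ++ z).Pairwise (fun p q => p.1 < q.1) := by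
    refine List.pairwise_append.2 ⟨hlP.sublist hw1, hz, fun p hp q hq => ?_⟩
    exact hlPA p (hw1.subset hp) q (List.mem_toFinset.1 (hTA ((hzm q).1 hq)))
  refine ⟨(w ++ z).toFinset, fun p hp => ?_, ?_, fun p hp => ?_⟩
  · rw [List.mem_toFinset, List.mem_append] at hp
    rcases hp with hp | hp
    · exact (hm p).1 (List.mem_append_left _ (hw1.subset hp))
    · exact hAS (hTA ((hzm p).1 hp))
  · rw [List.toFinset_append]
    have h3 := Finset.card_union_le w.toFinset z.toFinset
    have h4 := List.toFinset_card_le w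
    rw [List.length_cons, hβ] at hw2
    rw [hzT] at h3 ⊢
    omega
  · show decAll b _ (sl (w ++ z).toFinset) p.1 = p.2
    rw [sl_eq hwz (fun q => by rw [List.mem_toFinset])]
    obtain ⟨p1, q1, w', hw', hpq⟩ := hw4 β rfl
    have hdec : decAll b (fun β z x => ρ z.toFinset β.reverse.tail x) (w ++ z) p.1 =
        dec (true :: β).length [] (w ++ z)
          (fun β z x => ρ z.toFinset β.reverse.tail x) p.1 := by
      rw [List.length_cons, hβ, hw', List.cons_append, List.cons_append, decAll, if_pos hpq]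
    rw [hdec]
    rcases List.mem_append.1 ((hm p).2 hp) with hp1 | hp1
    · exact h1 p hp1
    · rw [h2 p.1 (fun q hq => hlPA q hq p hp1)]
      exact hρ p (List.mem_toFinset.2 hp1)

end sorted

end Advice

open Advice in
/-- **Removal of side information.** Suppose that each sample `S` in a family closed under
passing to subsamples (all of them labelled functions) contains at most `k` points `T` such that
the labels of `S` can be reconstructed from `T` and `b` bits. Then the samples of the family can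
be compressed to `k + 3 b + 4` labelled points, from which alone their labels can be
reconstructed. -/
theorem no_advice {X : Type} [Fintype X] (good : Finset (X × Bool) → Prop)
    (hsub : ∀ S T, T ⊆ S → good S → good T)
    (hfun : ∀ S, good S → ∀ p ∈ S, ∀ q ∈ S, p.1 = q.1 → p = q) (k b : ℕ)
    (ρ : Finset (X × Bool) → (Fin b → Bool) → X → Bool)
    (h : ∀ S, good S → ∃ T ⊆ S, T.card ≤ k ∧ ∃ β : Fin b → Bool, ∀ p ∈ S, ρ T β p.1 = p.2) :
    ∃ κ : Finset (X × Bool) → Finset (X × Bool), ∃ ρ' : Finset (X × Bool) → X → Bool,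
      ∀ S, good S → κ S ⊆ S ∧ (κ S).card ≤ k + 3 * b + 4 ∧ ∀ p ∈ S, ρ' (κ S) p.1 = p.2 := by
  classical
  let _ : LinearOrder X := LinearOrder.lift' (Fintype.equivFin X) (Fintype.equivFin X).injective
  obtain ⟨ρ', hρ'⟩ := main good hsub hfun k b (fun T β => ρ T (fun i => β.getD i false))
    (fun S hS => by
      obtain ⟨T, hT, hk, β, hβ⟩ := h S hS
      refine ⟨T, hT, hk, List.ofFn β, List.length_ofFn, fun p hp => ?_⟩
      have h1 : (fun i : Fin b => (List.ofFn β).getD i false) = β := by
        funext i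
        simp
      show ρ T (fun i => (List.ofFn β).getD i false) p.1 = p.2
      rw [h1]
      exact hβ p hp)
  choose! κ hκ using hρ'
  exact ⟨κ, ρ', fun S hS => ⟨(hκ S hS).1, by
    have := (hκ S hS).2.1
    omega, (hκ S hS).2.2⟩⟩

/-- The kept points may play two different roles `H` and `Z`. -/
theorem no_roles {X : Type} [Fintype X] (good : Finset (X × Bool) → Prop)
    (hsub : ∀ S T, T ⊆ S → good S → good T)
    (hfun : ∀ S, good S → ∀ p ∈ S, ∀ q ∈ S, p.1 = q.1 → p = q) (m : ℕ)
    (ρ : Finset (X × Bool) → Finset (X × Bool) → X → Bool)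
    (h : ∀ S, good S → ∃ H ⊆ S, ∃ Z ⊆ S, H.card + Z.card ≤ m ∧ ∀ p ∈ S, ρ H Z p.1 = p.2) :
    ∃ κ : Finset (X × Bool) → Finset (X × Bool), ∃ ρ' : Finset (X × Bool) → X → Bool,
      ∀ S, good S → κ S ⊆ S ∧ (κ S).card ≤ 7 * m + 4 ∧ ∀ p ∈ S, ρ' (κ S) p.1 = p.2 := by
  classical
  let _ : LinearOrder X := LinearOrder.lift' (Fintype.equivFin X) (Fintype.equivFin X).injective
  -- the number of the smaller points
  let idx : Finset (X × Bool) → X × Bool → ℕ := fun U p => (U.filter fun q => q.1 < p.1).card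
  let get : (Fin (m + m) → Bool) → ℕ → Bool := fun β i => if hi : i < m + m then β ⟨i, hi⟩ else false
  have hinj : ∀ U : Finset (X × Bool), (∀ p ∈ U, ∀ q ∈ U, p.1 = q.1 → p = q) →
      ∀ p ∈ U, ∀ q ∈ U, idx U p = idx U q → p = q := by
    have hlt : ∀ U : Finset (X × Bool), ∀ p ∈ U, ∀ q ∈ U, p.1 < q.1 → idx U p < idx U q := by
      intro U p hp q hq hpq
      refine Finset.card_lt_card ⟨fun r hr => ?_, fun hcon => ?_⟩
      · rw [Finset.mem_filter] at hr ⊢
        exact ⟨hr.1, hr.2.trans hpq⟩
      · have h1 := hcon (Finset.mem_filter.2 ⟨hp, hpq⟩)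
        exact lt_irrefl _ (Finset.mem_filter.1 h1).2
    intro U hU p hp q hq hpq
    rcases lt_trichotomy p.1 q.1 with h1 | h1 | h1
    · exact absurd hpq (hlt U p hp q hq h1).ne
    · exact hU p hp q hq h1
    · exact absurd hpq (hlt U q hq p hp h1).ne'
  have hidx : ∀ U : Finset (X × Bool), ∀ p ∈ U, idx U p < U.card := by
    intro U p hp
    refine Finset.card_lt_card ⟨Finset.filter_subset _ _, fun hcon => ?_⟩
    exact lt_irrefl _ (Finset.mem_filter.1 (hcon hp)).2
  obtain ⟨κ, ρ', h'⟩ := no_advice good hsub hfun m (m + m)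
    (fun U β => ρ (U.filter fun p => get β (idx U p) = true)
      (U.filter fun p => get β (m + idx U p) = true)) (fun S hS => by
      obtain ⟨H, hH, Z, hZ, hm, hρ⟩ := h S hS
      have hUS : H ∪ Z ⊆ S := Finset.union_subset hH hZ
      have hUm : (H ∪ Z).card ≤ m := (Finset.card_union_le H Z).trans hm
      have hUf : ∀ p ∈ H ∪ Z, ∀ q ∈ H ∪ Z, p.1 = q.1 → p = q := fun p hp q hq =>
        hfun S hS p (hUS hp) q (hUS hq)
      refine ⟨H ∪ Z, hUS, hUm, fun i => if i.1 < m then decide (∃ p ∈ H, idx (H ∪ Z) p = i.1) else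
        decide (∃ p ∈ Z, m + idx (H ∪ Z) p = i.1), fun p hp => ?_⟩
      have e1 : (H ∪ Z).filter (fun p => get (fun i => if i.1 < m then
          decide (∃ p ∈ H, idx (H ∪ Z) p = i.1) else
          decide (∃ p ∈ Z, m + idx (H ∪ Z) p = i.1)) (idx (H ∪ Z) p) = true) = H := by
        ext q
        rw [Finset.mem_filter]
        constructor
        · rintro ⟨hq, h1⟩
          have h2 := hidx _ q hq
          have h3 : idx (H ∪ Z) q < m := by omega
          simp only [get] at h1
          rw [dif_pos (by omega), if_pos h3, decide_eq_true_iff] at h1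
          obtain ⟨r, hr, hrq⟩ := h1
          rw [← hinj _ hUf r (Finset.mem_union_left _ hr) q hq hrq]
          exact hr
        · intro hq
          have hqU : q ∈ H ∪ Z := Finset.mem_union_left _ hq
          have h2 := hidx _ q hqU
          have h3 : idx (H ∪ Z) q < m := by omega
          refine ⟨hqU, ?_⟩
          simp only [get]
          rw [dif_pos (by omega), if_pos h3, decide_eq_true_iff]
          exact ⟨q, hq, rfl⟩
      have e2 : (H ∪ Z).filter (fun p => get (fun i => if i.1 < m then
          decide (∃ p ∈ H, idx (H ∪ Z) p = i.1) else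
          decide (∃ p ∈ Z, m + idx (H ∪ Z) p = i.1)) (m + idx (H ∪ Z) p) = true) = Z := by
        ext q
        rw [Finset.mem_filter]
        constructor
        · rintro ⟨hq, h1⟩
          have h2 := hidx _ q hq
          simp only [get] at h1
          rw [dif_pos (by omega), if_neg (by omega), decide_eq_true_iff] at h1
          obtain ⟨r, hr, hrq⟩ := h1
          rw [← hinj _ hUf r (Finset.mem_union_right _ hr) q hq (by omega)]
          exact hr
        · intro hq
          have hqU : q ∈ H ∪ Z := Finset.mem_union_right _ hq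
          have h2 := hidx _ q hqU
          refine ⟨hqU, ?_⟩
          simp only [get]
          rw [dif_pos (by omega), if_neg (by omega), decide_eq_true_iff]
          exact ⟨q, hq, rfl⟩
      show ρ _ _ p.1 = p.2
      rw [e1, e2]
      exact hρ p hp)
  refine ⟨κ, ρ', fun S hS => ⟨(h' S hS).1, ?_, (h' S hS).2.2⟩⟩
  have := (h' S hS).2.1
  omega

/-- The samples of a class. -/
theorem class_sub {X : Type} [DecidableEq X] (C : Finset (Finset X)) :
    ∀ S T : Finset (X × Bool), T ⊆ S → (∃ A ∈ C, ∀ p ∈ S, decide (p.1 ∈ A) = p.2) →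
      ∃ A ∈ C, ∀ p ∈ T, decide (p.1 ∈ A) = p.2 :=
  fun _ _ hT ⟨A, hA, h⟩ => ⟨A, hA, fun p hp => h p (hT hp)⟩

theorem class_fun {X : Type} [DecidableEq X] (C : Finset (Finset X)) :
    ∀ S : Finset (X × Bool), (∃ A ∈ C, ∀ p ∈ S, decide (p.1 ∈ A) = p.2) →
      ∀ p ∈ S, ∀ q ∈ S, p.1 = q.1 → p = q := by
  rintro S ⟨A, -, h⟩ p hp q hq hpq
  refine Prod.ext hpq ?_
  rw [← h p hp, ← h q hq, hpq]

/-- Removal of side information for a class `C` (in the form of the frozen statement). -/
theorem no_advice_class {X : Type} [Fintype X] [DecidableEq X] (C : Finset (Finset X)) (k b : ℕ)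
    (ρ : Finset (X × Bool) → (Fin b → Bool) → X → Bool)
    (h : ∀ S : Finset (X × Bool), (∃ A ∈ C, ∀ p ∈ S, decide (p.1 ∈ A) = p.2) →
      ∃ T ⊆ S, T.card ≤ k ∧ ∃ β : Fin b → Bool, ∀ p ∈ S, ρ T β p.1 = p.2) :
    ∃ κ : Finset (X × Bool) → Finset (X × Bool), ∃ ρ' : Finset (X × Bool) → (X → Bool),
      ∀ S : Finset (X × Bool), (∃ A ∈ C, ∀ p ∈ S, decide (p.1 ∈ A) = p.2) →
        κ S ⊆ S ∧ (κ S).card ≤ k + 3 * b + 4 ∧ ∀ p ∈ S, ρ' (κ S) p.1 = p.2 :=
  no_advice _ (class_sub C) (class_fun C) k b ρ h

/-- Kept points with two roles, for a class `C` (in the form of the frozen statement). -/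
theorem no_roles_class {X : Type} [Fintype X] [DecidableEq X] (C : Finset (Finset X)) (m : ℕ)
    (ρ : Finset (X × Bool) → Finset (X × Bool) → X → Bool)
    (h : ∀ S : Finset (X × Bool), (∃ A ∈ C, ∀ p ∈ S, decide (p.1 ∈ A) = p.2) →
      ∃ H ⊆ S, ∃ Z ⊆ S, H.card + Z.card ≤ m ∧ ∀ p ∈ S, ρ H Z p.1 = p.2) :
    ∃ κ : Finset (X × Bool) → Finset (X × Bool), ∃ ρ' : Finset (X × Bool) → (X → Bool),
      ∀ S : Finset (X × Bool), (∃ A ∈ C, ∀ p ∈ S, decide (p.1 ∈ A) = p.2) →
        κ S ⊆ S ∧ (κ S).card ≤ 7 * m + 4 ∧ ∀ p ∈ S, ρ' (κ S) p.1 = p.2 :=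
  no_roles _ (class_sub C) (class_fun C) m ρ h

end Pool.Agent.MPaa62e0T
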