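import Pool.Agent.Lib.MP_aa62e0_lcT.Defs

set_option autoImplicit false
set_option linter.unusedSectionVars false

open Finset
open scoped Classical

namespace Pool.Agent.MPaa62e0T

variable {α : Type} [Fintype α] [DecidableEq α]

theorem mass_nonneg {C : Finset (Finset α)} {M : Finset α → ℝ} (hM : ∀ h, 0 ≤ M h)
    (P : Finset α → Prop) : 0 ≤ mass C M P :=
  Finset.sum_nonneg fun h _ => hM h

theorem mass_mono {C : Finset (Finset α)} {M : Finset α → ℝ} (hM : ∀ h, 0 ≤ M h)
    {P Q : Finset α → Prop} (h : ∀ x ∈ C, P x → Q x) : mass C M P ≤ mass C M Q := by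
  unfold mass
  refine Finset.sum_le_sum_of_subset_of_nonneg ?_ (fun x _ _ => hM x)
  intro x hx
  rw [Finset.mem_filter] at hx ⊢
  exact ⟨hx.1, h x hx.1 hx.2⟩

theorem mass_congr {C : Finset (Finset α)} {M : Finset α → ℝ}
    {P Q : Finset α → Prop} (h : ∀ x ∈ C, P x ↔ Q x) : mass C M P = mass C M Q := by
  unfold mass
  rw [Finset.filter_congr h]

theorem mass_split {C : Finset (Finset α)} {M : Finset α → ℝ} (P Q : Finset α → Prop) :
    mass C M P = mass C M (fun h => P h ∧ Q h) + mass C M (fun h => P h ∧ ¬ Q h) := by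
  unfold mass
  rw [← Finset.sum_filter_add_sum_filter_not (C.filter fun h => P h) (fun h => Q h)]
  simp only [Finset.filter_filter]

/-- Summing over the traces. -/
theorem sum_traces (C : Finset (Finset α)) (M : Finset α → ℝ) (H : Finset α)
    (P : Finset α → Prop) :
    ∑ t ∈ traces C H, mass C M (fun h => h ∩ H = t ∧ P h) = mass C M P := by
  unfold mass traces
  have h1 : ∀ t, (C.filter (fun h => h ∩ H = t ∧ P h))
      = (C.filter (fun h => P h)).filter (fun h => h ∩ H = t) := by
    intro t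
    rw [Finset.filter_filter]
    exact Finset.filter_congr fun x _ => and_comm
  simp only [h1]
  exact Finset.sum_fiberwise_of_maps_to
    (fun h hh => Finset.mem_image_of_mem _ (Finset.mem_filter.1 hh).1) _

theorem sum_traces_one (C : Finset (Finset α)) (M : Finset α → ℝ) (hM : IsProb C M)
    (H : Finset α) : ∑ t ∈ traces C H, mass C M (fun h => h ∩ H = t) = 1 := by
  have h := sum_traces C M H (fun _ => True)
  simp only [and_true] at h
  rw [h]
  unfold mass
  simpa using hM.2

theorem mem_fib {C : Finset (Finset α)} {H t h : Finset α} :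
    h ∈ fib C H t ↔ h ∈ C ∧ h ∩ H = t := by
  unfold fib; exact Finset.mem_filter

theorem mem_hit {C : Finset (Finset α)} {M : Finset α → ℝ} {H t W h : Finset α} :
    h ∈ hit C M H t W ↔ (h ∈ C ∧ h ∩ H = t) ∧ (h ∩ (W ∩ L C M H t)).Nonempty := by
  unfold hit; rw [Finset.mem_filter, mem_fib]

theorem mem_Z {C : Finset (Finset α)} {H : Finset α} {z : α} : z ∈ Z C H ↔ Kills C H z := by
  unfold Z; simp

theorem Kills.mono {C : Finset (Finset α)} {H H' : Finset α} {z : α} (h : Kills C H' z)
    (hH : H ⊆ H') : Kills C H z := by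
  intro b hb
  obtain ⟨g, hg, hgb, hz⟩ := h b hb
  refine ⟨g, hg, ?_, hz⟩
  have : (g ∩ H') ∩ H = (b ∩ H') ∩ H := by rw [hgb]
  rwa [Finset.inter_assoc, Finset.inter_assoc, Finset.inter_eq_right.2 hH] at this

theorem hit_mono {C : Finset (Finset α)} {M : Finset α → ℝ} {H t W W' : Finset α}
    (h : W ⊆ W') : hit C M H t W ⊆ hit C M H t W' := by
  intro g hg
  rw [mem_hit] at hg ⊢
  refine ⟨hg.1, hg.2.mono ?_⟩
  exact Finset.inter_subset_inter_left (Finset.inter_subset_inter_right h)

end Pool.Agent.MPaa62e0T
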