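import Pool.Agent.Lib.MP_aa62e0_lcT.Basic

set_option autoImplicit false
set_option linter.unusedSectionVars false

open Finset
open scoped Classical

namespace Pool.Agent.MPaa62e0T

variable {α : Type} [Fintype α] [DecidableEq α]

/-- The `m`-block class: a block `W` (at most `m` points) is wrong for `h` iff `h` meets `W`. -/
noncomputable def blockSet (m : ℕ) (h : Finset α) : Finset (Finset α) :=
  Finset.univ.filter (fun W : Finset α => W.card ≤ m ∧ (h ∩ W).Nonempty)

noncomputable def blockClass (m : ℕ) (C : Finset (Finset α)) : Finset (Finset (Finset α)) :=
  C.image (blockSet m)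

end Pool.Agent.MPaa62e0T
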