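import Pool.Agent.Lib.MP_aa62e0_lcT.BlockDefs

set_option autoImplicit false
set_option linter.unusedSectionVars false

open Finset
open scoped Classical

namespace Pool.Agent.MPaa62e0T

variable {α : Type} [Fintype α] [DecidableEq α]

/-- LEAF E2.  From a set `𝓗` of `k` blocks without killer to a set `H` of at most `m k` points such
that every block of at most `m` points is right for all members of `C` with some trace on `H`. -/
theorem block_teach (C : Finset (Finset α)) (m k : ℕ)
    (h : ∃ 𝓗 : Finset (Finset α), 𝓗.card ≤ k ∧ ∀ W, ¬ Kills (blockClass m C) 𝓗 W) :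
    ∃ H : Finset α, H.card ≤ m * k ∧ ∀ W : Finset α, W.card ≤ m →
      ∃ b ∈ C, ∀ g ∈ C, g ∩ H = b ∩ H → Disjoint g W := by
  obtain ⟨𝓗, hk, hno⟩ := h
  refine ⟨(𝓗.filter fun W => W.card ≤ m).biUnion id, ?_, ?_⟩
  · calc ((𝓗.filter fun W => W.card ≤ m).biUnion id).card
        ≤ (𝓗.filter fun W => W.card ≤ m).card * m :=
          Finset.card_biUnion_le_card_mul _ id m fun W hW => (Finset.mem_filter.1 hW).2
      _ ≤ k * m := Nat.mul_le_mul_right m ((Finset.card_filter_le _ _).trans hk)
      _ = m * k := Nat.mul_comm _ _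
  · intro W hW
    have h1 := hno W
    unfold Kills at h1
    push Not at h1
    obtain ⟨B, hB, hB2⟩ := h1
    obtain ⟨b, hb, rfl⟩ := Finset.mem_image.1 hB
    refine ⟨b, hb, fun g hg hgb => ?_⟩
    have h2 : blockSet m g ∩ 𝓗 = blockSet m b ∩ 𝓗 := by
      ext V
      unfold blockSet
      simp only [Finset.mem_inter, Finset.mem_filter, Finset.mem_univ, true_and]
      constructor
      · rintro ⟨⟨hV1, hV2⟩, hV3⟩
        have hVH : V ⊆ (𝓗.filter fun W => W.card ≤ m).biUnion id :=
          Finset.subset_biUnion_of_mem id (Finset.mem_filter.2 ⟨hV3, hV1⟩)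
        refine ⟨⟨hV1, ?_⟩, hV3⟩
        have h3 : b ∩ V = g ∩ V := by
          rw [← Finset.inter_eq_right.2 hVH, ← Finset.inter_assoc, ← Finset.inter_assoc, hgb]
        rw [h3]
        exact hV2
      · rintro ⟨⟨hV1, hV2⟩, hV3⟩
        have hVH : V ⊆ (𝓗.filter fun W => W.card ≤ m).biUnion id :=
          Finset.subset_biUnion_of_mem id (Finset.mem_filter.2 ⟨hV3, hV1⟩)
        refine ⟨⟨hV1, ?_⟩, hV3⟩
        have h3 : b ∩ V = g ∩ V := by
          rw [← Finset.inter_eq_right.2 hVH, ← Finset.inter_assoc, ← Finset.inter_assoc, hgb]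
        rw [← h3]
        exact hV2
    have h4 := hB2 (blockSet m g) (Finset.mem_image_of_mem _ hg) h2
    rw [Finset.disjoint_iff_inter_eq_empty, ← Finset.not_nonempty_iff_eq_empty]
    intro h5
    exact h4 (Finset.mem_filter.2 ⟨Finset.mem_univ _, hW, h5⟩)

end Pool.Agent.MPaa62e0T
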