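import Pool.Agent.Lib.MP_aa62e0_lcT.Basic

set_option autoImplicit false
set_option linter.unusedSectionVars false

open Finset
open scoped Classical

namespace Pool.Agent.MPaa62e0T

variable {α : Type} [Fintype α] [DecidableEq α]

theorem tracesCard_sum_choose (n d : ℕ) :
    ∑ k ∈ Finset.range (d + 1), n.choose k ≤ (n + 1) ^ d := by
  induction d with
  | zero => simp
  | succ d ih =>
    rw [Finset.sum_range_succ]
    have h1 : n.choose (d + 1) ≤ n ^ (d + 1) := Nat.choose_le_pow n (d + 1)
    have h2 : n ^ (d + 1) ≤ n * (n + 1) ^ d := by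
      rw [pow_succ, mul_comm]
      exact Nat.mul_le_mul_left _ (Nat.pow_le_pow_left (Nat.le_succ n) d)
    calc ∑ k ∈ Finset.range (d + 1), n.choose k + n.choose (d + 1)
        ≤ (n + 1) ^ d + n * (n + 1) ^ d := Nat.add_le_add ih (h1.trans h2)
      _ = (n + 1) ^ (d + 1) := by ring

/-- LEAF A3 (Sauer for traces; see also Pool/Agent/Lib/MP_aa62e0_lc/Sauer.lean, Net.lean and
Mathlib's `Finset.card_le_card_shatterer`). -/
theorem traces_card (C : Finset (Finset α)) (d : ℕ) (hd : C.vcDim ≤ d) (H : Finset α) :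
    (traces C H).card ≤ (H.card + 1) ^ d := by
  have hsub : (traces C H).shatterer ⊆
      (Finset.range (d + 1)).biUnion (fun k => H.powersetCard k) := by
    intro s hs
    rw [Finset.mem_shatterer] at hs
    have hsH : s ⊆ H := by
      obtain ⟨u, hu, hsu⟩ := hs (Finset.Subset.refl s)
      obtain ⟨h, _, rfl⟩ := Finset.mem_image.1 hu
      intro x hx
      rw [← hsu] at hx
      exact (Finset.mem_inter.1 (Finset.mem_inter.1 hx).2).2
    have hsC : C.Shatters s := by
      intro t ht
      obtain ⟨u, hu, hsu⟩ := hs ht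
      obtain ⟨h, hh, rfl⟩ := Finset.mem_image.1 hu
      refine ⟨h, hh, ?_⟩
      rw [← hsu, Finset.inter_comm h H, ← Finset.inter_assoc, Finset.inter_eq_left.2 hsH]
    rw [Finset.mem_biUnion]
    refine ⟨s.card, ?_, Finset.mem_powersetCard.2 ⟨hsH, rfl⟩⟩
    rw [Finset.mem_range]
    have := hsC.card_le_vcDim
    omega
  calc (traces C H).card ≤ (traces C H).shatterer.card := Finset.card_le_card_shatterer _
    _ ≤ ((Finset.range (d + 1)).biUnion (fun k => H.powersetCard k)).card :=
        Finset.card_le_card hsub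
    _ ≤ ∑ k ∈ Finset.range (d + 1), (H.powersetCard k).card := Finset.card_biUnion_le
    _ = ∑ k ∈ Finset.range (d + 1), H.card.choose k := by simp only [Finset.card_powersetCard]
    _ ≤ (H.card + 1) ^ d := tracesCard_sum_choose _ _

end Pool.Agent.MPaa62e0T
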