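import Pool.Agent.Lib.MP_aa62e0_lcT.BlockDefs
import Pool.Agent.Lib.MP_aa62e0_lcT.TracesCard

set_option autoImplicit false
set_option linter.unusedSectionVars false

open Finset
open scoped Classical

namespace Pool.Agent.MPaa62e0T

variable {α : Type} [Fintype α] [DecidableEq α]

/-- LEAF E1.  `N` shattered blocks have `2^N ≤` number of traces of `C` on their union (at most
`N m` points) `≤ (N m + 1)^d`. -/
theorem block_vc (C : Finset (Finset α)) (d : ℕ) (hd : C.vcDim ≤ d) (m d' : ℕ)
    (h : ∀ N : ℕ, d' < N → (N * m + 1) ^ d < 2 ^ N) : (blockClass m C).vcDim ≤ d' := by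
  unfold Finset.vcDim
  refine Finset.sup_le fun S hS => ?_
  rw [Finset.mem_shatterer] at hS
  by_contra hcon
  have hN : d' < S.card := Nat.lt_of_not_le hcon
  -- a member of the class for every subset of `S`
  have key : ∀ T : Finset (Finset α), T ⊆ S → ∃ g ∈ C,
      ∀ W ∈ S, W ∈ T ↔ W.card ≤ m ∧ (g ∩ W).Nonempty := by
    intro T hT
    obtain ⟨u, hu, hSu⟩ := hS hT
    obtain ⟨g, hg, rfl⟩ := Finset.mem_image.1 hu
    refine ⟨g, hg, fun W hW => ?_⟩
    rw [← hSu, Finset.mem_inter]
    unfold blockSet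
    rw [Finset.mem_filter]
    exact ⟨fun hx => hx.2.2, fun hx => ⟨hW, Finset.mem_univ _, hx⟩⟩
  have hsmall : ∀ W ∈ S, W.card ≤ m := by
    intro W hW
    obtain ⟨g, _, hg⟩ := key S (Finset.Subset.refl S)
    exact ((hg W hW).1 hW).1
  choose! f hf1 hf2 using key
  set H : Finset α := S.biUnion id with hH
  have hHcard : H.card ≤ S.card * m := Finset.card_biUnion_le_card_mul S id m hsmall
  have hsub : ∀ W ∈ S, W ⊆ H := fun W hW => Finset.subset_biUnion_of_mem id hW
  have hmeet : ∀ (g W : Finset α), W ∈ S → (g ∩ W) = (g ∩ H) ∩ W := by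
    intro g W hW
    rw [Finset.inter_assoc, Finset.inter_eq_right.2 (hsub W hW)]
  have hcard : S.powerset.card ≤ (traces C H).card := by
    refine Finset.card_le_card_of_injOn (fun T => f T ∩ H) ?_ ?_
    · intro T hT
      exact Finset.mem_image_of_mem _ (hf1 T (Finset.mem_powerset.1 hT))
    · intro T hT T' hT' heq
      have hT1 : T ⊆ S := Finset.mem_powerset.1 hT
      have hT2 : T' ⊆ S := Finset.mem_powerset.1 hT'
      have heq' : f T ∩ H = f T' ∩ H := heq
      have hiff : ∀ W ∈ S, W ∈ T ↔ W ∈ T' := by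
        intro W hW
        rw [hf2 T hT1 W hW, hf2 T' hT2 W hW, hmeet (f T) W hW, hmeet (f T') W hW, heq']
      ext W
      exact ⟨fun hW => (hiff W (hT1 hW)).1 hW, fun hW => (hiff W (hT2 hW)).2 hW⟩
  rw [Finset.card_powerset] at hcard
  have h1 := traces_card C d hd H
  have h2 : (H.card + 1) ^ d ≤ (S.card * m + 1) ^ d :=
    Nat.pow_le_pow_left (Nat.succ_le_succ hHcard) d
  exact absurd (h S.card hN) (Nat.not_lt.2 (hcard.trans (h1.trans h2)))

end Pool.Agent.MPaa62e0T
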