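import Pool.Agent.Lib.MP_aa62e0_lcT.TeachNum
import Pool.Agent.Lib.MP_aa62e0_lcT.BlockVc
import Pool.Agent.Lib.MP_aa62e0_lcT.BlockTeach

set_option autoImplicit false
set_option linter.unusedSectionVars false

open Finset
open scoped Classical

namespace Pool.Agent.MPaa62e0T

/-- LEAF G3 (block version with polynomial parameters).  From `teach` (constants `c, a`), `block_vc`
(`d' = m`, say `m = C₀ (d+1)^2`: needs `(N m + 1)^d < 2^N` for `N > d'`), `block_teach` with
`k = c (d'+1)^a`; the set `H` has at most `K := m k` points and `(K+1)^d < 2^m` for `C₀` large. -/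
theorem block_poly : ∃ c a : ℕ, ∀ d : ℕ, ∃ m K : ℕ, m + K ≤ c * (d + 1) ^ a ∧ (K + 1) ^ d < 2 ^ m ∧
    ∀ (α : Type) [Fintype α] [DecidableEq α] (C : Finset (Finset α)), ∅ ∈ C → C.vcDim ≤ d →
      ∃ H : Finset α, H.card ≤ K ∧ ∀ W : Finset α, W.card ≤ m →
        ∃ b ∈ C, ∀ g ∈ C, g ∩ H = b ∩ H → Disjoint g W := by
  sorry

end Pool.Agent.MPaa62e0T
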