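/-
MP_aa62e0_lc (sample compression), poly(d) scheme.  Common definitions.
A class is a `Finset (Finset α)`; its members are the WRONG sets `{x | h x ≠ c x}` of the concepts,
so the target `c` is the empty set.
-/
import Mathlib

set_option autoImplicit false

open Finset
open scoped Classical

namespace Pool.Agent.MPaa62e0T

variable {α : Type} [Fintype α] [DecidableEq α]

/-- `z` kills `H`: every trace of the class on `H` is the trace of a member containing `z`. -/
def Kills (C : Finset (Finset α)) (H : Finset α) (z : α) : Prop :=
  ∀ b ∈ C, ∃ h ∈ C, h ∩ H = b ∩ H ∧ z ∈ h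

/-- The set of killers. -/
noncomputable def Z (C : Finset (Finset α)) (H : Finset α) : Finset α :=
  Finset.univ.filter (fun z => Kills C H z)

/-- Mass of the members of `C` with the property `P`. -/
noncomputable def mass (C : Finset (Finset α)) (M : Finset α → ℝ) (P : Finset α → Prop) : ℝ :=
  ∑ h ∈ C.filter (fun h => P h), M h

/-- The traces of `C` on `H`. -/
noncomputable def traces (C : Finset (Finset α)) (H : Finset α) : Finset (Finset α) :=
  C.image (fun h => h ∩ H)

/-- Entropy (nats) of the trace on `H`. -/
noncomputable def Ent (C : Finset (Finset α)) (M : Finset α → ℝ) (H : Finset α) : ℝ :=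
  ∑ t ∈ traces C H, Real.negMulLog (mass C M (fun h => h ∩ H = t))

/-- `M` is a probability on `C`. -/
def IsProb (C : Finset (Finset α)) (M : Finset α → ℝ) : Prop :=
  (∀ h, 0 ≤ M h) ∧ ∑ h ∈ C, M h = 1

/-- Points of `U` at which trace `t` is mostly right. -/
noncomputable def L (C : Finset (Finset α)) (M : Finset α → ℝ) (H : Finset α) (t : Finset α) :
    Finset α :=
  (Z C H).filter (fun y => mass C M (fun h => h ∩ H = t ∧ y ∈ h)
    ≤ mass C M (fun h => h ∩ H = t ∧ y ∉ h))

/-- Uncertainty of the label of `y` given the trace on `H`. -/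
noncomputable def unc (C : Finset (Finset α)) (M : Finset α → ℝ) (H : Finset α) (y : α) : ℝ :=
  ∑ t ∈ traces C H, min (mass C M (fun h => h ∩ H = t ∧ y ∈ h))
    (mass C M (fun h => h ∩ H = t ∧ y ∉ h))

/-- Members with trace `t` on `H`. -/
noncomputable def fib (C : Finset (Finset α)) (H t : Finset α) : Finset (Finset α) :=
  C.filter (fun h => h ∩ H = t)

/-- Members with trace `t` which are wrong somewhere on `W ∩ L_t`. -/
noncomputable def hit (C : Finset (Finset α)) (M : Finset α → ℝ) (H t W : Finset α) :
    Finset (Finset α) :=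
  (fib C H t).filter (fun h => (h ∩ (W ∩ L C M H t)).Nonempty)

end Pool.Agent.MPaa62e0T
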