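import Pool.Agent.Lib.MP_aa62e0_lcT.Basic

set_option autoImplicit false
set_option linter.unusedSectionVars false

open Finset
open scoped Classical

namespace Pool.Agent.MPaa62e0T

variable {α : Type} [Fintype α] [DecidableEq α]

theorem ent_refine_two {a b : ℝ} (ha : 0 ≤ a) (hab : a ≤ b) :
    Real.negMulLog (a + b) + Real.log 2 * a ≤ Real.negMulLog a + Real.negMulLog b := by
  rcases ha.eq_or_lt with h0 | h0
  · rw [← h0]; simp
  · have hb : 0 < b := lt_of_lt_of_le h0 hab
    have h1 : Real.log 2 + Real.log a ≤ Real.log (a + b) := by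
      rw [← Real.log_mul (by norm_num) h0.ne']
      exact Real.log_le_log (by positivity) (by linarith)
    have h2 : Real.log b ≤ Real.log (a + b) := Real.log_le_log hb (by linarith)
    have h3 := mul_le_mul_of_nonneg_left h1 h0.le
    have h4 := mul_le_mul_of_nonneg_left h2 hb.le
    simp only [Real.negMulLog]
    linarith

theorem ent_refine_pair {a b : ℝ} (ha : 0 ≤ a) (hb : 0 ≤ b) :
    Real.negMulLog (a + b) + Real.log 2 * min a b ≤ Real.negMulLog a + Real.negMulLog b := by
  rcases le_total a b with h | h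
  · rw [min_eq_left h]; exact ent_refine_two ha h
  · rw [min_eq_right h, add_comm a b, add_comm (Real.negMulLog a)]
    exact ent_refine_two hb h

theorem ent_refine_sub {ι : Type} (s : Finset ι) (f : ι → ℝ) (hf : ∀ i ∈ s, 0 ≤ f i) :
    Real.negMulLog (∑ i ∈ s, f i) ≤ ∑ i ∈ s, Real.negMulLog (f i) := by
  classical
  induction s using Finset.induction_on with
  | empty => simp
  | insert i s hi ih =>
    rw [Finset.sum_insert hi, Finset.sum_insert hi]
    have h0 : 0 ≤ f i := hf i (Finset.mem_insert_self i s)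
    have h1 : 0 ≤ ∑ j ∈ s, f j :=
      Finset.sum_nonneg fun j hj => hf j (Finset.mem_insert_of_mem hj)
    have h2 := ih fun j hj => hf j (Finset.mem_insert_of_mem hj)
    have h3 := ent_refine_pair h0 h1
    have h4 : 0 ≤ Real.log 2 * min (f i) (∑ j ∈ s, f j) :=
      mul_nonneg (Real.log_nonneg (by norm_num)) (le_min h0 h1)
    linarith

theorem ent_refine_zero (C : Finset (Finset α)) (M : Finset α → ℝ) (P : Finset α → Prop)
    (h : ∀ x ∈ C, ¬ P x) : mass C M P = 0 := by
  unfold mass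
  rw [Finset.filter_false_of_mem h, Finset.sum_empty]

/-- Grouping the traces on `H'` by their traces on `H ⊆ H'`. -/
theorem ent_refine_group (C : Finset (Finset α)) (M : Finset α → ℝ) (hM : ∀ h, 0 ≤ M h)
    (H H' : Finset α) (hH : H ⊆ H') (P : Finset α → Prop) :
    ∑ t ∈ traces C H, Real.negMulLog (mass C M (fun h => h ∩ H = t ∧ P h))
      ≤ ∑ t ∈ traces C H', Real.negMulLog (mass C M (fun h => h ∩ H' = t ∧ P h)) := by
  have hmap : ∀ t' ∈ traces C H', t' ∩ H ∈ traces C H := by
    intro t' ht'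
    unfold traces at ht' ⊢
    rw [Finset.mem_image] at ht' ⊢
    obtain ⟨h, hh, rfl⟩ := ht'
    exact ⟨h, hh, by rw [Finset.inter_assoc, Finset.inter_eq_right.2 hH]⟩
  rw [← Finset.sum_fiberwise_of_maps_to hmap]
  refine Finset.sum_le_sum fun t _ => ?_
  have hsum : mass C M (fun h => h ∩ H = t ∧ P h)
      = ∑ t' ∈ (traces C H').filter (fun t' => t' ∩ H = t),
          mass C M (fun h => h ∩ H' = t' ∧ P h) := by
    have h1 := sum_traces C M H' (fun h => h ∩ H = t ∧ P h)
    rw [← h1, Finset.sum_filter]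
    refine Finset.sum_congr rfl fun t' _ => ?_
    split_ifs with h2
    · refine mass_congr fun x _ => ⟨fun h => ⟨h.1, h.2.2⟩, fun h => ⟨h.1, ?_, h.2⟩⟩
      have : (x ∩ H') ∩ H = t := by rw [h.1]; exact h2
      rwa [Finset.inter_assoc, Finset.inter_eq_right.2 hH] at this
    · refine ent_refine_zero C M _ fun x _ hx => h2 ?_
      rw [← hx.1, Finset.inter_assoc, Finset.inter_eq_right.2 hH]
      exact hx.2.1
  rw [hsum]
  exact ent_refine_sub _ _ fun t' _ => mass_nonneg hM _

/-- LEAF A1 (entropy refinement).  `-x log x` is subadditive on `[0,1]` (concave, 0 at 0), so grouping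
the traces on `H'` by (trace on `H`, truth value of `I`) gives
`Ent H' ≥ ∑_t nml(a_t) + nml(b_t)`, `a_t = mass(t, I)`, `b_t = mass(t, ¬I)`; and
`nml a + nml b ≥ nml (a+b) + log 2 * min a b` (if `0 < a ≤ b` then `a log((a+b)/a) ≥ a log 2`). -/
theorem ent_refine (C : Finset (Finset α)) (M : Finset α → ℝ) (hM : IsProb C M)
    (H H' : Finset α) (hH : H ⊆ H') (I : Finset α → Prop)
    (hI : ∀ h ∈ C, ∀ g ∈ C, h ∩ H' = g ∩ H' → (I h ↔ I g)) :
    Ent C M H + Real.log 2 * ∑ t ∈ traces C H,
      min (mass C M (fun h => h ∩ H = t ∧ I h)) (mass C M (fun h => h ∩ H = t ∧ ¬ I h))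
      ≤ Ent C M H' := by
  have h1 : Ent C M H' = (∑ t ∈ traces C H', Real.negMulLog (mass C M (fun h => h ∩ H' = t ∧ I h)))
      + ∑ t ∈ traces C H', Real.negMulLog (mass C M (fun h => h ∩ H' = t ∧ ¬ I h)) := by
    unfold Ent
    rw [← Finset.sum_add_distrib]
    refine Finset.sum_congr rfl fun t ht => ?_
    unfold traces at ht
    rw [Finset.mem_image] at ht
    obtain ⟨g, hg, hgt⟩ := ht
    have hz : ∀ Q : Finset α → Prop, (∀ x ∈ C, x ∩ H' = t → ¬ Q x) →
        mass C M (fun h => h ∩ H' = t ∧ Q h) = 0 := by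
      intro Q hQ
      exact ent_refine_zero C M _ fun x hx h => hQ x hx h.1 h.2
    by_cases hIg : I g
    · have hall : ∀ x ∈ C, x ∩ H' = t → I x := fun x hx hxt =>
        (hI x hx g hg (hxt.trans hgt.symm)).2 hIg
      rw [hz (fun h => ¬ I h) (fun x hx hxt hn => hn (hall x hx hxt)), Real.negMulLog_zero, add_zero]
      congr 1
      exact mass_congr fun x hx => ⟨fun h => ⟨h, hall x hx h⟩, fun h => h.1⟩
    · have hall : ∀ x ∈ C, x ∩ H' = t → ¬ I x := fun x hx hxt hIx =>
        hIg ((hI x hx g hg (hxt.trans hgt.symm)).1 hIx)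
      rw [hz (fun h => I h) (fun x hx hxt => hall x hx hxt), Real.negMulLog_zero, zero_add]
      congr 1
      exact mass_congr fun x hx => ⟨fun h => ⟨h, hall x hx h⟩, fun h => h.1⟩
  have h2 := ent_refine_group C M hM.1 H H' hH I
  have h3 := ent_refine_group C M hM.1 H H' hH (fun h => ¬ I h)
  have h4 : Ent C M H + Real.log 2 * ∑ t ∈ traces C H,
      min (mass C M (fun h => h ∩ H = t ∧ I h)) (mass C M (fun h => h ∩ H = t ∧ ¬ I h))
      ≤ (∑ t ∈ traces C H, Real.negMulLog (mass C M (fun h => h ∩ H = t ∧ I h)))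
        + ∑ t ∈ traces C H, Real.negMulLog (mass C M (fun h => h ∩ H = t ∧ ¬ I h)) := by
    unfold Ent
    rw [Finset.mul_sum, ← Finset.sum_add_distrib, ← Finset.sum_add_distrib]
    refine Finset.sum_le_sum fun t _ => ?_
    rw [mass_split (fun h => h ∩ H = t) I]
    exact ent_refine_pair (mass_nonneg hM.1 _) (mass_nonneg hM.1 _)
  rw [h1]
  linarith

end Pool.Agent.MPaa62e0T
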