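import Pool.Agent.Lib.MP_aa62e0_lcT.Basic

set_option autoImplicit false
set_option linter.unusedSectionVars false

open Finset
open scoped Classical

namespace Pool.Agent.MPaa62e0T

variable {α : Type} [Fintype α] [DecidableEq α]

theorem entLe_aux {p n : ℝ} (hp : 0 ≤ p) (hn : 0 < n) :
    Real.negMulLog p ≤ p * Real.log n + (1 / n - p) := by
  rcases hp.eq_or_lt with h0 | h0
  · rw [← h0]
    have h1 : 0 < 1 / n := one_div_pos.2 hn
    simp only [Real.negMulLog_zero, zero_mul, zero_add, sub_zero]
    exact h1.le
  · have h1 : Real.log (1 / (n * p)) ≤ 1 / (n * p) - 1 :=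
      Real.log_le_sub_one_of_pos (by positivity)
    rw [one_div, Real.log_inv, Real.log_mul hn.ne' h0.ne'] at h1
    have h2 := mul_le_mul_of_nonneg_left h1 hp
    have h3 : p * ((n * p)⁻¹ - 1) = 1 / n - p := by
      field_simp
    rw [h3] at h2
    unfold Real.negMulLog
    linarith

/-- LEAF A2 (entropy upper bound, Jensen; `C` nonempty because of `hM`). -/
theorem ent_le (C : Finset (Finset α)) (M : Finset α → ℝ) (hM : IsProb C M)
    (H : Finset α) : Ent C M H ≤ Real.log (traces C H).card := by
  have h1 := sum_traces_one C M hM H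
  have hne : (traces C H).Nonempty := by
    rw [Finset.nonempty_iff_ne_empty]
    intro h
    rw [h, Finset.sum_empty] at h1
    exact zero_ne_one h1
  have hn : (0 : ℝ) < (traces C H).card := by
    exact_mod_cast Finset.card_pos.2 hne
  unfold Ent
  calc ∑ t ∈ traces C H, Real.negMulLog (mass C M (fun h => h ∩ H = t))
      ≤ ∑ t ∈ traces C H, (mass C M (fun h => h ∩ H = t) * Real.log (traces C H).card +
          (1 / (traces C H).card - mass C M (fun h => h ∩ H = t))) :=
        Finset.sum_le_sum fun t _ => entLe_aux (mass_nonneg hM.1 _) hn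
    _ = Real.log (traces C H).card := by
        rw [Finset.sum_add_distrib, ← Finset.sum_mul, Finset.sum_sub_distrib, h1,
          Finset.sum_const, nsmul_eq_mul, mul_one_div_cancel hn.ne', one_mul, sub_self, add_zero]

end Pool.Agent.MPaa62e0T
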