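import Pool.Agent.Lib.MP_aa62e0_lcT.Basic

set_option autoImplicit false
set_option linter.unusedSectionVars false

open Finset
open scoped Classical

namespace Pool.Agent.MPaa62e0T

variable {α : Type} [Fintype α] [DecidableEq α]

/-- LEAF V (the restricted fibres have VC dimension at most that of `C`). -/
theorem vc_fib (C : Finset (Finset α)) (H t Lt : Finset α) :
    ((fib C H t).image (fun h => h ∩ Lt)).vcDim ≤ C.vcDim := by
  unfold Finset.vcDim
  refine Finset.sup_le fun s hs => ?_
  rw [Finset.mem_shatterer] at hs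
  have hsL : s ⊆ Lt := by
    obtain ⟨v, hv, hsv⟩ := hs (Finset.Subset.refl s)
    obtain ⟨h, _, rfl⟩ := Finset.mem_image.1 hv
    intro x hx
    rw [← hsv] at hx
    exact (Finset.mem_inter.1 (Finset.mem_inter.1 hx).2).2
  have hC : C.Shatters s := by
    intro u hu
    obtain ⟨v, hv, hsv⟩ := hs hu
    obtain ⟨h, hh, rfl⟩ := Finset.mem_image.1 hv
    refine ⟨h, (mem_fib.1 hh).1, ?_⟩
    rw [← hsv]
    ext x
    simp only [Finset.mem_inter]
    constructor
    · rintro ⟨h1, h2⟩
      exact ⟨h1, h2, hsL h1⟩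
    · rintro ⟨h1, h2, _⟩
      exact ⟨h1, h2⟩
  exact Finset.le_sup (f := Finset.card) (Finset.mem_shatterer.2 hC)

end Pool.Agent.MPaa62e0T
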