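import Pool.Agent.Lib.MP_aa62e0_lcT.EntLe
import Pool.Agent.Lib.MP_aa62e0_lcT.TracesCard
import Pool.Agent.Lib.MP_aa62e0_lcT.VcFib

set_option autoImplicit false
set_option linter.unusedSectionVars false

open Finset
open scoped Classical

namespace Pool.Agent.MPaa62e0T

variable {α : Type} [Fintype α] [DecidableEq α]

/-- LEAF A4. -/
theorem ent_bound (C : Finset (Finset α)) (M : Finset α → ℝ) (hM : IsProb C M) (d : ℕ)
    (hd : C.vcDim ≤ d) (H : Finset α) : Ent C M H ≤ d * Real.log (H.card + 1) := by
  have h1 := sum_traces_one C M hM H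
  have hne : (traces C H).Nonempty := by
    rw [Finset.nonempty_iff_ne_empty]
    intro h
    rw [h, Finset.sum_empty] at h1
    exact zero_ne_one h1
  have hn : (0 : ℝ) < (traces C H).card := by
    exact_mod_cast Finset.card_pos.2 hne
  have h2 : ((traces C H).card : ℝ) ≤ ((H.card : ℝ) + 1) ^ d := by
    exact_mod_cast traces_card C d hd H
  calc Ent C M H ≤ Real.log (traces C H).card := ent_le C M hM H
    _ ≤ Real.log (((H.card : ℝ) + 1) ^ d) := Real.log_le_log hn h2
    _ = d * Real.log (H.card + 1) := Real.log_pow _ _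

end Pool.Agent.MPaa62e0T
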