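import Pool.Agent.Lib.MP_aa62e0_lcT.Basic
import Pool.Agent.Lib.MP_aa62e0_lcT.Ent

set_option autoImplicit false
set_option linter.unusedSectionVars false

open Finset
open scoped Classical

namespace Pool.Agent.MPaa62e0T

variable {α : Type} [Fintype α] [DecidableEq α]

/-- LEAF C5 (free step; from `ent_refine` with `I h = (y ∈ h)`, `H' = insert y H`). -/
theorem free_step (C : Finset (Finset α)) (M : Finset α → ℝ) (hM : IsProb C M) (H : Finset α)
    (y : α) (τ : ℝ) (hy : τ < unc C M H y) :
    Ent C M H + Real.log 2 * τ ≤ Ent C M (insert y H) := by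
  have h1 := ent_refine C M hM H (insert y H) (Finset.subset_insert y H) (fun h => y ∈ h)
    (fun h _ g _ hgh => by
      have h2 : y ∈ h ∩ insert y H ↔ y ∈ g ∩ insert y H := by rw [hgh]
      simpa only [Finset.mem_inter, Finset.mem_insert_self, and_true] using h2)
  have h3 : Real.log 2 * τ ≤ Real.log 2 * unc C M H y :=
    mul_le_mul_of_nonneg_left hy.le (Real.log_nonneg (by norm_num))
  have h4 : Ent C M H + Real.log 2 * unc C M H y ≤ Ent C M (insert y H) := h1
  linarith

end Pool.Agent.MPaa62e0T
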