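import Pool.Agent.Lib.MP_aa62e0_lcT.Stable
import Pool.Agent.Lib.MP_aa62e0_lcT.Basic

set_option autoImplicit false
set_option linter.unusedSectionVars false

open Finset
open scoped Classical

namespace Pool.Agent.MPaa62e0T

variable {α : Type} [Fintype α] [DecidableEq α]

/-- Subadditivity. -/
theorem good_biUnion {ι : Type*} [DecidableEq ι] {M : Finset α → ℝ} (hM : ∀ h, 0 ≤ M h)
    (s : Finset ι) (f : ι → Finset (Finset α)) :
    ∑ h ∈ s.biUnion f, M h ≤ ∑ i ∈ s, ∑ h ∈ f i, M h := by
  induction s using Finset.induction_on with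
  | empty => simp
  | insert a s ha ih =>
    rw [Finset.biUnion_insert, Finset.sum_insert ha]
    have h1 := Finset.sum_union_inter (s₁ := f a) (s₂ := s.biUnion f) (f := M)
    have h2 : 0 ≤ ∑ h ∈ f a ∩ s.biUnion f, M h := Finset.sum_nonneg fun h _ => hM h
    linarith

/-- The members with the property `P`. -/
noncomputable def goodMs (C : Finset (Finset α)) (P : Finset α → Prop) : Finset (Finset α) :=
  C.filter (fun h => P h)

theorem mem_goodMs {C : Finset (Finset α)} {P : Finset α → Prop} {h : Finset α} :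
    h ∈ goodMs C P ↔ h ∈ C ∧ P h := Finset.mem_filter

theorem mass_eq_goodMs (C : Finset (Finset α)) (M : Finset α → ℝ) (P : Finset α → Prop) :
    mass C M P = ∑ h ∈ goodMs C P, M h := rfl

/-- The weight of a trace where `y` is mostly wrong. -/
theorem good_notL (C : Finset (Finset α)) (M : Finset α → ℝ) (hM : ∀ h, 0 ≤ M h)
    (H : Finset α) {y : α} (hy : y ∈ Z C H) :
    ∑ t ∈ (traces C H).filter (fun t => y ∉ L C M H t), mass C M (fun h => h ∩ H = t)
      ≤ 2 * mass C M (fun h => y ∈ h) := by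
  rw [← sum_traces C M H (fun h => y ∈ h), Finset.mul_sum]
  refine (Finset.sum_le_sum (g := fun t => 2 * mass C M (fun h => h ∩ H = t ∧ y ∈ h))
    fun t ht => ?_).trans ?_
  · have h1 : ¬ mass C M (fun h => h ∩ H = t ∧ y ∈ h) ≤ mass C M (fun h => h ∩ H = t ∧ y ∉ h) := by
      intro h2
      exact (Finset.mem_filter.1 ht).2 (Finset.mem_filter.2 ⟨hy, h2⟩)
    rw [not_le] at h1
    have h2 := mass_split (C := C) (M := M) (fun h => h ∩ H = t) (fun h => y ∈ h)
    linarith
  · refine Finset.sum_le_sum_of_subset_of_nonneg (Finset.filter_subset _ _) fun t _ _ => ?_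
    exact mul_nonneg (by norm_num) (mass_nonneg hM _)

/-- The weight of the traces which are mostly hit. -/
theorem good_hit (C : Finset (Finset α)) (M : Finset α → ℝ) (hM : ∀ h, 0 ≤ M h)
    (H W : Finset α) (hW : W ⊆ Z C H) :
    ∑ t ∈ traces C H, mass C M (fun h => h ∈ hit C M H t W) ≤ ∑ y ∈ W, unc C M H y := by
  unfold unc
  rw [Finset.sum_comm]
  refine Finset.sum_le_sum fun t _ => ?_
  have h1 : mass C M (fun h => h ∈ hit C M H t W) ≤
      ∑ y ∈ W.filter (fun y => y ∈ L C M H t), mass C M (fun h => h ∩ H = t ∧ y ∈ h) := by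
    simp only [mass_eq_goodMs]
    refine (Finset.sum_le_sum_of_subset_of_nonneg
      (t := (W.filter (fun y => y ∈ L C M H t)).biUnion
        (fun y => goodMs C (fun h => h ∩ H = t ∧ y ∈ h))) ?_ (fun x _ _ => hM x)).trans
      (good_biUnion hM _ _)
    intro h hh
    rw [mem_goodMs, mem_hit] at hh
    obtain ⟨hC, ⟨-, ht⟩, y, hy⟩ := hh
    rw [Finset.mem_inter, Finset.mem_inter] at hy
    exact Finset.mem_biUnion.2 ⟨y, Finset.mem_filter.2 ⟨hy.2.1, hy.2.2⟩,
      mem_goodMs.2 ⟨hC, ht, hy.1⟩⟩
  refine h1.trans ?_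
  refine (Finset.sum_le_sum (g := fun y => min (mass C M (fun h => h ∩ H = t ∧ y ∈ h))
    (mass C M (fun h => h ∩ H = t ∧ y ∉ h))) fun y hy => ?_).trans ?_
  · have h2 := (Finset.mem_filter.1 (Finset.mem_filter.1 hy).2).2
    exact le_min le_rfl h2
  · refine Finset.sum_le_sum_of_subset_of_nonneg (Finset.filter_subset _ _) fun y _ _ => ?_
    exact le_min (mass_nonneg hM _) (mass_nonneg hM _)

/-- LEAF C1 (good committee).  Apply `stable` with `T = traces C H`, `β t = mass (h ∩ H = t)`,
`Y = Z C H`, `s t W = (hit C M H t W).card`; get `W`, `V0`, `β(V0) ≥ 1/2`.  Remove from `V0`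
(i) the t with `hit t W = ∅`: take any `y ∈ Z C H`; if `y ∈ L t` then `hit t {y}` is nonempty
(`y` kills `H`), so `β(i, y ∈ L) ≤ 10/K ≤ 1/16`, and `β(y ∉ L t) ≤ 2 mass(y ∈ h) ≤ 1/8`;
(ii) the t with `mass(t, hit) > mass(t, not hit)`: their weight is at most
`2 ∑_t mass(t, hit) ≤ 2 ∑_{y ∈ W} ∑_{t : y ∈ L t} mass(t, y ∈ h) ≤ 2 ∑_{y ∈ W} unc y ≤ 2 K τ ≤ 1/8`.
`1/2 - 1/16 - 1/8 - 1/8 ≥ 1/8`. -/
theorem good_set (C : Finset (Finset α)) (M : Finset α → ℝ) (hM : IsProb C M)
    (H : Finset α) (e τ : ℝ) (K : ℕ) (hZ : (Z C H).Nonempty)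
    (herr : ∀ y ∈ Z C H, mass C M (fun h => y ∈ h) ≤ e)
    (hfree : ∀ y ∈ Z C H, unc C M H y ≤ τ) (he : e ≤ 1 / 16) (hK : 160 ≤ K)
    (hτ : K * τ ≤ 1 / 16) :
    ∃ W ⊆ Z C H, W.card ≤ K ∧ ∃ V ⊆ traces C H,
      1 / 8 ≤ ∑ t ∈ V, mass C M (fun h => h ∩ H = t) ∧
      (∀ t ∈ V, (hit C M H t W).Nonempty) ∧
      (∀ t ∈ V, mass C M (fun h => h ∈ hit C M H t W)
        ≤ mass C M (fun h => h ∩ H = t ∧ h ∉ hit C M H t W)) ∧
      ∀ W' ⊆ Z C H, W'.Nonempty →
        ∑ t ∈ V.filter (fun t => (hit C M H t W).card < (hit C M H t W').card),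
          mass C M (fun h => h ∩ H = t) ≤ 10 * W'.card / K := by
  have hM0 := hM.1
  have hβ : ∀ t, 0 ≤ mass C M (fun h => h ∩ H = t) := fun t => mass_nonneg hM0 _
  obtain ⟨W, hWZ, hWK, V0, hV0, hV0β, hst⟩ := stable (traces C H)
    (fun t => mass C M (fun h => h ∩ H = t)) hβ (sum_traces_one C M hM H) (Z C H) K
    (by omega) (fun t W => (hit C M H t W).card)
    (fun t W W' h => Finset.card_le_card (hit_mono h))
  obtain ⟨y, hy⟩ := hZ
  have hKr : (160 : ℝ) ≤ K := by exact_mod_cast hK
  have hτ0 : 0 ≤ τ := by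
    refine le_trans ?_ (hfree y hy)
    unfold unc
    exact Finset.sum_nonneg fun t _ => le_min (mass_nonneg hM0 _) (mass_nonneg hM0 _)
  refine ⟨W, hWZ, hWK, V0.filter (fun t => (hit C M H t W).Nonempty ∧
    mass C M (fun h => h ∈ hit C M H t W)
        ≤ mass C M (fun h => h ∩ H = t ∧ h ∉ hit C M H t W)),
    (Finset.filter_subset _ _).trans hV0, ?_, fun t ht => (Finset.mem_filter.1 ht).2.1,
    fun t ht => (Finset.mem_filter.1 ht).2.2, fun W' hW' hne => ?_⟩
  · -- the three bad sets
    have hb1 : ∑ t ∈ V0.filter (fun t => (hit C M H t W).card < (hit C M H t {y}).card),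
        mass C M (fun h => h ∩ H = t) ≤ 1 / 16 := by
      have h1 := hst {y} (Finset.singleton_subset_iff.2 hy) (Finset.singleton_nonempty y)
      refine h1.trans ?_
      rw [Finset.card_singleton, Nat.cast_one, mul_one, div_le_div_iff₀ (by linarith)
        (by norm_num)]
      linarith
    have hb2 := good_notL C M hM0 H hy
    have hb3 : ∑ t ∈ (traces C H).filter (fun t =>
        ¬ mass C M (fun h => h ∈ hit C M H t W)
        ≤ mass C M (fun h => h ∩ H = t ∧ h ∉ hit C M H t W)),
        mass C M (fun h => h ∩ H = t) ≤ 1 / 8 := by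
      calc ∑ t ∈ (traces C H).filter (fun t =>
            ¬ mass C M (fun h => h ∈ hit C M H t W)
            ≤ mass C M (fun h => h ∩ H = t ∧ h ∉ hit C M H t W)),
            mass C M (fun h => h ∩ H = t)
          ≤ ∑ t ∈ (traces C H).filter (fun t =>
            ¬ mass C M (fun h => h ∈ hit C M H t W)
            ≤ mass C M (fun h => h ∩ H = t ∧ h ∉ hit C M H t W)),
              2 * mass C M (fun h => h ∈ hit C M H t W) := by
            refine Finset.sum_le_sum fun t ht => ?_
            have h1 := (Finset.mem_filter.1 ht).2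
            rw [not_le] at h1
            have h2 := mass_split (C := C) (M := M) (fun h => h ∩ H = t)
              (fun h => h ∈ hit C M H t W)
            have h3 : mass C M (fun h => h ∩ H = t ∧ h ∈ hit C M H t W) =
                mass C M (fun h => h ∈ hit C M H t W) :=
              mass_congr fun h _ => ⟨fun h4 => h4.2, fun h4 => ⟨(mem_hit.1 h4).1.2, h4⟩⟩
            rw [h3] at h2
            linarith
        _ ≤ ∑ t ∈ traces C H, 2 * mass C M (fun h => h ∈ hit C M H t W) :=
            Finset.sum_le_sum_of_subset_of_nonneg (Finset.filter_subset _ _)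
              fun t _ _ => mul_nonneg (by norm_num) (mass_nonneg hM0 _)
        _ = 2 * ∑ t ∈ traces C H, mass C M (fun h => h ∈ hit C M H t W) := by
            rw [Finset.mul_sum]
        _ ≤ 2 * ∑ y ∈ W, unc C M H y :=
            mul_le_mul_of_nonneg_left (good_hit C M hM0 H W hWZ) (by norm_num)
        _ ≤ 2 * ∑ y ∈ W, τ :=
            mul_le_mul_of_nonneg_left (Finset.sum_le_sum fun y hy => hfree y (hWZ hy))
              (by norm_num)
        _ = 2 * (W.card * τ) := by rw [Finset.sum_const, nsmul_eq_mul]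
        _ ≤ 2 * (K * τ) := by
            refine mul_le_mul_of_nonneg_left (mul_le_mul_of_nonneg_right ?_ hτ0) (by norm_num)
            exact_mod_cast hWK
        _ ≤ 1 / 8 := by linarith
    have hcov : V0 ⊆ V0.filter (fun t => (hit C M H t W).Nonempty ∧
        mass C M (fun h => h ∈ hit C M H t W)
          ≤ mass C M (fun h => h ∩ H = t ∧ h ∉ hit C M H t W)) ∪
        (V0.filter (fun t => (hit C M H t W).card < (hit C M H t {y}).card) ∪
          ((traces C H).filter (fun t => y ∉ L C M H t) ∪
            (traces C H).filter (fun t =>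
              ¬ mass C M (fun h => h ∈ hit C M H t W)
              ≤ mass C M (fun h => h ∩ H = t ∧ h ∉ hit C M H t W)))) := by
      intro t ht
      have htT := hV0 ht
      by_cases h1 : mass C M (fun h => h ∈ hit C M H t W)
          ≤ mass C M (fun h => h ∩ H = t ∧ h ∉ hit C M H t W)
      · by_cases h2 : (hit C M H t W).Nonempty
        · exact Finset.mem_union_left _ (Finset.mem_filter.2 ⟨ht, h2, h1⟩)
        · refine Finset.mem_union_right _ ?_
          by_cases h3 : y ∈ L C M H t
          · refine Finset.mem_union_left _ (Finset.mem_filter.2 ⟨ht, ?_⟩)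
            rw [Finset.not_nonempty_iff_eq_empty] at h2
            rw [h2, Finset.card_empty, Finset.card_pos]
            unfold traces at htT
            obtain ⟨b, hb, rfl⟩ := Finset.mem_image.1 htT
            obtain ⟨h, hh, hhb, hyh⟩ := mem_Z.1 hy b hb
            refine ⟨h, mem_hit.2 ⟨⟨hh, hhb⟩, y, ?_⟩⟩
            exact Finset.mem_inter.2 ⟨hyh, Finset.mem_inter.2 ⟨Finset.mem_singleton_self y, h3⟩⟩
          · exact Finset.mem_union_right _ (Finset.mem_union_left _
              (Finset.mem_filter.2 ⟨htT, h3⟩))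
      · exact Finset.mem_union_right _ (Finset.mem_union_right _ (Finset.mem_union_right _
          (Finset.mem_filter.2 ⟨htT, h1⟩)))
    have hun : ∀ A B : Finset (Finset α), ∑ t ∈ A ∪ B, mass C M (fun h => h ∩ H = t) ≤
        ∑ t ∈ A, mass C M (fun h => h ∩ H = t) + ∑ t ∈ B, mass C M (fun h => h ∩ H = t) := by
      intro A B
      have h1 := Finset.sum_union_inter (s₁ := A) (s₂ := B)
        (f := fun t => mass C M (fun h => h ∩ H = t))
      have h2 : 0 ≤ ∑ t ∈ A ∩ B, mass C M (fun h => h ∩ H = t) :=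
        Finset.sum_nonneg fun t _ => hβ t
      linarith
    have hsub := Finset.sum_le_sum_of_subset_of_nonneg hcov (fun t _ _ => hβ t)
    have h1 := hun (V0.filter (fun t => (hit C M H t W).Nonempty ∧
        mass C M (fun h => h ∈ hit C M H t W)
          ≤ mass C M (fun h => h ∩ H = t ∧ h ∉ hit C M H t W)))
        (V0.filter (fun t => (hit C M H t W).card < (hit C M H t {y}).card) ∪
          ((traces C H).filter (fun t => y ∉ L C M H t) ∪
            (traces C H).filter (fun t =>
              ¬ mass C M (fun h => h ∈ hit C M H t W)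
              ≤ mass C M (fun h => h ∩ H = t ∧ h ∉ hit C M H t W))))
    have h2 := hun (V0.filter (fun t => (hit C M H t W).card < (hit C M H t {y}).card))
          ((traces C H).filter (fun t => y ∉ L C M H t) ∪
            (traces C H).filter (fun t =>
              ¬ mass C M (fun h => h ∈ hit C M H t W)
              ≤ mass C M (fun h => h ∩ H = t ∧ h ∉ hit C M H t W)))
    have h3 := hun ((traces C H).filter (fun t => y ∉ L C M H t))
            ((traces C H).filter (fun t =>
              ¬ mass C M (fun h => h ∈ hit C M H t W)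
              ≤ mass C M (fun h => h ∩ H = t ∧ h ∉ hit C M H t W)))
    have h4 := herr y hy
    linarith
  · refine le_trans (Finset.sum_le_sum_of_subset_of_nonneg ?_ fun t _ _ => hβ t)
      (hst W' hW' hne)
    exact Finset.filter_subset_filter _ (Finset.filter_subset _ _)

end Pool.Agent.MPaa62e0T
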