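import Pool.Agent.Lib.MP_aa62e0_lcT.Defs

set_option autoImplicit false
set_option linter.unusedSectionVars false

open Finset
open scoped Classical

namespace Pool.Agent.MPaa62e0T

variable {X : Type} [Fintype X] [DecidableEq X]

theorem halving_insert (g c S : Finset X) (x : X) :
    g ∩ insert x S = c ∩ insert x S ↔ g ∩ S = c ∩ S ∧ (x ∈ g ↔ x ∈ c) := by
  constructor
  · intro h
    refine ⟨?_, ?_⟩
    · ext y
      have h1 := Finset.ext_iff.1 h y
      simp only [Finset.mem_inter, Finset.mem_insert] at h1 ⊢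
      tauto
    · have h1 := Finset.ext_iff.1 h x
      simp only [Finset.mem_inter, Finset.mem_insert] at h1
      tauto
  · rintro ⟨h1, h2⟩
    ext y
    have h3 := Finset.ext_iff.1 h1 y
    simp only [Finset.mem_inter, Finset.mem_insert] at h3 ⊢
    by_cases hy : y = x
    · rw [hy]
      tauto
    · tauto

/-- LEAF F1 (halving).  `ℓ` a list (finset) of hypotheses (positive sets), target `c`, domain `A`;
every set of at most `m` points of `A` is classified as by `c` by some member of `ℓ`; `|ℓ| < 2^m`.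
Then for some `S ⊆ A`, `|S| ≤ m`, more than half of the members of `ℓ` which are right on `S` are right
at `x`, for every `x ∈ A`.  (Add a point where the strict majority fails: the number of members right on
`S` is at least halved, it is never 0 while `|S| ≤ m`, so this happens at most `m - 1` times.) -/
theorem halving (ℓ : Finset (Finset X)) (A c : Finset X) (m : ℕ) (hℓ : ℓ.card < 2 ^ m)
    (hgood : ∀ W ⊆ A, W.card ≤ m → ∃ g ∈ ℓ, g ∩ W = c ∩ W) :
    ∃ S ⊆ A, S.card ≤ m ∧ ∀ x ∈ A,
      (ℓ.filter (fun g => g ∩ S = c ∩ S)).card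
        < 2 * (ℓ.filter (fun g => g ∩ S = c ∩ S ∧ (x ∈ g ↔ x ∈ c))).card := by
  by_contra hcon
  have hstep : ∀ S ⊆ A, S.card ≤ m → ∃ x ∈ A,
      2 * (ℓ.filter (fun g => g ∩ S = c ∩ S ∧ (x ∈ g ↔ x ∈ c))).card ≤
        (ℓ.filter (fun g => g ∩ S = c ∩ S)).card := by
    intro S hS hSm
    by_contra h
    refine hcon ⟨S, hS, hSm, fun x hx => ?_⟩
    by_contra hx2
    exact h ⟨x, hx, not_lt.1 hx2⟩
  have key : ∀ t : ℕ, t ≤ m → ∃ S ⊆ A, S.card ≤ t ∧
      2 ^ t * (ℓ.filter (fun g => g ∩ S = c ∩ S)).card ≤ ℓ.card := by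
    intro t
    induction t with
    | zero =>
      intro _
      refine ⟨∅, Finset.empty_subset _, by simp, ?_⟩
      rw [pow_zero, one_mul]
      exact Finset.card_filter_le _ _
    | succ t ih =>
      intro ht
      obtain ⟨S, hS, hSt, hN⟩ := ih (by omega)
      obtain ⟨x, hx, hle⟩ := hstep S hS (by omega)
      refine ⟨insert x S, Finset.insert_subset hx hS, (Finset.card_insert_le _ _).trans
        (by omega), ?_⟩
      have h1 : (ℓ.filter (fun g => g ∩ insert x S = c ∩ insert x S)) =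
          ℓ.filter (fun g => g ∩ S = c ∩ S ∧ (x ∈ g ↔ x ∈ c)) := by
        refine Finset.filter_congr fun g _ => ?_
        exact halving_insert g c S x
      rw [h1, pow_succ, mul_assoc]
      exact (Nat.mul_le_mul_left _ hle).trans hN
  obtain ⟨S, hS, hSm, hN⟩ := key m le_rfl
  obtain ⟨g, hg, hgS⟩ := hgood S hS hSm
  have h1 : 0 < (ℓ.filter (fun g => g ∩ S = c ∩ S)).card :=
    Finset.card_pos.2 ⟨g, Finset.mem_filter.2 ⟨hg, hgS⟩⟩
  have h2 : 2 ^ m * 1 ≤ 2 ^ m * (ℓ.filter (fun g => g ∩ S = c ∩ S)).card :=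
    Nat.mul_le_mul_left _ h1
  omega

end Pool.Agent.MPaa62e0T
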