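import Pool.Agent.Lib.MP_aa62e0_lcT.Step
import Pool.Agent.Lib.MP_aa62e0_lcT.EntUp

set_option autoImplicit false
set_option linter.unusedSectionVars false

open Finset
open scoped Classical

namespace Pool.Agent.MPaa62e0T

variable {α : Type} [Fintype α] [DecidableEq α]

/-- The states of the iteration. -/
def iter_St (C : Finset (Finset α)) (θ τ : ℝ) (K j f : ℕ) : Prop :=
  ∃ (H : Finset α) (M : Finset α → ℝ), H.card ≤ j * K + f ∧ IsProb C M ∧
    (∀ y ∈ Z C H, mass C M (fun h => y ∈ h) ≤ j * θ) ∧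
    j * (Real.log 2 / 32) + f * (Real.log 2 * τ) ≤ Ent C M H

theorem iter_mass_le_one {C : Finset (Finset α)} {M : Finset α → ℝ} (hM : IsProb C M)
    (P : Finset α → Prop) : mass C M P ≤ 1 := by
  rw [← hM.2]
  unfold mass
  exact Finset.sum_le_sum_of_subset_of_nonneg (Finset.filter_subset _ _) fun h _ _ => hM.1 h

theorem iter_ent_nonneg {C : Finset (Finset α)} {M : Finset α → ℝ} (hM : IsProb C M)
    (H : Finset α) : 0 ≤ Ent C M H :=
  Finset.sum_nonneg fun _ _ => Real.negMulLog_nonneg (mass_nonneg hM.1 _) (iter_mass_le_one hM _)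

theorem iter_mass_zero {C : Finset (Finset α)} {M : Finset α → ℝ} (P : Finset α → Prop)
    (h : ∀ x ∈ C, P x → M x = 0) : mass C M P = 0 := by
  unfold mass
  refine Finset.sum_eq_zero fun x hx => ?_
  rw [Finset.mem_filter] at hx
  exact h x hx.1 hx.2

/-- The first state. -/
theorem iter_start (C : Finset (Finset α)) (hC : ∅ ∈ C) (θ τ : ℝ) (K : ℕ) :
    iter_St C θ τ K 0 0 := by
  have hP : IsProb C (fun h : Finset α => if h = ∅ then (1 : ℝ) else 0) := by
    refine ⟨fun h => ?_, ?_⟩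
    · change 0 ≤ if h = ∅ then (1 : ℝ) else 0
      split_ifs
      · exact zero_le_one
      · exact le_rfl
    · rw [Finset.sum_ite_eq' C ∅ (fun _ => (1 : ℝ)), if_pos hC]
  refine ⟨∅, _, by simp, hP, fun y _ => ?_, ?_⟩
  · have h0 : mass C (fun h : Finset α => if h = ∅ then (1 : ℝ) else 0) (fun h => y ∈ h) = 0 := by
      refine iter_mass_zero _ fun h _ hh => ?_
      rw [if_neg]
      intro h1
      rw [h1] at hh
      exact absurd hh (Finset.notMem_empty y)
    rw [h0]
    simp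
  · have h1 := iter_ent_nonneg hP ∅
    simpa using h1

theorem iter_Z_mono {C : Finset (Finset α)} {H H' : Finset α} (h : H ⊆ H') {y : α}
    (hy : y ∈ Z C H') : y ∈ Z C H :=
  mem_Z.2 ((mem_Z.1 hy).mono h)

/-- One step of the iteration. -/
theorem iter_step (C : Finset (Finset α)) (d : ℕ) (hd : C.vcDim ≤ d)
    (θ τ : ℝ) (J K m j f : ℕ) (hK : 160 ≤ K)
    (hτ : K * τ ≤ 1 / 16) (hτθ : τ ≤ θ) (hθ : 0 < θ) (hθ1 : J * θ ≤ 1 / 16)
    (hJ : 1 ≤ J) (hj : j < J)
    (hm1 : 8 ≤ θ * m) (hm : 4 * (2 * (m : ℝ) + 1) ^ d ≤ (2 : ℝ) ^ (θ * m / 2))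
    (hKm : 10 * (m : ℝ) / K < θ / 2)
    (hZ : ∀ H : Finset α, H.card ≤ j * K + f → (Z C H).Nonempty)
    (hS : iter_St C θ τ K j f) :
    iter_St C θ τ K j (f + 1) ∨ iter_St C θ τ K (j + 1) f := by
  obtain ⟨H, M, hH, hM, herr, hent⟩ := hS
  have hZH := hZ H hH
  by_cases hfree : ∃ y ∈ Z C H, τ < unc C M H y
  · obtain ⟨y, -, hy⟩ := hfree
    left
    refine ⟨insert y H, M, ?_, hM, fun z hz => herr z (iter_Z_mono (Finset.subset_insert y H) hz),
      ?_⟩
    · have := Finset.card_insert_le y H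
      omega
    · have h1 := free_step C M hM H y τ hy
      push_cast
      linarith
  · right
    have hfree' : ∀ y ∈ Z C H, unc C M H y ≤ τ := by
      intro y hy
      by_contra h
      exact hfree ⟨y, hy, not_le.1 h⟩
    have hJ1 : (1 : ℝ) ≤ J := by exact_mod_cast hJ
    have hjJ : (j : ℝ) ≤ J := by exact_mod_cast hj.le
    have he : (j : ℝ) * θ ≤ 1 / 16 := (mul_le_mul_of_nonneg_right hjJ hθ.le).trans hθ1
    have hθ2 : θ ≤ 1 := by
      have h1 : 1 * θ ≤ J * θ := mul_le_mul_of_nonneg_right hJ1 hθ.le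
      linarith
    obtain ⟨W, hW, M', hM', herr', hent'⟩ := main_step C d hd M hM H (j * θ) τ θ K m hZH herr
      hfree' he hK hτ hθ hθ2 hm1 hm hKm
    refine ⟨H ∪ W, M', ?_, hM', fun z hz => ?_, ?_⟩
    · have h1 := Finset.card_union_le H W
      have h2 : (j + 1) * K + f = (j * K + f) + K := by ring
      omega
    · refine (herr' z hz).trans ?_
      push_cast
      linarith
    · push_cast
      linarith

/-- LEAF D (iteration).  Suppose every `H` with `|H| ≤ n` has a killer.  Claim by induction: as long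
as `j ≤ J`, `f ≤ F`: state `(j, f)` = some `H`, `M` with `|H| ≤ jK + f`, `IsProb C M`, error `≤ jθ` on
`Z C H`, `Ent C M H ≥ j log2/32 + f τ log 2`.  Start: `H = ∅`, `M` = indicator of `∅ ∈ C`.  By
`ent_bound` and `hE1`, `hE2` always `j < J` and `f < F`, so `|H| + K ≤ n` and the next step is
possible: `free_step` (f+1) if some killer has `unc > τ`, `main_step` (j+1) otherwise (`jθ ≤ 1/16`,
`(3θ+τ)/4 ≤ θ`).  So `j + f` is unbounded: contradiction. -/
theorem teach_param (C : Finset (Finset α)) (hC : ∅ ∈ C) (d : ℕ) (hd : C.vcDim ≤ d)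
    (θ τ : ℝ) (J F K m n : ℕ) (hn : n = J * K + F) (hK : 160 ≤ K)
    (hτ0 : 0 < τ) (hτ : K * τ ≤ 1 / 16) (hτθ : τ ≤ θ) (hθ : 0 < θ) (hθ1 : J * θ ≤ 1 / 16)
    (hJ : 1 ≤ J)
    (hm1 : 8 ≤ θ * m) (hm : 4 * (2 * (m : ℝ) + 1) ^ d ≤ (2 : ℝ) ^ (θ * m / 2))
    (hKm : 10 * (m : ℝ) / K < θ / 2)
    (hE1 : d * Real.log (n + 1) < J * (Real.log 2 / 32))
    (hE2 : d * Real.log (n + 1) < F * (Real.log 2 * τ)) :
    ∃ H : Finset α, H.card ≤ n ∧ ∀ z, ¬ Kills C H z := by
  by_contra hcon
  have hkill : ∀ H : Finset α, H.card ≤ n → (Z C H).Nonempty := by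
    intro H hH
    by_contra h
    refine hcon ⟨H, hH, fun z hz => h ⟨z, mem_Z.2 hz⟩⟩
  have hlog : (0 : ℝ) ≤ d * Real.log (n + 1) :=
    mul_nonneg (Nat.cast_nonneg d) (Real.log_nonneg (by
      have : (0 : ℝ) ≤ n := Nat.cast_nonneg n
      linarith))
  have hl2 : 0 < Real.log 2 := Real.log_pos (by norm_num)
  have hlτ : 0 < Real.log 2 * τ := mul_pos hl2 hτ0
  have hF : 0 < F := by
    rcases Nat.eq_zero_or_pos F with h | h
    · rw [h] at hE2
      simp only [Nat.cast_zero, zero_mul] at hE2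
      linarith
    · exact h
  -- the counters of a state are bounded
  have hbd : ∀ j f : ℕ, j * K + f ≤ n → iter_St C θ τ K j f → j < J ∧ f < F := by
    intro j f hjf hS
    obtain ⟨H, M, hH, hM, -, hent⟩ := hS
    have h1 := ent_bound C M hM d hd H
    have h2 : Real.log (H.card + 1) ≤ Real.log (n + 1) := by
      apply Real.log_le_log
      · positivity
      · have : (H.card : ℝ) ≤ n := by exact_mod_cast hH.trans hjf
        linarith
    have h3 : (d : ℝ) * Real.log (H.card + 1) ≤ d * Real.log (n + 1) :=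
      mul_le_mul_of_nonneg_left h2 (Nat.cast_nonneg d)
    have h4 : (0 : ℝ) ≤ j * (Real.log 2 / 32) := by positivity
    have h5 : (0 : ℝ) ≤ f * (Real.log 2 * τ) := mul_nonneg (Nat.cast_nonneg f) hlτ.le
    constructor
    · have h6 : (j : ℝ) * (Real.log 2 / 32) < J * (Real.log 2 / 32) := by linarith
      have h7 : (j : ℝ) < J := lt_of_mul_lt_mul_right h6 (by positivity)
      exact_mod_cast h7
    · have h6 : (f : ℝ) * (Real.log 2 * τ) < F * (Real.log 2 * τ) := by linarith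
      have h7 : (f : ℝ) < F := lt_of_mul_lt_mul_right h6 hlτ.le
      exact_mod_cast h7
  have hall : ∀ N : ℕ, ∃ j f : ℕ, j + f = N ∧ j < J ∧ f < F ∧ iter_St C θ τ K j f := by
    intro N
    induction N with
    | zero => exact ⟨0, 0, rfl, by omega, hF, iter_start C hC θ τ K⟩
    | succ N ih =>
      obtain ⟨j, f, hN, hj, hf, hS⟩ := ih
      have hjK : (j + 1) * K ≤ J * K := Nat.mul_le_mul_right K hj
      have hjK' : (j + 1) * K = j * K + K := by ring
      have hn1 : j * K + f + K + 1 ≤ n := by omega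
      rcases iter_step C d hd θ τ J K m j f hK hτ hτθ hθ hθ1 hJ hj hm1 hm hKm
        (fun H hH => hkill H (by omega)) hS with h | h
      · obtain ⟨h1, h2⟩ := hbd j (f + 1) (by omega) h
        exact ⟨j, f + 1, by omega, h1, h2, h⟩
      · obtain ⟨h1, h2⟩ := hbd (j + 1) f (by omega) h
        exact ⟨j + 1, f, by omega, h1, h2, h⟩
  obtain ⟨j, f, hN, hj, hf, -⟩ := hall (J + F)
  omega

end Pool.Agent.MPaa62e0T
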