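import Pool.Agent.Lib.MP_aa62e0_lcT.Basic
import Pool.Agent.Lib.MP_aa62e0_lc.Minimax

set_option autoImplicit false
set_option linter.unusedSectionVars false

open Finset
open scoped Classical

namespace Pool.Agent.MPaa62e0T

variable {α : Type} [Fintype α] [DecidableEq α]

/-- Auxiliary: the measure putting mass `β t` on the selected member `σ t`. -/
noncomputable def kernelN (β : Finset α → ℝ) (V : Finset (Finset α))
    (σ : Finset α → Finset α) : Finset α → ℝ :=
  fun h => ∑ t ∈ V, if σ t = h then β t else 0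

theorem kernel_aux_sum {C : Finset (Finset α)} {M : Finset α → ℝ} {H W : Finset α}
    {V : Finset (Finset α)} {σ : Finset α → Finset α} {β : Finset α → ℝ}
    (hσ : ∀ t ∈ V, σ t ∈ hit C M H t W) {t : Finset α} (ht : t ∈ V) (P : Finset α → Prop)
    [DecidablePred P] :
    ∑ h ∈ (hit C M H t W).filter (fun h => P h), kernelN β V σ h
      = if P (σ t) then β t else 0 := by
  unfold kernelN
  rw [Finset.sum_comm, Finset.sum_eq_single t]
  · rw [Finset.sum_ite_eq]
    by_cases hP : P (σ t)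
    · rw [if_pos (Finset.mem_filter.2 ⟨hσ t ht, hP⟩), if_pos hP]
    · rw [if_neg (fun hh => hP (Finset.mem_filter.1 hh).2), if_neg hP]
  · intro t' ht' hne
    refine Finset.sum_eq_zero fun h hh => if_neg ?_
    rintro rfl
    have h1 := (mem_hit.1 (Finset.mem_filter.1 hh).1).1.2
    have h2 := (mem_hit.1 (hσ t' ht')).1.2
    exact hne (h2.symm.trans h1)
  · intro h
    exact absurd ht h

theorem kernel_aux_sum' {C : Finset (Finset α)} {M : Finset α → ℝ} {H W : Finset α}
    {V : Finset (Finset α)} {σ : Finset α → Finset α} {β : Finset α → ℝ}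
    (hσ : ∀ t ∈ V, σ t ∈ hit C M H t W) {t : Finset α} (ht : t ∈ V) :
    ∑ h ∈ hit C M H t W, kernelN β V σ h = β t := by
  have h := kernel_aux_sum (β := β) hσ ht (fun _ => True)
  rwa [Finset.filter_true_of_mem (fun _ _ => trivial), if_pos trivial] at h

/-- Auxiliary: the linear map of the minimax argument. -/
noncomputable def kernelU (C : Finset (Finset α)) (M : Finset α → ℝ) (H W : Finset α)
    (V : Finset (Finset α)) :
    (Finset α → ℝ) →ₗ[ℝ] ({y : α // Kills C (H ∪ W) y} → ℝ) where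
  toFun N := fun y => - ∑ t ∈ V.filter (fun t => (y : α) ∈ L C M H t),
          ∑ h ∈ (hit C M H t W).filter (fun h => (y : α) ∈ h), N h
  map_add' := by
    intro N N'
    funext y
    simp only [Pi.add_apply, Finset.sum_add_distrib]
    ring
  map_smul' := by
    intro c N
    funext y
    simp only [Pi.smul_apply, smul_eq_mul, RingHom.id_apply, ← Finset.mul_sum]
    ring

theorem kernel_aux_q {C : Finset (Finset α)} {M : Finset α → ℝ} {H W : Finset α}
    {V : Finset (Finset α)} {σ : Finset α → Finset α} {β : Finset α → ℝ}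
    (hσ : ∀ t ∈ V, σ t ∈ hit C M H t W) (q : {y : α // Kills C (H ∪ W) y} → ℝ)
    (D : α → ℝ) (hD : ∀ y : {y : α // Kills C (H ∪ W) y}, D y = q y)
    (hD0 : ∀ x, ¬ Kills C (H ∪ W) x → D x = 0) :
    ∑ y, q y * kernelU C M H W V (kernelN β V σ) y
      = - ∑ t ∈ V, β t * ∑ x ∈ σ t ∩ L C M H t, D x := by
  have h1 : ∀ y : {y : α // Kills C (H ∪ W) y},
      q y * kernelU C M H W V (kernelN β V σ) y
        = (fun x => - ∑ t ∈ V, if x ∈ σ t ∩ L C M H t then β t * D x else 0) (y : α) := by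
    intro y
    show q y * (- ∑ t ∈ V.filter (fun t => (y : α) ∈ L C M H t),
          ∑ h ∈ (hit C M H t W).filter (fun h => (y : α) ∈ h), kernelN β V σ h) = _
    rw [Finset.sum_congr rfl (fun t ht =>
      kernel_aux_sum (β := β) hσ (Finset.mem_filter.1 ht).1 (fun h => (y : α) ∈ h))]
    rw [Finset.sum_filter, mul_neg, Finset.mul_sum, ← hD y]
    refine congrArg Neg.neg (Finset.sum_congr rfl fun t _ => ?_)
    by_cases h1 : (y : α) ∈ L C M H t
    · by_cases h2 : (y : α) ∈ σ t
      · rw [if_pos h1, if_pos h2, if_pos (Finset.mem_inter.2 ⟨h2, h1⟩), mul_comm]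
      · rw [if_pos h1, if_neg h2, if_neg (fun hh => h2 (Finset.mem_inter.1 hh).1), mul_zero]
    · rw [if_neg h1, if_neg (fun hh => h1 (Finset.mem_inter.1 hh).2), mul_zero]
  rw [Finset.sum_congr rfl (fun y _ => h1 y)]
  have h2 : ∑ y : {y : α // Kills C (H ∪ W) y},
      (fun x => - ∑ t ∈ V, if x ∈ σ t ∩ L C M H t then β t * D x else 0) (y : α)
      = ∑ x : α, - ∑ t ∈ V, if x ∈ σ t ∩ L C M H t then β t * D x else 0 := by
    rw [← Finset.sum_subtype (Finset.univ.filter (fun x => Kills C (H ∪ W) x))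
      (by intro x; simp) (fun x => - ∑ t ∈ V, if x ∈ σ t ∩ L C M H t then β t * D x else 0)]
    refine Finset.sum_subset (Finset.filter_subset _ _) ?_
    intro x _ hx
    have hx' : ¬ Kills C (H ∪ W) x := fun h => hx (Finset.mem_filter.2 ⟨Finset.mem_univ _, h⟩)
    rw [neg_eq_zero]
    refine Finset.sum_eq_zero fun t _ => ?_
    rw [hD0 x hx', mul_zero, ite_self]
  rw [h2, Finset.sum_neg_distrib, Finset.sum_comm]
  refine congrArg Neg.neg (Finset.sum_congr rfl fun t _ => ?_)
  rw [Finset.mul_sum, ← Finset.sum_filter]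
  refine Finset.sum_congr ?_ (fun _ _ => rfl)
  ext x
  simp

/-- LEAF C3 (kernel; minimax).  From the selectors: a sub-measure `N` on `C`, living on the sets
`hit t W` (`t ∈ V`), with the same mass of each trace `t ∈ V` as `M`, and with extra pointwise error
at most `3θ` on the killers of `H ∪ W`.  Use `Pool.Agent.MPaa62e0.minimax` with
`ι = {y // Kills C (H ∪ W) y}`, `E = Finset α → ℝ`, the convex set of all such `N`,
`u N y = - ∑_{t ∈ V, y ∈ L t} ∑_{h ∈ hit t W, y ∈ h} N h`, `s = -2θ`, `s' = -3θ`; for `q` take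
`N = ∑_t β t δ_(σ t)` with `σ` from `hsel` for `D = q / ∑ q` (if `∑ q = 0` any selector works). -/
theorem kernel (C : Finset (Finset α)) (M : Finset α → ℝ)
    (hM : IsProb C M) (H W : Finset α) (V : Finset (Finset α)) (hV : V ⊆ traces C H)
    (hne : ∀ t ∈ V, (hit C M H t W).Nonempty) (θ : ℝ) (hθ : 0 < θ)
    (hsel : ∀ D : α → ℝ, (∀ x, 0 ≤ D x) → ∑ x, D x = 1 →
      (∀ x, D x ≠ 0 → Kills C (H ∪ W) x) →
      ∃ σ : Finset α → Finset α, (∀ t ∈ V, σ t ∈ hit C M H t W) ∧
      ∑ t ∈ V, mass C M (fun h => h ∩ H = t) * ∑ x ∈ σ t ∩ L C M H t, D x ≤ 2 * θ) :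
    ∃ N : Finset α → ℝ, (∀ h, 0 ≤ N h) ∧
      (∀ t ∈ V, ∑ h ∈ hit C M H t W, N h = mass C M (fun h => h ∩ H = t)) ∧
      (∀ h, N h ≠ 0 → ∃ t ∈ V, h ∈ hit C M H t W) ∧
      ∀ y, Kills C (H ∪ W) y →
        ∑ t ∈ V.filter (fun t => y ∈ L C M H t),
          ∑ h ∈ (hit C M H t W).filter (fun h => y ∈ h), N h ≤ 3 * θ := by
  have hmass : ∀ t, 0 ≤ mass C M (fun h => h ∩ H = t) := fun t => mass_nonneg hM.1 _
  set S : Set (Finset α → ℝ) := {N | (∀ h, 0 ≤ N h) ∧
      (∀ t ∈ V, ∑ h ∈ hit C M H t W, N h = mass C M (fun h => h ∩ H = t)) ∧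
      (∀ h, N h ≠ 0 → ∃ t ∈ V, h ∈ hit C M H t W)} with hS
  have hmem : ∀ σ : Finset α → Finset α, (∀ t ∈ V, σ t ∈ hit C M H t W) →
      kernelN (fun t => mass C M (fun h => h ∩ H = t)) V σ ∈ S := by
    intro σ hσ
    refine ⟨?_, ?_, ?_⟩
    · intro h
      refine Finset.sum_nonneg fun t _ => ?_
      by_cases h1 : σ t = h
      · rw [if_pos h1]; exact hmass t
      · rw [if_neg h1]
    · intro t ht
      exact kernel_aux_sum' (β := fun t => mass C M (fun h => h ∩ H = t)) hσ ht
    · intro h hh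
      obtain ⟨t, ht, htne⟩ := Finset.exists_ne_zero_of_sum_ne_zero hh
      by_cases h1 : σ t = h
      · exact ⟨t, ht, h1 ▸ hσ t ht⟩
      · exact absurd (if_neg h1) htne
  have hconv : Convex ℝ S := by
    intro N hN N' hN' a b ha hb hab
    refine ⟨?_, ?_, ?_⟩
    · intro h
      have h1 := mul_nonneg ha (hN.1 h)
      have h2 := mul_nonneg hb (hN'.1 h)
      show 0 ≤ a * N h + b * N' h
      linarith
    · intro t ht
      show ∑ h ∈ hit C M H t W, (a * N h + b * N' h) = _
      rw [Finset.sum_add_distrib, ← Finset.mul_sum, ← Finset.mul_sum, hN.2.1 t ht,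
        hN'.2.1 t ht, ← add_mul, hab, one_mul]
    · intro h hh
      by_cases h1 : N h = 0
      · by_cases h2 : N' h = 0
        · exfalso
          apply hh
          show a * N h + b * N' h = 0
          rw [h1, h2]; ring
        · exact hN'.2.2 h h2
      · exact hN.2.2 h h1
  obtain ⟨N, hN, hNu⟩ := Pool.Agent.MPaa62e0.minimax S hconv (kernelU C M H W V) (-(2 * θ)) (by
    intro q hq
    by_cases hQ : ∑ i, q i = 0
    · have hq0 : ∀ i, q i = 0 := fun i =>
        (Finset.sum_eq_zero_iff_of_nonneg (fun j _ => hq j)).1 hQ i (Finset.mem_univ i)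
      have hch : ∃ σ : Finset α → Finset α, ∀ t ∈ V, σ t ∈ hit C M H t W := by
        refine ⟨fun t => if h : (hit C M H t W).Nonempty then h.choose else ∅, ?_⟩
        intro t ht
        simp only [dif_pos (hne t ht)]
        exact (hne t ht).choose_spec
      obtain ⟨σ, hσ⟩ := hch
      refine ⟨_, hmem σ hσ, ?_⟩
      rw [hQ, mul_zero]
      exact le_of_eq (Finset.sum_eq_zero fun i _ => by rw [hq0 i, zero_mul]).symm
    · have hQ0 : 0 ≤ ∑ i, q i := Finset.sum_nonneg fun i _ => hq i
      have hQp : 0 < ∑ i, q i := lt_of_le_of_ne hQ0 (Ne.symm hQ)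
      set Q := ∑ i, q i with hQdef
      set E : α → ℝ := fun x => if hx : Kills C (H ∪ W) x then q ⟨x, hx⟩ else 0 with hE
      have hE1 : ∀ y : {y : α // Kills C (H ∪ W) y}, E y = q y := by
        intro y
        simp only [hE, dif_pos y.2]
      have hE0 : ∀ x, ¬ Kills C (H ∪ W) x → E x = 0 := by
        intro x hx
        simp only [hE, dif_neg hx]
      have hEn : ∀ x, 0 ≤ E x := by
        intro x
        by_cases hx : Kills C (H ∪ W) x
        · simp only [hE, dif_pos hx]; exact hq _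
        · rw [hE0 x hx]
      have hEs : ∑ x, E x = Q := by
        rw [hQdef, ← Finset.sum_congr rfl (fun y _ => hE1 y),
          ← Finset.sum_subtype (Finset.univ.filter (fun x => Kills C (H ∪ W) x))
          (by intro x; simp) E]
        refine (Finset.sum_subset (Finset.filter_subset _ _) ?_).symm
        intro x _ hx
        exact hE0 x (fun h => hx (Finset.mem_filter.2 ⟨Finset.mem_univ _, h⟩))
      obtain ⟨σ, hσ, hσ2⟩ := hsel (fun x => E x / Q)
        (fun x => div_nonneg (hEn x) hQ0)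
        (by rw [← Finset.sum_div, hEs, div_self hQ])
        (by
          intro x hx
          by_contra hk
          apply hx
          show E x / Q = 0
          rw [hE0 x hk, zero_div])
      refine ⟨_, hmem σ hσ, ?_⟩
      rw [kernel_aux_q hσ q E hE1 hE0]
      have h3 : ∑ t ∈ V, mass C M (fun h => h ∩ H = t) * ∑ x ∈ σ t ∩ L C M H t, E x / Q
          = (∑ t ∈ V, mass C M (fun h => h ∩ H = t) * ∑ x ∈ σ t ∩ L C M H t, E x) / Q := by
        rw [Finset.sum_div]
        refine Finset.sum_congr rfl fun t _ => ?_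
        rw [← Finset.sum_div, mul_div_assoc]
      have h4 := hσ2
      rw [h3, div_le_iff₀ hQp] at h4
      have h5 : -(2 * θ) * Q = -(2 * θ * Q) := by ring
      rw [h5]
      exact neg_le_neg h4) (-(3 * θ)) (by linarith)
  refine ⟨N, hN.1, hN.2.1, hN.2.2, ?_⟩
  intro y hy
  have h := hNu ⟨y, hy⟩
  have h' : -(3 * θ) < - ∑ t ∈ V.filter (fun t => y ∈ L C M H t),
          ∑ h ∈ (hit C M H t W).filter (fun h => y ∈ h), N h := h
  linarith

end Pool.Agent.MPaa62e0T
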