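import Pool.Agent.Lib.MP_aa62e0_lcT.UnionSample
import Pool.Agent.Lib.MP_aa62e0_lc.Minimax

set_option autoImplicit false
set_option linter.unusedSectionVars false

open Finset
open scoped Classical

namespace Pool.Agent.MPaa62e0T

variable {α : Type} [Fintype α] [DecidableEq α]

/-- the mixed strategies of the defender -/
def LotteryStrat (Y : Finset α) (K : ℕ) : Set (Finset α → ℝ) :=
  {Λ | (∀ W, 0 ≤ Λ W) ∧ (∀ W, Λ W ≠ 0 → W ⊆ Y ∧ W.card ≤ K) ∧ ∑ W, Λ W = 1}

theorem lottery_convex (Y : Finset α) (K : ℕ) : Convex ℝ (LotteryStrat Y K) := by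
  intro a ha b hb p q hp hq hpq
  refine ⟨fun W => ?_, fun W hW => ?_, ?_⟩
  · have h1 := mul_nonneg hp (ha.1 W)
    have h2 := mul_nonneg hq (hb.1 W)
    simp only [Pi.add_apply, Pi.smul_apply, smul_eq_mul]
    linarith
  · by_contra hcon
    have h1 : a W = 0 := by
      by_contra h
      exact hcon (ha.2.1 W h)
    have h2 : b W = 0 := by
      by_contra h
      exact hcon (hb.2.1 W h)
    apply hW
    simp only [Pi.add_apply, Pi.smul_apply, smul_eq_mul, h1, h2, mul_zero, add_zero]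
  · simp only [Pi.add_apply, Pi.smul_apply, smul_eq_mul]
    rw [Finset.sum_add_distrib, ← Finset.mul_sum, ← Finset.mul_sum, ha.2.2, hb.2.2]
    linarith

theorem lottery_single (Y : Finset α) (K : ℕ) (U : Finset α) (h1 : U ⊆ Y) (h2 : U.card ≤ K) :
    (fun W => if W = U then (1 : ℝ) else 0) ∈ LotteryStrat Y K := by
  refine ⟨fun W => ?_, fun W hW => ?_, ?_⟩
  · change (0 : ℝ) ≤ if W = U then (1 : ℝ) else 0
    split_ifs <;> norm_num
  · have h : W = U := by
      by_contra h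
      exact hW (if_neg h)
    rw [h]
    exact ⟨h1, h2⟩
  · change ∑ W, (if W = U then (1 : ℝ) else 0) = 1
    simp

/-- The defender's answer to one mixed strategy of the attacker. -/
theorem lottery_answer {τ : Type} (T : Finset τ) (β : τ → ℝ) (hβ : ∀ t, 0 ≤ β t)
    (hβ1 : ∑ t ∈ T, β t = 1) (Y : Finset α) (K : ℕ) (hK : 1 ≤ K)
    (s : τ → Finset α → ℕ) (hs : ∀ t, ∀ W W' : Finset α, W ⊆ W' → s t W ≤ s t W')
    (q : {W' : Finset α // W' ⊆ Y ∧ W'.Nonempty} → ℝ) (hq : ∀ i, 0 ≤ q i) :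
    ∃ U : Finset α, U ⊆ Y ∧ U.card ≤ K ∧
      ∑ i, q i * ((∑ t ∈ T.filter (fun t => s t U < s t i.1), β t) / (i.1.card : ℝ)) ≤
        4 / K * ∑ i, q i := by
  have hKR : (0 : ℝ) < K := by exact_mod_cast hK
  have hc : ∀ i : {W' : Finset α // W' ⊆ Y ∧ W'.Nonempty}, (0 : ℝ) < i.1.card := by
    intro i
    exact_mod_cast i.2.2.card_pos
  set Q : ℝ := ∑ i, q i with hQ
  have hQ0 : 0 ≤ Q := Finset.sum_nonneg fun i _ => hq i
  rcases hQ0.eq_or_lt with h0 | h0
  · have hz : ∀ i, q i = 0 := by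
      intro i
      exact (Finset.sum_eq_zero_iff_of_nonneg (fun i _ => hq i)).1 h0.symm i (Finset.mem_univ i)
    refine ⟨∅, Finset.empty_subset _, by simp, ?_⟩
    rw [Finset.sum_eq_zero fun i _ => by rw [hz i, zero_mul], ← h0, mul_zero]
  · set S : ℝ := ∑ i, q i / (i.1.card : ℝ) with hS
    have hS0 : 0 < S := by
      have h1 : ∃ i, q i ≠ 0 := by
        by_contra hcon
        push Not at hcon
        rw [hQ, Finset.sum_eq_zero fun i _ => hcon i] at h0
        exact lt_irrefl _ h0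
      obtain ⟨i, hi⟩ := h1
      have h2 : 0 < q i / (i.1.card : ℝ) := div_pos (lt_of_le_of_ne (hq i) (Ne.symm hi)) (hc i)
      exact lt_of_lt_of_le h2 (Finset.single_le_sum
        (f := fun i : {W' : Finset α // W' ⊆ Y ∧ W'.Nonempty} => q i / (i.1.card : ℝ))
        (fun j _ => div_nonneg (hq j) (hc j).le) (Finset.mem_univ i))
    set x : {W' : Finset α // W' ⊆ Y ∧ W'.Nonempty} → ℝ :=
      fun i => q i / (i.1.card : ℝ) / S with hx
    have hx0 : ∀ i, 0 ≤ x i := fun i => div_nonneg (div_nonneg (hq i) (hc i).le) hS0.le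
    have hx1 : ∑ i, x i = 1 := by
      rw [hx]
      change ∑ i : {W' : Finset α // W' ⊆ Y ∧ W'.Nonempty}, q i / (i.1.card : ℝ) / S = 1
      rw [← Finset.sum_div]
      exact div_self hS0.ne'
    have hx2 : ∑ i, x i * (i.1.card : ℝ) = Q / S := by
      rw [hQ, Finset.sum_div]
      refine Finset.sum_congr rfl fun i _ => ?_
      rw [hx]
      change q i / (i.1.card : ℝ) / S * (i.1.card : ℝ) = q i / S
      have := (hc i).ne'
      field_simp
    set r : ℕ := ⌊(K : ℝ) * S / (2 * Q)⌋₊ with hr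
    have hr1 : (r : ℝ) ≤ K * S / (2 * Q) := Nat.floor_le (by positivity)
    have hr2 : (K : ℝ) * S / (2 * Q) < r + 1 := Nat.lt_floor_add_one _
    have hr3 : 2 * ((r : ℝ) * ∑ i, x i * (i.1.card : ℝ)) ≤ K := by
      rw [hx2]
      have h1 : 2 * ((r : ℝ) * (Q / S)) ≤ 2 * ((K * S / (2 * Q)) * (Q / S)) := by
        have h2 : 0 ≤ Q / S := by positivity
        have h3 := mul_le_mul_of_nonneg_right hr1 h2
        linarith
      have h4 : 2 * ((K * S / (2 * Q)) * (Q / S)) = K := by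
        field_simp
      linarith
    obtain ⟨w, w1, w2, w3⟩ := union_sample T β hβ hβ1
      (fun i : {W' : Finset α // W' ⊆ Y ∧ W'.Nonempty} => i.1) x hx0 hx1 s hs r K hr3
    refine ⟨Finset.univ.biUnion (fun j => (w j).1), ?_, w2, ?_⟩
    · intro y hy
      rw [Finset.mem_biUnion] at hy
      obtain ⟨j, _, hj⟩ := hy
      exact (w j).2.1 hj
    · have h1 : ∑ i, q i * ((∑ t ∈ T.filter (fun t =>
          s t (Finset.univ.biUnion (fun j => (w j).1)) < s t i.1), β t) / (i.1.card : ℝ)) =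
          S * ∑ i, x i * ∑ t ∈ T.filter (fun t =>
          s t (Finset.univ.biUnion (fun j => (w j).1)) < s t i.1), β t := by
        rw [Finset.mul_sum]
        refine Finset.sum_congr rfl fun i _ => ?_
        rw [hx]
        change _ = S * (q i / (i.1.card : ℝ) / S * _)
        have h2 := (hc i).ne'
        have h3 := hS0.ne'
        field_simp
      rw [h1]
      have h2 : S * ∑ i, x i * ∑ t ∈ T.filter (fun t =>
          s t (Finset.univ.biUnion (fun j => (w j).1)) < s t i.1), β t ≤ S * (2 / (r + 1)) :=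
        mul_le_mul_of_nonneg_left w3 hS0.le
      refine h2.trans ?_
      have h3 : (0 : ℝ) < K * S / (2 * Q) := by positivity
      have h4 : 2 / ((r : ℝ) + 1) ≤ 2 / (K * S / (2 * Q)) := by
        refine div_le_div_of_nonneg_left (by norm_num) h3 hr2.le
      have h5 := mul_le_mul_of_nonneg_left h4 hS0.le
      refine h5.trans (le_of_eq ?_)
      field_simp
      ring

/-- LEAF B1 (stable lottery, Cheng-Jiang-Munagala-Wang; from B0 and the minimax lemma of
Pool/Agent/Lib/MP_aa62e0_lc/Minimax.lean).  Attacker mixes `W'` (1 ≤ |W'| ≤ K, W' ⊆ Y) with weight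
`q W'`; put `T = ∑ q W'/|W'|` (normalise ∑ q = 1), `x W' = q W'/(|W'| T)`, `r = ⌊K T/2⌋`: then
`r * E|W| = r/T ≤ K/2`, and the union `U` of B0 has
`∑ q W' (K/|W'|) β(s U < s W') = K T ∑ x W' β(..) ≤ K T * 2/(r+1) ≤ 4`.  For |W'| > K the bound is
trivial (5|W'|/K > 1). -/
theorem lottery {τ : Type} (T : Finset τ) (β : τ → ℝ) (hβ : ∀ t, 0 ≤ β t)
    (hβ1 : ∑ t ∈ T, β t = 1) (Y : Finset α) (K : ℕ) (hK : 1 ≤ K)
    (s : τ → Finset α → ℕ) (hs : ∀ t, ∀ W W' : Finset α, W ⊆ W' → s t W ≤ s t W') :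
    ∃ Λ : Finset α → ℝ, (∀ W, 0 ≤ Λ W) ∧ (∀ W, Λ W ≠ 0 → W ⊆ Y ∧ W.card ≤ K) ∧
      ∑ W, Λ W = 1 ∧
      ∀ W' : Finset α, W' ⊆ Y → W'.Nonempty →
        ∑ W, Λ W * ∑ t ∈ T.filter (fun t => s t W < s t W'), β t ≤ 5 * W'.card / K := by
  have hKR : (0 : ℝ) < K := by exact_mod_cast hK
  set u : (Finset α → ℝ) →ₗ[ℝ] ({W' : Finset α // W' ⊆ Y ∧ W'.Nonempty} → ℝ) :=
    { toFun := fun Λ i => -∑ W, Λ W *
        ((∑ t ∈ T.filter (fun t => s t W < s t i.1), β t) / (i.1.card : ℝ))
      map_add' := by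
        intro a b
        funext i
        simp only [Pi.add_apply]
        rw [← neg_add, ← Finset.sum_add_distrib]
        congr 1
        exact Finset.sum_congr rfl fun W _ => by ring
      map_smul' := by
        intro c a
        funext i
        simp only [Pi.smul_apply, smul_eq_mul, RingHom.id_apply]
        rw [mul_neg, Finset.mul_sum]
        congr 1
        exact Finset.sum_congr rfl fun W _ => by ring } with hu
  have hu1 : ∀ Λ i, u Λ i = -∑ W, Λ W *
        ((∑ t ∈ T.filter (fun t => s t W < s t i.1), β t) / (i.1.card : ℝ)) := fun _ _ => rfl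
  obtain ⟨Λ, hΛ, hΛ1⟩ := Pool.Agent.MPaa62e0.minimax (LotteryStrat Y K) (lottery_convex Y K) u
    (-(4 / K)) (by
      intro q hq
      obtain ⟨U, U1, U2, U3⟩ := lottery_answer T β hβ hβ1 Y K hK s hs q hq
      refine ⟨fun W => if W = U then (1 : ℝ) else 0, lottery_single Y K U U1 U2, ?_⟩
      have h1 : ∀ i, u (fun W => if W = U then (1 : ℝ) else 0) i =
          -((∑ t ∈ T.filter (fun t => s t U < s t i.1), β t) / (i.1.card : ℝ)) := by
        intro i
        rw [hu1]
        simp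
      have h2 : ∑ i, q i * u (fun W => if W = U then (1 : ℝ) else 0) i =
          -∑ i, q i * ((∑ t ∈ T.filter (fun t => s t U < s t i.1), β t) / (i.1.card : ℝ)) := by
        rw [← Finset.sum_neg_distrib]
        exact Finset.sum_congr rfl fun i _ => by rw [h1 i]; ring
      rw [h2]
      linarith) (-(5 / K)) (by
      have h1 : (4 : ℝ) / K < 5 / K := by
        rw [div_lt_div_iff_of_pos_right hKR]
        norm_num
      linarith)
  refine ⟨Λ, hΛ.1, hΛ.2.1, hΛ.2.2, fun W' h1 h2 => ?_⟩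
  have h3 := hΛ1 ⟨W', h1, h2⟩
  rw [hu1] at h3
  have hc : (0 : ℝ) < W'.card := by exact_mod_cast h2.card_pos
  have h4 : ∑ W, Λ W * ((∑ t ∈ T.filter (fun t => s t W < s t W'), β t) / (W'.card : ℝ)) =
      (∑ W, Λ W * ∑ t ∈ T.filter (fun t => s t W < s t W'), β t) / W'.card := by
    rw [Finset.sum_div]
    exact Finset.sum_congr rfl fun W _ => by rw [mul_div_assoc]
  have h5 : (∑ W, Λ W * ∑ t ∈ T.filter (fun t => s t W < s t W'), β t) / W'.card < 5 / K := by
    rw [← h4]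
    have h6 : (⟨W', h1, h2⟩ : {W' : Finset α // W' ⊆ Y ∧ W'.Nonempty}).1 = W' := rfl
    rw [h6] at h3
    linarith
  rw [div_lt_div_iff₀ hc hKR] at h5
  rw [le_div_iff₀ hKR]
  linarith

end Pool.Agent.MPaa62e0T
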