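import Pool.Agent.Lib.MP_aa62e0_lcT.Scheme
import Pool.Agent.Lib.MP_aa62e0_lcT.BlockNum
import Pool.Agent.Lib.MP_aa62e0_lcT.Advice

set_option autoImplicit false
set_option linter.unusedSectionVars false

open Finset
open scoped Classical

namespace Pool.Agent.MPaa62e0T

/-- Polynomial sample compression, in the form of the frozen statement, with `c * (d+1)^a` in place of
`c * d`. -/
theorem poly_scheme : ∃ c a : ℕ, ∀ (X : Type) [Fintype X] [DecidableEq X] (C : Finset (Finset X)),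
    ∃ κ : Finset (X × Bool) → Finset (X × Bool), ∃ ρ : Finset (X × Bool) → (X → Bool),
      ∀ S : Finset (X × Bool), (∃ A ∈ C, ∀ p ∈ S, decide (p.1 ∈ A) = p.2) →
        κ S ⊆ S ∧ (κ S).card ≤ c * (C.vcDim + 1) ^ a ∧ ∀ p ∈ S, ρ (κ S) p.1 = p.2 := by
  obtain ⟨c, a, h⟩ := block_poly
  refine ⟨7 * c + 4, a, fun X _ _ C => ?_⟩
  obtain ⟨m, K, h1, h2, h3⟩ := h C.vcDim
  obtain ⟨ρ, hρ⟩ := scheme C m K (fun D hD hv => h3 X D hD hv) h2
  obtain ⟨κ, ρ', hκ⟩ := no_roles_class C (K + m) ρ hρ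
  refine ⟨κ, ρ', fun S hS => ?_⟩
  obtain ⟨h4, h5, h6⟩ := hκ S hS
  refine ⟨h4, h5.trans ?_, h6⟩
  have h7 : 1 ≤ (C.vcDim + 1) ^ a := Nat.one_le_pow _ _ (Nat.succ_pos _)
  have h8 : 7 * (K + m) ≤ 7 * (c * (C.vcDim + 1) ^ a) := Nat.mul_le_mul_left 7 (by omega)
  calc 7 * (K + m) + 4 ≤ 7 * (c * (C.vcDim + 1) ^ a) + 4 * (C.vcDim + 1) ^ a := by omega
    _ = (7 * c + 4) * (C.vcDim + 1) ^ a := by ring

end Pool.Agent.MPaa62e0T
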