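import Pool.Agent.Lib.MP_aa62e0_lcT.EntUp

set_option autoImplicit false
set_option linter.unusedSectionVars false

open Finset
open scoped Classical

namespace Pool.Agent.MPaa62e0T

variable {α : Type} [Fintype α] [DecidableEq α]

/-- The number of traces of a family on a tuple. -/
theorem net_tuple_traces {ι : Type} [Fintype ι] [DecidableEq ι] (F : Finset (Finset α)) (d : ℕ)
    (hF : F.vcDim ≤ d) (w : ι → α) :
    (F.image (fun f => (Finset.univ : Finset ι).filter (fun i => w i ∈ f))).card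
      ≤ (Fintype.card ι + 1) ^ d := by
  have h1 : (F.image (fun f => (Finset.univ : Finset ι).filter (fun i => w i ∈ f)))
      = (traces F (Finset.univ.image w)).image
          (fun t => (Finset.univ : Finset ι).filter (fun i => w i ∈ t)) := by
    unfold traces
    rw [Finset.image_image]
    refine Finset.image_congr ?_
    intro f _
    ext i
    simp
  rw [h1]
  calc _ ≤ (traces F (Finset.univ.image w)).card := Finset.card_image_le
    _ ≤ ((Finset.univ.image w).card + 1) ^ d := traces_card F d hF _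
    _ ≤ (Fintype.card ι + 1) ^ d := by
        refine Nat.pow_le_pow_left ?_ d
        have := Finset.card_image_le (s := (Finset.univ : Finset ι)) (f := w)
        rw [Finset.card_univ] at this
        omega

/-- The tuple `w` misses some heavy member of `F`. -/
def netBad {ι : Type} (F : Finset (Finset α)) (D : α → ℝ) (θ : ℝ) (w : ι → α) : Prop :=
  ∃ f ∈ F, θ < ∑ x ∈ f, D x ∧ ∀ i, w i ∉ f

/-- The probability of `netBad`. -/
noncomputable def netP (ι : Type) [Fintype ι] [DecidableEq ι] (F : Finset (Finset α)) (D : α → ℝ) (θ : ℝ) : ℝ :=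
  ∑ w : ι → α, (∏ i, D (w i)) * (if netBad F D θ w then 1 else 0)

theorem netP_congr {ι κ : Type} [Fintype ι] [DecidableEq ι] [Fintype κ] [DecidableEq κ] (e : ι ≃ κ) (F : Finset (Finset α))
    (D : α → ℝ) (θ : ℝ) : netP ι F D θ = netP κ F D θ := by
  unfold netP
  refine Fintype.sum_equiv (Equiv.arrowCongr e (Equiv.refl α)) _ _ ?_
  intro w
  have h1 : ∏ i, D (w i) = ∏ k, D ((Equiv.arrowCongr e (Equiv.refl α)) w k) := by
    refine Fintype.prod_equiv e _ _ ?_
    intro i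
    simp [Equiv.arrowCongr]
  have h2 : netBad F D θ w ↔ netBad F D θ ((Equiv.arrowCongr e (Equiv.refl α)) w) := by
    unfold netBad
    constructor
    · rintro ⟨f, hf, h1, h2⟩
      refine ⟨f, hf, h1, fun k => ?_⟩
      simpa [Equiv.arrowCongr] using h2 (e.symm k)
    · rintro ⟨f, hf, h1, h2⟩
      refine ⟨f, hf, h1, fun i => ?_⟩
      have := h2 (e i)
      simpa [Equiv.arrowCongr] using this
  rw [← h1]
  by_cases hb : netBad F D θ w
  · rw [if_pos hb, if_pos (h2.1 hb)]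
  · rw [if_neg hb, if_neg (fun h => hb (h2.2 h))]

theorem net_sum_prod {ι : Type} [Fintype ι] [DecidableEq ι] (D : α → ℝ) (f : Finset α) :
    ∑ u ∈ Fintype.piFinset (fun _ : ι => f), ∏ i, D (u i)
      = (∑ x ∈ f, D x) ^ (Fintype.card ι) := by
  rw [← Finset.prod_univ_sum (fun _ : ι => f) (fun _ x => D x)]
  rw [Finset.prod_const, Finset.card_univ]

/-- One split of the index set. -/
theorem net_split {ι : Type} [Fintype ι] [DecidableEq ι] (F : Finset (Finset α)) (D : α → ℝ)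
    (hD : ∀ x, 0 ≤ D x) (θ : ℝ) (hθ : 0 < θ) (I : Finset ι) :
    netP {i : ι // i ∉ I} F D θ * θ ^ I.card
      ≤ ∑ w : ι → α, (∏ i, D (w i)) *
          (if ∃ f ∈ F, ∀ i, (w i ∈ f ↔ i ∈ I) then 1 else 0) := by
  have hprod : ∀ {κ : Type} [Fintype κ] (w : κ → α), 0 ≤ ∏ i, D (w i) := by
    intro κ _ w
    exact Finset.prod_nonneg fun i _ => hD _
  set e := Equiv.piEquivPiSubtypeProd (fun i => i ∈ I) (fun _ : ι => α) with he
  rw [← e.symm.sum_comp, Fintype.sum_prod_type, Finset.sum_comm]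
  unfold netP
  rw [Finset.sum_mul]
  refine Finset.sum_le_sum ?_
  intro v _
  have happ : ∀ u : {i // i ∈ I} → α, ∀ i : ι, ∀ hi : i ∈ I, e.symm (u, v) i = u ⟨i, hi⟩ := by
    intro u i hi
    simp [he, Equiv.piEquivPiSubtypeProd, hi]
  have happ' : ∀ u : {i // i ∈ I} → α, ∀ i : ι, ∀ hi : i ∉ I, e.symm (u, v) i = v ⟨i, hi⟩ := by
    intro u i hi
    simp [he, Equiv.piEquivPiSubtypeProd, hi]
  have hmul : ∀ u : {i // i ∈ I} → α,
      ∏ i, D (e.symm (u, v) i) = (∏ i, D (u i)) * ∏ i, D (v i) := by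
    intro u
    have h := Fintype.prod_subtype_mul_prod_subtype (fun i => i ∈ I)
      (fun i => D (e.symm (u, v) i))
    rw [← h]
    congr 1
    · refine Finset.prod_congr (by ext; simp) ?_
      rintro ⟨i, hi⟩ _
      rw [happ u i hi]
    · refine Finset.prod_congr (by ext; simp) ?_
      rintro ⟨i, hi⟩ _
      rw [happ' u i hi]
  by_cases hb : netBad F D θ v
  · rw [if_pos hb]
    obtain ⟨f, hf, hfθ, hfv⟩ := hb
    have hcard : Fintype.card {i // i ∈ I} = I.card := by simp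
    have h1 : θ ^ I.card ≤ ∑ u ∈ Fintype.piFinset (fun _ : {i // i ∈ I} => f), ∏ i, D (u i) := by
      rw [net_sum_prod, hcard]
      exact pow_le_pow_left₀ hθ.le hfθ.le _
    have h2 : ∑ u ∈ Fintype.piFinset (fun _ : {i // i ∈ I} => f), (∏ i, D (e.symm (u, v) i)) *
          (if ∃ f ∈ F, ∀ i, (e.symm (u, v) i ∈ f ↔ i ∈ I) then (1 : ℝ) else 0)
        ≤ ∑ u : {i // i ∈ I} → α, (∏ i, D (e.symm (u, v) i)) *
          (if ∃ f ∈ F, ∀ i, (e.symm (u, v) i ∈ f ↔ i ∈ I) then (1 : ℝ) else 0) := by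
      refine Finset.sum_le_sum_of_subset_of_nonneg (Finset.subset_univ _) ?_
      intro u _ _
      refine mul_nonneg (hprod _) ?_
      split_ifs <;> norm_num
    refine le_trans ?_ h2
    have h3 : ∑ u ∈ Fintype.piFinset (fun _ : {i // i ∈ I} => f), (∏ i, D (e.symm (u, v) i)) *
          (if ∃ f ∈ F, ∀ i, (e.symm (u, v) i ∈ f ↔ i ∈ I) then (1 : ℝ) else 0)
        = ∑ u ∈ Fintype.piFinset (fun _ : {i // i ∈ I} => f), (∏ i, D (u i)) * ∏ i, D (v i) := by
      refine Finset.sum_congr rfl ?_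
      intro u hu
      rw [Fintype.mem_piFinset] at hu
      rw [if_pos, mul_one, hmul]
      refine ⟨f, hf, fun i => ?_⟩
      by_cases hi : i ∈ I
      · rw [happ u i hi]
        exact ⟨fun _ => hi, fun _ => hu _⟩
      · rw [happ' u i hi]
        exact ⟨fun h => absurd h (hfv _), fun h => absurd h hi⟩
    rw [h3, ← Finset.sum_mul, mul_one, mul_comm]
    exact mul_le_mul_of_nonneg_right h1 (hprod _)
  · rw [if_neg hb, mul_zero, zero_mul]
    refine Finset.sum_nonneg fun u _ => mul_nonneg (hprod _) ?_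
    split_ifs <;> norm_num

/-- The double counting. -/
theorem net_count (F : Finset (Finset α)) (d : ℕ) (hF : F.vcDim ≤ d) (D : α → ℝ)
    (hD : ∀ x, 0 ≤ D x) (hD1 : ∑ x, D x = 1) (θ : ℝ) (hθ : 0 < θ) (m l : ℕ) :
    netP (Fin m) F D θ * θ ^ l * ((m + l).choose l : ℝ) ≤ ((m : ℝ) + l + 1) ^ d := by
  have h1 : ∀ I ∈ (Finset.univ : Finset (Fin (m + l))).powersetCard l,
      netP (Fin m) F D θ * θ ^ l ≤ ∑ w : Fin (m + l) → α, (∏ i, D (w i)) *
          (if ∃ f ∈ F, ∀ i, (w i ∈ f ↔ i ∈ I) then 1 else 0) := by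
    intro I hI
    have hIc : I.card = l := (Finset.mem_powersetCard.1 hI).2
    have hc : Fintype.card {i : Fin (m + l) // i ∉ I} = Fintype.card (Fin m) := by
      rw [Fintype.card_subtype_compl, Fintype.card_fin, Fintype.card_fin]
      simp [hIc]
    have h := net_split F D hD θ hθ I
    rw [netP_congr (Fintype.equivOfCardEq hc) F D θ, hIc] at h
    refine h.trans (le_of_eq (Finset.sum_congr rfl fun w _ => ?_))
    congr 1
    by_cases hx : ∃ f ∈ F, ∀ i : Fin (m + l), (w i ∈ f ↔ i ∈ I)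
    · simp only [if_pos hx]
    · simp only [if_neg hx]
  have h2 := Finset.card_nsmul_le_sum _ _ _ h1
  rw [Finset.card_powersetCard, Finset.card_univ, Fintype.card_fin, nsmul_eq_mul,
    Finset.sum_comm] at h2
  have h3 : ∀ w : Fin (m + l) → α,
      ∑ I ∈ (Finset.univ : Finset (Fin (m + l))).powersetCard l, (∏ i, D (w i)) *
          (if ∃ f ∈ F, ∀ i, (w i ∈ f ↔ i ∈ I) then (1 : ℝ) else 0)
        ≤ (∏ i, D (w i)) * ((m : ℝ) + l + 1) ^ d := by
    intro w
    rw [← Finset.mul_sum]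
    refine mul_le_mul_of_nonneg_left ?_ (Finset.prod_nonneg fun i _ => hD _)
    rw [← Finset.sum_filter, Finset.sum_const, nsmul_eq_mul, mul_one]
    have hsub : ((Finset.univ : Finset (Fin (m + l))).powersetCard l).filter
        (fun I => ∃ f ∈ F, ∀ i, (w i ∈ f ↔ i ∈ I))
        ⊆ F.image (fun f => (Finset.univ : Finset (Fin (m + l))).filter (fun i => w i ∈ f)) := by
      intro I hI
      obtain ⟨f, hf, hfi⟩ := (Finset.mem_filter.1 hI).2
      refine Finset.mem_image.2 ⟨f, hf, ?_⟩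
      ext i
      simp [hfi i]
    have hc := (Finset.card_le_card hsub).trans (net_tuple_traces F d hF w)
    rw [Fintype.card_fin] at hc
    calc ((((Finset.univ : Finset (Fin (m + l))).powersetCard l).filter
        (fun I => ∃ f ∈ F, ∀ i, (w i ∈ f ↔ i ∈ I))).card : ℝ) ≤ (((m + l + 1) ^ d : ℕ) : ℝ) := by
          exact_mod_cast hc
      _ = ((m : ℝ) + l + 1) ^ d := by push_cast; ring
  have h4 : ∑ w : Fin (m + l) → α, ∏ i, D (w i) = 1 := by
    have := net_sum_prod (ι := Fin (m + l)) D (Finset.univ : Finset α)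
    rw [hD1, one_pow, Fintype.piFinset_univ] at this
    exact this
  calc netP (Fin m) F D θ * θ ^ l * ((m + l).choose l : ℝ)
      = ((m + l).choose l : ℝ) * (netP (Fin m) F D θ * θ ^ l) := by ring
    _ ≤ _ := h2
    _ ≤ ∑ w : Fin (m + l) → α, (∏ i, D (w i)) * ((m : ℝ) + l + 1) ^ d :=
        Finset.sum_le_sum fun w _ => h3 w
    _ = ((m : ℝ) + l + 1) ^ d := by rw [← Finset.sum_mul, h4, one_mul]

theorem net_choose (θ : ℝ) (hθ : 0 < θ) (m l : ℕ) (hl : 2 * (l : ℝ) ≤ θ * m) :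
    ∀ j : ℕ, j ≤ l → (2 : ℝ) ^ j ≤ θ ^ j * ((m + j).choose j : ℝ) := by
  intro j
  induction j with
  | zero => intro _; simp
  | succ j ih =>
    intro hj
    have ih' := ih (by omega)
    have h1 : ((m + j : ℕ) + 1) * (m + j).choose j = (m + j + 1).choose (j + 1) * (j + 1) :=
      Nat.add_one_mul_choose_eq (m + j) j
    have h2 : ((m : ℝ) + j + 1) * ((m + j).choose j : ℝ)
        = ((m + j + 1).choose (j + 1) : ℝ) * ((j : ℝ) + 1) := by exact_mod_cast h1
    have hj1 : (0 : ℝ) < (j : ℝ) + 1 := by positivity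
    have hjl : (j : ℝ) + 1 ≤ l := by exact_mod_cast hj
    have hθm : 2 * ((j : ℝ) + 1) ≤ θ * ((m : ℝ) + j + 1) := by
      have : 0 ≤ θ * ((j : ℝ) + 1) := by positivity
      nlinarith
    have hpos : (0 : ℝ) ≤ θ ^ j * ((m + j).choose j : ℝ) := by positivity
    have h3 : (2 : ℝ) ^ (j + 1) * ((j : ℝ) + 1)
        ≤ θ ^ (j + 1) * ((m + (j + 1)).choose (j + 1) : ℝ) * ((j : ℝ) + 1) := by
      calc (2 : ℝ) ^ (j + 1) * ((j : ℝ) + 1) = 2 ^ j * (2 * ((j : ℝ) + 1)) := by ring
        _ ≤ (θ ^ j * ((m + j).choose j : ℝ)) * (θ * ((m : ℝ) + j + 1)) :=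
            mul_le_mul ih' hθm (by positivity) hpos
        _ = θ ^ (j + 1) * (((m : ℝ) + j + 1) * ((m + j).choose j : ℝ)) := by ring
        _ = θ ^ (j + 1) * ((m + (j + 1)).choose (j + 1) : ℝ) * ((j : ℝ) + 1) := by
            rw [h2, ← add_assoc]; ring
    exact le_of_mul_le_mul_right h3 hj1

/-- LEAF N (eps-net theorem of Haussler and Welzl, no dependence on `card α`): at least half of the
`m`-tuples (for the product measure `D^m`) hit every member of `F` of `D`-measure more than `θ`.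
Proof: `m + l` samples, `l = ⌊θ m / 2⌋`.  For every `l`-set `I` of indices the probability that
some member of `F` contains exactly the samples with index in `I` is at least `P(bad) θ ^ l`;
there are at most `(m + l + 1) ^ d` traces, so
`P(bad) θ ^ l * choose (m + l) l ≤ (m + l + 1) ^ d`. -/
theorem epsnet (F : Finset (Finset α)) (d : ℕ) (hF : F.vcDim ≤ d) (D : α → ℝ)
    (hD : ∀ x, 0 ≤ D x) (hD1 : ∑ x, D x = 1) (θ : ℝ) (hθ : 0 < θ) (hθ1 : θ ≤ 1) (m : ℕ)
    (hm1 : 8 ≤ θ * m) (hm : 4 * (2 * (m : ℝ) + 1) ^ d ≤ (2 : ℝ) ^ (θ * m / 2)) :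
    1 / 2 ≤ ∑ w : Fin m → α, (∏ i, D (w i)) *
      (if ∀ f ∈ F, θ < ∑ x ∈ f, D x → ∃ i, w i ∈ f then 1 else 0) := by
  have h4 : ∑ w : Fin m → α, ∏ i, D (w i) = 1 := by
    have := net_sum_prod (ι := Fin m) D (Finset.univ : Finset α)
    rw [hD1, one_pow, Fintype.piFinset_univ] at this
    exact this
  have hsum : ∑ w : Fin m → α, (∏ i, D (w i)) *
      (if ∀ f ∈ F, θ < ∑ x ∈ f, D x → ∃ i, w i ∈ f then (1 : ℝ) else 0)
      = 1 - netP (Fin m) F D θ := by
    have h5 : ∑ w : Fin m → α, (∏ i, D (w i)) *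
        (if ∀ f ∈ F, θ < ∑ x ∈ f, D x → ∃ i, w i ∈ f then (1 : ℝ) else 0)
        + netP (Fin m) F D θ = ∑ w : Fin m → α, ∏ i, D (w i) := by
      unfold netP
      rw [← Finset.sum_add_distrib]
      refine Finset.sum_congr rfl fun w _ => ?_
      rw [← mul_add]
      have hiff : (∀ f ∈ F, θ < ∑ x ∈ f, D x → ∃ i, w i ∈ f) ↔ ¬ netBad F D θ w := by
        unfold netBad
        push Not
        rfl
      by_cases hb : netBad F D θ w
      · rw [if_pos hb, if_neg (fun h => hiff.1 h hb)]; ring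
      · rw [if_neg hb, if_pos (hiff.2 hb)]; ring
    linarith
  rw [hsum]
  set l : ℕ := ⌊θ * m / 2⌋₊ with hl
  have hθm0 : (0 : ℝ) ≤ θ * m / 2 := by linarith
  have hl1 : (l : ℝ) ≤ θ * m / 2 := Nat.floor_le hθm0
  have hl2 : θ * m / 2 < (l : ℝ) + 1 := Nat.lt_floor_add_one _
  have hlm : (l : ℝ) ≤ m := by
    have hm0 : (0 : ℝ) ≤ m := Nat.cast_nonneg _
    nlinarith
  have hA := net_count F d hF D hD hD1 θ hθ m l
  have hB := net_choose θ hθ m l (by linarith) l le_rfl
  have hC : (2 : ℝ) ^ (θ * m / 2) ≤ 2 * 2 ^ l := by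
    have h5 : (2 : ℝ) ^ (θ * m / 2) ≤ (2 : ℝ) ^ ((l : ℝ) + 1) :=
      Real.rpow_le_rpow_of_exponent_le (by norm_num) hl2.le
    have h6 : (2 : ℝ) ^ ((l : ℝ) + 1) = 2 * 2 ^ l := by
      rw [Real.rpow_add (by norm_num : (0 : ℝ) < 2), Real.rpow_natCast, Real.rpow_one]
      ring
    rw [← h6]
    exact h5
  have hP0 : 0 ≤ netP (Fin m) F D θ := by
    unfold netP
    refine Finset.sum_nonneg fun w _ => mul_nonneg (Finset.prod_nonneg fun i _ => hD _) ?_
    split_ifs <;> norm_num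
  have hmm : ((m : ℝ) + l + 1) ^ d ≤ (2 * (m : ℝ) + 1) ^ d := by
    refine pow_le_pow_left₀ (by positivity) ?_ d
    linarith
  have hD' : netP (Fin m) F D θ * 2 ^ l ≤ (2 : ℝ) ^ l / 2 := by
    calc netP (Fin m) F D θ * 2 ^ l
        ≤ netP (Fin m) F D θ * (θ ^ l * ((m + l).choose l : ℝ)) :=
          mul_le_mul_of_nonneg_left hB hP0
      _ = netP (Fin m) F D θ * θ ^ l * ((m + l).choose l : ℝ) := by ring
      _ ≤ ((m : ℝ) + l + 1) ^ d := hA
      _ ≤ (2 * (m : ℝ) + 1) ^ d := hmm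
      _ ≤ (2 : ℝ) ^ l / 2 := by linarith
  have hpow : (0 : ℝ) < 2 ^ l := by positivity
  have : netP (Fin m) F D θ ≤ 1 / 2 := by
    by_contra hcon
    push Not at hcon
    nlinarith
  linarith

end Pool.Agent.MPaa62e0T
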