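import Pool.Agent.Lib.MP_aa62e0_lcT.Defs

set_option autoImplicit false
set_option linter.unusedSectionVars false

open Finset
open scoped Classical

namespace Pool.Agent.MPaa62e0T

variable {X : Type} [Fintype X] [DecidableEq X]

/-- LEAF F2.  Passing to wrong sets on the sample domain `A`: the class `{(g ∆ c) ∩ A}` contains `∅`
and has VC dimension at most that of `𝒞`. -/
theorem vc_rel (𝒞 : Finset (Finset X)) (A c : Finset X) :
    (𝒞.image (fun g => (symmDiff g c) ∩ A)).vcDim ≤ 𝒞.vcDim := by
  unfold Finset.vcDim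
  refine Finset.sup_le fun s hs => ?_
  rw [Finset.mem_shatterer] at hs
  have hsA : s ⊆ A := by
    obtain ⟨v, hv, hsv⟩ := hs (Finset.Subset.refl s)
    obtain ⟨h, _, rfl⟩ := Finset.mem_image.1 hv
    intro x hx
    rw [← hsv] at hx
    exact (Finset.mem_inter.1 (Finset.mem_inter.1 hx).2).2
  have hC : 𝒞.Shatters s := by
    intro u hu
    obtain ⟨v, hv, hsv⟩ := hs (t := symmDiff u c ∩ s) Finset.inter_subset_right
    obtain ⟨g, hg, rfl⟩ := Finset.mem_image.1 hv
    refine ⟨g, hg, ?_⟩
    ext x
    have hx := Finset.ext_iff.1 hsv x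
    simp only [Finset.mem_inter, Finset.mem_symmDiff] at hx ⊢
    have h1 : x ∈ s → x ∈ A := fun h => hsA h
    have h2 : x ∈ u → x ∈ s := fun h => hu h
    tauto
  exact Finset.le_sup (f := Finset.card) (Finset.mem_shatterer.2 hC)

end Pool.Agent.MPaa62e0T
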