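import Pool.Agent.Lib.MP_aa62e0_lcT.TracesCard
import Pool.Agent.Lib.MP_aa62e0_lcT.VcRel
import Pool.Agent.Lib.MP_aa62e0_lcT.Halving

set_option autoImplicit false
set_option linter.unusedSectionVars false

open Finset
open scoped Classical

namespace Pool.Agent.MPaa62e0T

variable {X : Type} [Fintype X] [DecidableEq X]

/-- LEAF G1 (scheme with two roles).  For a sample `S` take `A` = its set of points, `c ∈ C` consistent
with it, `D = {(g ∆ c) ∩ A}` (vc_rel), `H` from `hT`, `H₀ = H ∩ A`; the list `ℓ` = one representative of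
each trace of `C` on `H₀` (a fixed choice depending on `H₀` only), `|ℓ| ≤ (k+1)^d < 2^m`
(`traces_card`), `halving` gives `S₀ ⊆ A`; the decoder outputs the majority vote of the members of `ℓ`
right on `S₀`. -/
theorem scheme (C : Finset (Finset X)) (m k : ℕ)
    (hT : ∀ D : Finset (Finset X), ∅ ∈ D → D.vcDim ≤ C.vcDim → ∃ H : Finset X, H.card ≤ k ∧
      ∀ W : Finset X, W.card ≤ m → ∃ b ∈ D, ∀ g ∈ D, g ∩ H = b ∩ H → Disjoint g W)
    (hm : (k + 1) ^ C.vcDim < 2 ^ m) :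
    ∃ ρ : Finset (X × Bool) → Finset (X × Bool) → X → Bool,
      ∀ S : Finset (X × Bool), (∃ A ∈ C, ∀ p ∈ S, decide (p.1 ∈ A) = p.2) →
        ∃ H ⊆ S, ∃ Z ⊆ S, H.card + Z.card ≤ k + m ∧ ∀ p ∈ S, ρ H Z p.1 = p.2 := by
  sorry

end Pool.Agent.MPaa62e0T
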