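import Pool.Agent.Lib.MP_aa62e0_lcT.Net
import Pool.Agent.Lib.MP_aa62e0_lcT.Basic

set_option autoImplicit false
set_option linter.unusedSectionVars false

open Finset
open scoped Classical

namespace Pool.Agent.MPaa62e0T

variable {α : Type} [Fintype α] [DecidableEq α]

/-- LEAF C2 (selector).  Let `μ t` be the minimum of `D(h ∩ L t)` over `h ∈ hit t W`, attained at
`σ t`.  Suppose `∑_{t ∈ V} β t μ t > 2θ`; then `β(t ∈ V : μ t > θ) > θ` (as `μ ≤ 1`, `∑ β ≤ 1`).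
By `epsnet` (for `F = (fib C H t).image (· ∩ L t)`, `vc_fib`) and averaging over `t`, some
`w : Fin m → α` with all `D (w i) ≠ 0` is a θ-net for a set `V1` of such `t` with `β(V1) ≥ θ/2`,
`β t > 0` on `V1`.  Put `W' = image w` (|W'| ≤ m, W' ⊆ Z C (H ∪ W) ⊆ Z C H).  For `t ∈ V1` every
`h ∈ hit t W` has `D(h ∩ L t) ≥ μ t > θ`, so it meets `W' ∩ L t`: `hit t W ⊆ hit t W'`.  It is
strict: by `hmaj` and `β t > 0` there is `g ∈ C`, `g ∩ H = t`, `g ∉ hit t W`, i.e. `g` misses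
`W ∩ L t`; some `y ∈ W' ∩ L t` (take it from any `h ∈ hit t W`) kills `H ∪ W`, so there is `h' ∈ C`
with `h' ∩ (H ∪ W) = g ∩ (H ∪ W)` and `y ∈ h'`: `h' ∈ hit t W'`, `h' ∉ hit t W`.
So `θ/2 ≤ β(V1) ≤ 10 |W'|/K ≤ 10 m/K < θ/2`, contradiction. -/
theorem selector (C : Finset (Finset α)) (d : ℕ) (hd : C.vcDim ≤ d) (M : Finset α → ℝ)
    (hM : IsProb C M) (H W : Finset α) (V : Finset (Finset α)) (hV : V ⊆ traces C H)
    (hne : ∀ t ∈ V, (hit C M H t W).Nonempty)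
    (hmaj : ∀ t ∈ V, mass C M (fun h => h ∈ hit C M H t W)
        ≤ mass C M (fun h => h ∩ H = t ∧ h ∉ hit C M H t W))
    (K : ℕ)
    (hst : ∀ W' ⊆ Z C H, W'.Nonempty →
        ∑ t ∈ V.filter (fun t => (hit C M H t W).card < (hit C M H t W').card),
          mass C M (fun h => h ∩ H = t) ≤ 10 * W'.card / K)
    (θ : ℝ) (hθ : 0 < θ) (hθ1 : θ ≤ 1) (m : ℕ)
    (hm1 : 8 ≤ θ * m) (hm : 4 * (2 * (m : ℝ) + 1) ^ d ≤ (2 : ℝ) ^ (θ * m / 2))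
    (hKm : 10 * (m : ℝ) / K < θ / 2)
    (D : α → ℝ) (hD : ∀ x, 0 ≤ D x) (hD1 : ∑ x, D x = 1)
    (hsupp : ∀ x, D x ≠ 0 → Kills C (H ∪ W) x) :
    ∃ σ : Finset α → Finset α, (∀ t ∈ V, σ t ∈ hit C M H t W) ∧
      ∑ t ∈ V, mass C M (fun h => h ∩ H = t) * ∑ x ∈ σ t ∩ L C M H t, D x ≤ 2 * θ := by
  sorry

end Pool.Agent.MPaa62e0T
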