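import Pool.Agent.Lib.MP_aa62e0_lcT.Lottery

set_option autoImplicit false
set_option linter.unusedSectionVars false

open Finset
open scoped Classical

namespace Pool.Agent.MPaa62e0T

variable {α : Type} [Fintype α] [DecidableEq α]

/-- The liked sets have mass at least `1/2`. -/
theorem stable_like (Λ : Finset α → ℝ) (h0 : ∀ W, 0 ≤ Λ W) (h1 : ∑ W, Λ W = 1)
    (s : Finset α → ℕ) :
    1 / 2 ≤ ∑ W, Λ W *
      (if (∑ W'' ∈ Finset.univ.filter (fun W'' => s W < s W''), Λ W'') ≤ 1 / 2 then 1 else 0) := by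
  by_cases hD : ∃ W, ¬ (∑ W'' ∈ Finset.univ.filter (fun W'' => s W < s W''), Λ W'') ≤ 1 / 2
  · obtain ⟨W₀, hW₀, hmax⟩ := Finset.exists_max_image
      (Finset.univ.filter fun W : Finset α =>
        ¬ (∑ W'' ∈ Finset.univ.filter (fun W'' => s W < s W''), Λ W'') ≤ 1 / 2) s
      (by obtain ⟨W, hW⟩ := hD; exact ⟨W, Finset.mem_filter.2 ⟨Finset.mem_univ _, hW⟩⟩)
    have h2 := (Finset.mem_filter.1 hW₀).2
    rw [not_le] at h2
    refine h2.le.trans ?_
    rw [Finset.sum_filter]
    refine Finset.sum_le_sum fun W _ => ?_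
    by_cases h3 : s W₀ < s W
    · rw [if_pos h3, if_pos, mul_one]
      by_contra h4
      exact absurd (hmax W (Finset.mem_filter.2 ⟨Finset.mem_univ _, h4⟩)) (not_le.2 h3)
    · rw [if_neg h3]
      exact mul_nonneg (h0 W) (by split_ifs <;> norm_num)
  · push Not at hD
    have h2 : ∑ W, Λ W *
        (if (∑ W'' ∈ Finset.univ.filter (fun W'' => s W < s W''), Λ W'') ≤ 1 / 2
          then (1 : ℝ) else 0) = 1 := by
      refine (Finset.sum_congr rfl fun W _ => ?_).trans h1
      rw [if_pos (hD W), mul_one]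
    rw [h2]
    norm_num

/-- LEAF B2 (stable committee; from B1).  Voter `t` likes `W` if
`Λ(W'' : s t W < s t W'') ≤ 1/2`; the liked sets have `Λ`-mass at least 1/2 (they contain all sets
with score above that of the best disliked set, whose mass is > 1/2), so some `W` with `Λ W > 0` is
liked by a set `V` of voters of weight at least 1/2; if `t ∈ V` and `s t W < s t W'` then
`Λ(W'' : s t W'' < s t W') ≥ 1/2`, so `β(..) ≤ 2 * 5|W'|/K`. -/
theorem stable {τ : Type} (T : Finset τ) (β : τ → ℝ) (hβ : ∀ t, 0 ≤ β t)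
    (hβ1 : ∑ t ∈ T, β t = 1) (Y : Finset α) (K : ℕ) (hK : 1 ≤ K)
    (s : τ → Finset α → ℕ) (hs : ∀ t, ∀ W W' : Finset α, W ⊆ W' → s t W ≤ s t W') :
    ∃ W : Finset α, W ⊆ Y ∧ W.card ≤ K ∧ ∃ V : Finset τ, V ⊆ T ∧ 1 / 2 ≤ ∑ t ∈ V, β t ∧
      ∀ W' : Finset α, W' ⊆ Y → W'.Nonempty →
        ∑ t ∈ V.filter (fun t => s t W < s t W'), β t ≤ 10 * W'.card / K := by
  obtain ⟨Λ, h0, hsupp, h1, hlot⟩ := lottery T β hβ hβ1 Y K hK s hs
  set P : τ → Finset α → Prop := fun t W =>
    (∑ W'' ∈ Finset.univ.filter (fun W'' => s t W < s t W''), Λ W'') ≤ 1 / 2 with hP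
  -- the mean
  have hmean : 1 / 2 ≤ ∑ W, Λ W * ∑ t ∈ T.filter (fun t => P t W), β t := by
    have h2 : ∑ t ∈ T, β t * (∑ W, Λ W * (if P t W then 1 else 0)) =
        ∑ W, Λ W * ∑ t ∈ T.filter (fun t => P t W), β t := by
      simp only [Finset.mul_sum]
      rw [Finset.sum_comm]
      refine Finset.sum_congr rfl fun W _ => ?_
      rw [Finset.sum_filter]
      refine Finset.sum_congr rfl fun t _ => ?_
      split_ifs <;> ring
    rw [← h2]
    calc (1 : ℝ) / 2 = ∑ t ∈ T, β t * (1 / 2) := by rw [← Finset.sum_mul, hβ1, one_mul]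
      _ ≤ _ := Finset.sum_le_sum fun t _ =>
        mul_le_mul_of_nonneg_left (stable_like Λ h0 h1 (s t)) (hβ t)
  obtain ⟨W, hW0, hW⟩ : ∃ W, Λ W ≠ 0 ∧ 1 / 2 ≤ ∑ t ∈ T.filter (fun t => P t W), β t := by
    by_contra hcon
    push Not at hcon
    obtain ⟨W₁, hW₁⟩ : ∃ W, Λ W ≠ 0 := by
      by_contra hz
      push Not at hz
      rw [Finset.sum_eq_zero fun W _ => hz W] at h1
      exact zero_ne_one h1
    have h3 : ∑ W, Λ W * ∑ t ∈ T.filter (fun t => P t W), β t < ∑ W, Λ W * (1 / 2) := by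
      refine Finset.sum_lt_sum (fun W _ => ?_) ⟨W₁, Finset.mem_univ _, ?_⟩
      · by_cases hz : Λ W = 0
        · rw [hz, zero_mul, zero_mul]
        · exact mul_le_mul_of_nonneg_left (hcon W hz).le (h0 W)
      · exact mul_lt_mul_of_pos_left (hcon W₁ hW₁) (lt_of_le_of_ne (h0 W₁) (Ne.symm hW₁))
    rw [← Finset.sum_mul, h1, one_mul] at h3
    linarith
  refine ⟨W, (hsupp W hW0).1, (hsupp W hW0).2, T.filter (fun t => P t W),
    Finset.filter_subset _ _, hW, fun W' hW' hne => ?_⟩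
  have hl := hlot W' hW' hne
  -- each of the voters sees half of the mass below `W'`
  have hhalf : ∀ t ∈ (T.filter (fun t => P t W)).filter (fun t => s t W < s t W'),
      1 / 2 ≤ ∑ W'' ∈ Finset.univ.filter (fun W'' => s t W'' < s t W'), Λ W'' := by
    intro t ht
    rw [Finset.mem_filter, Finset.mem_filter] at ht
    have h2 : (∑ W'' ∈ Finset.univ.filter (fun W'' => s t W < s t W''), Λ W'') ≤ 1 / 2 := ht.1.2
    have h3 := Finset.sum_filter_add_sum_filter_not (Finset.univ : Finset (Finset α))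
      (fun W'' => s t W < s t W'') Λ
    rw [h1] at h3
    have h4 : ∑ W'' ∈ Finset.univ.filter (fun W'' => ¬ s t W < s t W''), Λ W'' ≤
        ∑ W'' ∈ Finset.univ.filter (fun W'' => s t W'' < s t W'), Λ W'' := by
      refine Finset.sum_le_sum_of_subset_of_nonneg (fun x hx => ?_) (fun x _ _ => h0 x)
      rw [Finset.mem_filter] at hx ⊢
      exact ⟨hx.1, lt_of_le_of_lt (not_lt.1 hx.2) ht.2⟩
    linarith
  calc ∑ t ∈ (T.filter (fun t => P t W)).filter (fun t => s t W < s t W'), β t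
      ≤ ∑ t ∈ (T.filter (fun t => P t W)).filter (fun t => s t W < s t W'),
          2 * (β t * ∑ W'' ∈ Finset.univ.filter (fun W'' => s t W'' < s t W'), Λ W'') := by
        refine Finset.sum_le_sum fun t ht => ?_
        have h2 := mul_le_mul_of_nonneg_left (hhalf t ht) (hβ t)
        linarith
    _ ≤ ∑ t ∈ T, 2 * (β t * ∑ W'' ∈ Finset.univ.filter (fun W'' => s t W'' < s t W'), Λ W'') := by
        refine Finset.sum_le_sum_of_subset_of_nonneg
          ((Finset.filter_subset _ _).trans (Finset.filter_subset _ _)) (fun t _ _ => ?_)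
        exact mul_nonneg (by norm_num) (mul_nonneg (hβ t) (Finset.sum_nonneg fun x _ => h0 x))
    _ = 2 * ∑ W'', Λ W'' * ∑ t ∈ T.filter (fun t => s t W'' < s t W'), β t := by
        rw [← Finset.mul_sum]
        congr 1
        simp only [Finset.mul_sum]
        simp only [Finset.sum_filter]
        rw [Finset.sum_comm]
        refine Finset.sum_congr rfl fun W'' _ => ?_
        refine Finset.sum_congr rfl fun t _ => ?_
        split_ifs <;> ring
    _ ≤ 2 * (5 * W'.card / K) := mul_le_mul_of_nonneg_left hl (by norm_num)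
    _ = 10 * W'.card / K := by ring

end Pool.Agent.MPaa62e0T
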