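import Pool.Agent.Lib.MP_aa62e0_lcT.Basic
import Pool.Agent.Lib.MP_aa62e0_lcT.Ent

set_option autoImplicit false
set_option linter.unusedSectionVars false

open Finset
open scoped Classical

namespace Pool.Agent.MPaa62e0T

variable {α : Type} [Fintype α] [DecidableEq α]

/-- the new measure -/
noncomputable def updNew (M N : Finset α → ℝ) (H : Finset α) (V : Finset (Finset α))
    (h : Finset α) : ℝ :=
  3 / 4 * M h + 1 / 4 * (if h ∩ H ∈ V then N h else M h)

theorem upd_mass_mem (C : Finset (Finset α)) (M : Finset α → ℝ) (H W : Finset α)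
    (V : Finset (Finset α)) (N : Finset α → ℝ)
    (hN2 : ∀ h, N h ≠ 0 → ∃ t ∈ V, h ∈ hit C M H t W) (t : Finset α) (ht : t ∈ V)
    (Q : Finset α → Prop) [DecidablePred Q] :
    mass C (updNew M N H V) (fun h => h ∩ H = t ∧ Q h)
      = 3 / 4 * mass C M (fun h => h ∩ H = t ∧ Q h)
        + 1 / 4 * ∑ h ∈ (hit C M H t W).filter Q, N h := by
  have h1 : ∑ h ∈ (hit C M H t W).filter Q, N h
      = mass C N (fun h => h ∩ H = t ∧ Q h) := by
    unfold mass
    refine Finset.sum_subset ?_ ?_
    · intro h hh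
      simp only [Finset.mem_filter, mem_hit] at hh
      simp only [Finset.mem_filter]
      exact ⟨hh.1.1.1, hh.1.1.2, hh.2⟩
    · intro h hh hn
      simp only [Finset.mem_filter] at hh
      by_contra h0
      obtain ⟨t', ht', hht'⟩ := hN2 h h0
      have h2 : h ∩ H = t' := (mem_hit.1 hht').1.2
      have h3 : t' = t := h2.symm.trans hh.2.1
      subst h3
      exact hn (Finset.mem_filter.2 ⟨hht', hh.2.2⟩)
  rw [h1]
  unfold mass
  rw [Finset.mul_sum, Finset.mul_sum, ← Finset.sum_add_distrib]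
  refine Finset.sum_congr rfl fun h hh => ?_
  simp only [Finset.mem_filter] at hh
  unfold updNew
  rw [if_pos (by rw [hh.2.1]; exact ht)]

theorem upd_mass_not_mem (C : Finset (Finset α)) (M : Finset α → ℝ) (H : Finset α)
    (V : Finset (Finset α)) (N : Finset α → ℝ) (t : Finset α) (ht : t ∉ V)
    (Q : Finset α → Prop) :
    mass C (updNew M N H V) (fun h => h ∩ H = t ∧ Q h)
      = mass C M (fun h => h ∩ H = t ∧ Q h) := by
  unfold mass
  refine Finset.sum_congr rfl fun h hh => ?_
  simp only [Finset.mem_filter] at hh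
  unfold updNew
  rw [if_neg (by rw [hh.2.1]; exact ht)]
  ring

theorem upd_mass_trace (C : Finset (Finset α)) (M : Finset α → ℝ) (H W : Finset α)
    (V : Finset (Finset α)) (N : Finset α → ℝ)
    (hN1 : ∀ t ∈ V, ∑ h ∈ hit C M H t W, N h = mass C M (fun h => h ∩ H = t))
    (hN2 : ∀ h, N h ≠ 0 → ∃ t ∈ V, h ∈ hit C M H t W) (t : Finset α) :
    mass C (updNew M N H V) (fun h => h ∩ H = t) = mass C M (fun h => h ∩ H = t) := by
  have e1 : ∀ M' : Finset α → ℝ, mass C M' (fun h => h ∩ H = t)
      = mass C M' (fun h => h ∩ H = t ∧ True) := fun M' =>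
    mass_congr fun x _ => by simp
  rw [e1, e1]
  by_cases ht : t ∈ V
  · rw [upd_mass_mem C M H W V N hN2 t ht, Finset.filter_true, hN1 t ht, ← e1 M]
    ring
  · exact upd_mass_not_mem C M H V N t ht _

/-- LEAF C4 (update).  `M' h = (1-η) M h + η N' h` where `N' h = N h` if `h ∩ H ∈ V` and `N' h = M h`
otherwise, `η = 1/4`.  The trace on `H` has the same law.  Error at a killer `y` of `H ∪ W`:
`M'(y) ≤ M(y) + η ∑_{t ∈ V} (N_t(y) - M_t(y)) ≤ e + η (3θ + τ)` (for `y ∈ L t` use the bound on `N`;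
for `y ∉ L t` use `N_t(y) - M_t(y) ≤ β t - M_t(y) = mass(t, y ∉ h) = min(..)`, in total `≤ unc y ≤ τ`).
Entropy: `ent_refine` with `H' = H ∪ W` and `I h` = `(h ∩ (W ∩ L C M H (h ∩ H))).Nonempty`; for
`t ∈ V` both `mass M' (t, I) ≥ η β t` and `mass M' (t, not I) ≥ (1-η) β t /2 ≥ η β t`; so the
entropy grows by at least `log 2 * η * β(V) ≥ log 2 / 32`. -/
theorem update (C : Finset (Finset α)) (M : Finset α → ℝ) (hM : IsProb C M) (H W : Finset α)
    (V : Finset (Finset α)) (hV : V ⊆ traces C H) (e τ θ : ℝ)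
    (herr : ∀ y ∈ Z C H, mass C M (fun h => y ∈ h) ≤ e)
    (hfree : ∀ y ∈ Z C H, unc C M H y ≤ τ)
    (hβV : 1 / 8 ≤ ∑ t ∈ V, mass C M (fun h => h ∩ H = t))
    (hmaj : ∀ t ∈ V, mass C M (fun h => h ∈ hit C M H t W)
        ≤ mass C M (fun h => h ∩ H = t ∧ h ∉ hit C M H t W))
    (N : Finset α → ℝ) (hN0 : ∀ h, 0 ≤ N h)
    (hN1 : ∀ t ∈ V, ∑ h ∈ hit C M H t W, N h = mass C M (fun h => h ∩ H = t))
    (hN2 : ∀ h, N h ≠ 0 → ∃ t ∈ V, h ∈ hit C M H t W)
    (hN3 : ∀ y, Kills C (H ∪ W) y →
        ∑ t ∈ V.filter (fun t => y ∈ L C M H t),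
          ∑ h ∈ (hit C M H t W).filter (fun h => y ∈ h), N h ≤ 3 * θ) :
    ∃ M' : Finset α → ℝ, IsProb C M' ∧
      (∀ y ∈ Z C (H ∪ W), mass C M' (fun h => y ∈ h) ≤ e + (3 * θ + τ) / 4) ∧
      Ent C M H + Real.log 2 / 32 ≤ Ent C M' (H ∪ W) := by
  classical
  have hV' : ∀ t ∈ V, t ∈ traces C H := fun t ht => hV ht
  have hprob : IsProb C (updNew M N H V) := by
    refine ⟨fun h => ?_, ?_⟩
    · unfold updNew
      have h1 := hM.1 h
      have h2 := hN0 h
      split_ifs <;> linarith
    · have h1 : ∀ M' : Finset α → ℝ, ∑ h ∈ C, M' h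
          = ∑ t ∈ traces C H, mass C M' (fun h => h ∩ H = t) := by
        intro M'
        have h2 := sum_traces C M' H (fun _ => True)
        simp only [and_true] at h2
        rw [h2]
        unfold mass
        simp
      rw [h1]
      have h3 : ∀ t ∈ traces C H, mass C (updNew M N H V) (fun h => h ∩ H = t)
          = mass C M (fun h => h ∩ H = t) := fun t _ =>
        upd_mass_trace C M H W V N hN1 hN2 t
      rw [Finset.sum_congr rfl h3, ← h1]
      exact hM.2
  refine ⟨updNew M N H V, hprob, ?_, ?_⟩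
  · intro y hy
    have hyZ : y ∈ Z C H := mem_Z.2 ((mem_Z.1 hy).mono Finset.subset_union_left)
    have hyK : Kills C (H ∪ W) y := mem_Z.1 hy
    -- difference on one trace
    have h1 : ∀ t ∈ traces C H, mass C (updNew M N H V) (fun h => h ∩ H = t ∧ y ∈ h)
        ≤ mass C M (fun h => h ∩ H = t ∧ y ∈ h)
          + (1 / 4 * (if t ∈ V.filter (fun t => y ∈ L C M H t) then
              ∑ h ∈ (hit C M H t W).filter (fun h => y ∈ h), N h else 0)
            + 1 / 4 * min (mass C M (fun h => h ∩ H = t ∧ y ∈ h))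
                (mass C M (fun h => h ∩ H = t ∧ y ∉ h))) := by
      intro t ht
      have hin : 0 ≤ mass C M (fun h => h ∩ H = t ∧ y ∈ h) := mass_nonneg hM.1 _
      have hout : 0 ≤ mass C M (fun h => h ∩ H = t ∧ y ∉ h) := mass_nonneg hM.1 _
      have hmin := le_min hin hout
      by_cases htV : t ∈ V
      · rw [upd_mass_mem C M H W V N hN2 t htV]
        by_cases hyL : y ∈ L C M H t
        · rw [if_pos (Finset.mem_filter.2 ⟨htV, hyL⟩)]
          linarith
        · have hnot : ¬ (t ∈ V.filter (fun t => y ∈ L C M H t)) :=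
            fun h => hyL (Finset.mem_filter.1 h).2
          rw [if_neg hnot]
          have h2 : ∑ h ∈ (hit C M H t W).filter (fun h => y ∈ h), N h
              ≤ mass C M (fun h => h ∩ H = t) := by
            rw [← hN1 t htV]
            exact Finset.sum_le_sum_of_subset_of_nonneg (Finset.filter_subset _ _)
              (fun h _ _ => hN0 h)
          have h3 : mass C M (fun h => h ∩ H = t)
              = mass C M (fun h => h ∩ H = t ∧ y ∈ h)
                + mass C M (fun h => h ∩ H = t ∧ y ∉ h) := mass_split _ _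
          have h4 : mass C M (fun h => h ∩ H = t ∧ y ∉ h)
              < mass C M (fun h => h ∩ H = t ∧ y ∈ h) := by
            by_contra hcon
            exact hyL (Finset.mem_filter.2 ⟨hyZ, not_lt.1 hcon⟩)
          rw [min_eq_right h4.le]
          linarith
      · have hnot : ¬ (t ∈ V.filter (fun t => y ∈ L C M H t)) :=
          fun h => htV (Finset.mem_filter.1 h).1
        rw [upd_mass_not_mem C M H V N t htV, if_neg hnot]
        linarith
    have h2 : mass C (updNew M N H V) (fun h => y ∈ h)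
        = ∑ t ∈ traces C H, mass C (updNew M N H V) (fun h => h ∩ H = t ∧ y ∈ h) :=
      (sum_traces C _ H _).symm
    have h3 : mass C M (fun h => y ∈ h)
        = ∑ t ∈ traces C H, mass C M (fun h => h ∩ H = t ∧ y ∈ h) :=
      (sum_traces C _ H _).symm
    have h4 : ∑ t ∈ traces C H, (if t ∈ V.filter (fun t => y ∈ L C M H t) then
        ∑ h ∈ (hit C M H t W).filter (fun h => y ∈ h), N h else 0) ≤ 3 * θ := by
      rw [← Finset.sum_filter]
      have h5 : (traces C H).filter (fun t => t ∈ V.filter (fun t => y ∈ L C M H t))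
          = V.filter (fun t => y ∈ L C M H t) := by
        ext t
        rw [Finset.mem_filter]
        exact ⟨fun h => h.2, fun h => ⟨hV (Finset.mem_filter.1 h).1, h⟩⟩
      rw [h5]
      exact hN3 y hyK
    have h5 : ∑ t ∈ traces C H, min (mass C M (fun h => h ∩ H = t ∧ y ∈ h))
        (mass C M (fun h => h ∩ H = t ∧ y ∉ h)) ≤ τ := hfree y hyZ
    have h6 := Finset.sum_le_sum h1
    rw [Finset.sum_add_distrib, Finset.sum_add_distrib, ← Finset.mul_sum, ← Finset.mul_sum,
      ← h2, ← h3] at h6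
    have h7 := herr y hyZ
    linarith
  · have hEnt : Ent C (updNew M N H V) H = Ent C M H := by
      unfold Ent
      refine Finset.sum_congr rfl fun t _ => ?_
      rw [upd_mass_trace C M H W V N hN1 hN2 t]
    have href := ent_refine C (updNew M N H V) hprob H (H ∪ W) Finset.subset_union_left
      (fun h => (h ∩ (W ∩ L C M H (h ∩ H))).Nonempty) (by
        intro h _ g _ hhg
        have e1 : h ∩ H = g ∩ H := by
          have := congrArg (fun x => x ∩ H) hhg
          simpa only [Finset.inter_assoc, Finset.inter_eq_right.2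
            (Finset.subset_union_left : H ⊆ H ∪ W)] using this
        have e2 : h ∩ W = g ∩ W := by
          have := congrArg (fun x => x ∩ W) hhg
          simpa only [Finset.inter_assoc, Finset.inter_eq_right.2
            (Finset.subset_union_right : W ⊆ H ∪ W)] using this
        rw [e1, ← Finset.inter_assoc, ← Finset.inter_assoc, e2])
    rw [hEnt] at href
    have hI : ∀ t, ∀ h ∈ C, h ∩ H = t →
        ((h ∩ (W ∩ L C M H (h ∩ H))).Nonempty ↔ h ∈ hit C M H t W) := by
      intro t h hh ht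
      subst ht
      rw [mem_hit]
      exact ⟨fun h1 => ⟨⟨hh, rfl⟩, h1⟩, fun h1 => h1.2⟩
    have hmin : ∀ t ∈ V, 1 / 4 * mass C M (fun h => h ∩ H = t) ≤
        min (mass C (updNew M N H V)
            (fun h => h ∩ H = t ∧ (h ∩ (W ∩ L C M H (h ∩ H))).Nonempty))
          (mass C (updNew M N H V)
            (fun h => h ∩ H = t ∧ ¬ (h ∩ (W ∩ L C M H (h ∩ H))).Nonempty)) := by
      intro t ht
      rw [upd_mass_mem C M H W V N hN2 t ht, upd_mass_mem C M H W V N hN2 t ht]
      have g1 : (hit C M H t W).filter (fun h => (h ∩ (W ∩ L C M H (h ∩ H))).Nonempty)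
          = hit C M H t W := by
        refine Finset.filter_true_of_mem fun h hh => ?_
        have h1 := (mem_hit.1 hh).1
        exact (hI t h h1.1 h1.2).2 hh
      have g2 : 0 ≤ ∑ h ∈ (hit C M H t W).filter
          (fun h => ¬ (h ∩ (W ∩ L C M H (h ∩ H))).Nonempty), N h :=
        Finset.sum_nonneg fun h _ => hN0 h
      have g3 : mass C M (fun h => h ∩ H = t ∧ ¬ (h ∩ (W ∩ L C M H (h ∩ H))).Nonempty)
          = mass C M (fun h => h ∩ H = t ∧ h ∉ hit C M H t W) :=
        mass_congr fun x hx => ⟨fun h => ⟨h.1, fun h1 => h.2 ((hI t x hx h.1).2 h1)⟩,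
          fun h => ⟨h.1, fun h1 => h.2 ((hI t x hx h.1).1 h1)⟩⟩
      have g4 : mass C M (fun h => h ∩ H = t)
          = mass C M (fun h => h ∈ hit C M H t W)
            + mass C M (fun h => h ∩ H = t ∧ h ∉ hit C M H t W) := by
        rw [mass_split (fun h => h ∩ H = t) (fun h => h ∈ hit C M H t W)]
        congr 1
        exact mass_congr fun x _ => ⟨fun h => h.2, fun h => ⟨(mem_hit.1 h).1.2, h⟩⟩
      have g5 : 0 ≤ mass C M (fun h => h ∩ H = t ∧ (h ∩ (W ∩ L C M H (h ∩ H))).Nonempty) :=
        mass_nonneg hM.1 _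
      have g6 := hmaj t ht
      have g7 : 0 ≤ mass C M (fun h => h ∈ hit C M H t W) := mass_nonneg hM.1 _
      rw [g1, hN1 t ht, g3]
      refine le_min ?_ ?_
      · linarith
      · linarith
    have hsum : 1 / 32 ≤ ∑ t ∈ traces C H,
        min (mass C (updNew M N H V)
            (fun h => h ∩ H = t ∧ (h ∩ (W ∩ L C M H (h ∩ H))).Nonempty))
          (mass C (updNew M N H V)
            (fun h => h ∩ H = t ∧ ¬ (h ∩ (W ∩ L C M H (h ∩ H))).Nonempty)) := by
      have k1 : ∑ t ∈ V, 1 / 4 * mass C M (fun h => h ∩ H = t) ≤ _ := Finset.sum_le_sum hmin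
      have k2 := Finset.sum_le_sum_of_subset_of_nonneg hV (f := fun t =>
        min (mass C (updNew M N H V)
            (fun h => h ∩ H = t ∧ (h ∩ (W ∩ L C M H (h ∩ H))).Nonempty))
          (mass C (updNew M N H V)
            (fun h => h ∩ H = t ∧ ¬ (h ∩ (W ∩ L C M H (h ∩ H))).Nonempty)))
        (fun t _ _ => le_min (mass_nonneg hprob.1 _) (mass_nonneg hprob.1 _))
      rw [← Finset.mul_sum] at k1
      linarith
    have hlog : 0 ≤ Real.log 2 := Real.log_nonneg (by norm_num)
    have hfin := mul_le_mul_of_nonneg_left hsum hlog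
    linarith

end Pool.Agent.MPaa62e0T
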