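import Pool.Agent.Lib.MP_aa62e0_lcT.Good
import Pool.Agent.Lib.MP_aa62e0_lcT.Selector
import Pool.Agent.Lib.MP_aa62e0_lcT.Kernel
import Pool.Agent.Lib.MP_aa62e0_lcT.Update
import Pool.Agent.Lib.MP_aa62e0_lcT.FreeStep

set_option autoImplicit false
set_option linter.unusedSectionVars false

open Finset
open scoped Classical

namespace Pool.Agent.MPaa62e0T

variable {α : Type} [Fintype α] [DecidableEq α]


/-- Main step. -/
theorem main_step (C : Finset (Finset α)) (d : ℕ) (hd : C.vcDim ≤ d) (M : Finset α → ℝ)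
    (hM : IsProb C M) (H : Finset α) (e τ θ : ℝ) (K m : ℕ) (hZ : (Z C H).Nonempty)
    (herr : ∀ y ∈ Z C H, mass C M (fun h => y ∈ h) ≤ e)
    (hfree : ∀ y ∈ Z C H, unc C M H y ≤ τ) (he : e ≤ 1 / 16) (hK : 160 ≤ K)
    (hτ : K * τ ≤ 1 / 16) (hθ : 0 < θ) (hθ1 : θ ≤ 1)
    (hm1 : 8 ≤ θ * m) (hm : 4 * (2 * (m : ℝ) + 1) ^ d ≤ (2 : ℝ) ^ (θ * m / 2))
    (hKm : 10 * (m : ℝ) / K < θ / 2) :
    ∃ W : Finset α, W.card ≤ K ∧ ∃ M' : Finset α → ℝ, IsProb C M' ∧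
      (∀ y ∈ Z C (H ∪ W), mass C M' (fun h => y ∈ h) ≤ e + (3 * θ + τ) / 4) ∧
      Ent C M H + Real.log 2 / 32 ≤ Ent C M' (H ∪ W) := by
  obtain ⟨W, -, hWK, V, hV, hβV, hne, hmaj, hst⟩ :=
    good_set C M hM H e τ K hZ herr hfree he hK hτ
  refine ⟨W, hWK, ?_⟩
  obtain ⟨N, hN0, hN1, hN2, hN3⟩ := kernel C M hM H W V hV hne θ hθ
    (fun D hD hD1 hsupp => selector C d hd M hM H W V hV hne hmaj K hst θ hθ hθ1 m hm1 hm hKm
      D hD hD1 hsupp)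
  exact update C M hM H W V hV e τ θ herr hfree hβV hmaj N hN0 hN1 hN2 hN3


end Pool.Agent.MPaa62e0T
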