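import Pool.Agent.Lib.MP_aa62e0_lcT.Iter

set_option autoImplicit false
set_option linter.unusedSectionVars false

open Finset
open scoped Classical

namespace Pool.Agent.MPaa62e0T

private lemma teachNum_nat (d D : ℕ) (hD : D = d + 1) :
    4 * (2 * (2 ^ 23 * D ^ 4) + 1) ^ d ≤ 2 ^ (64 * D ^ 2) := by
  have hD1 : 1 ≤ D := by omega
  have h2D : D ≤ 2 ^ D := (Nat.lt_two_pow_self).le
  have h4 : D ^ 4 ≤ 2 ^ (4 * D) := by
    calc D ^ 4 ≤ (2 ^ D) ^ 4 := Nat.pow_le_pow_left h2D 4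
      _ = 2 ^ (4 * D) := by rw [← pow_mul, mul_comm]
  have hone : 1 ≤ D ^ 4 := Nat.one_le_pow _ _ hD1
  have hm : 2 * (2 ^ 23 * D ^ 4) + 1 ≤ 2 ^ (25 + 4 * D) := by
    calc 2 * (2 ^ 23 * D ^ 4) + 1 ≤ 2 ^ 25 * D ^ 4 := by nlinarith
      _ ≤ 2 ^ 25 * 2 ^ (4 * D) := Nat.mul_le_mul_left _ h4
      _ = 2 ^ (25 + 4 * D) := by rw [pow_add]
  calc 4 * (2 * (2 ^ 23 * D ^ 4) + 1) ^ d ≤ 4 * (2 ^ (25 + 4 * D)) ^ d :=
        Nat.mul_le_mul_left _ (Nat.pow_le_pow_left hm d)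
    _ = 2 ^ (2 + (25 + 4 * D) * d) := by rw [← pow_mul, pow_add]; norm_num
    _ ≤ 2 ^ (64 * D ^ 2) := by
        apply Nat.pow_le_pow_right (by norm_num)
        subst hD
        nlinarith

private lemma teachNum_log (d D : ℕ) (hD : D = d + 1) :
    (d : ℝ) * Real.log (((3 * 2 ^ 55 * D ^ 8 : ℕ) : ℝ) + 1) < 128 * (D : ℝ) ^ 2 * Real.log 2 := by
  have hD1 : 1 ≤ D := by omega
  have h2D : D ≤ 2 ^ D := (Nat.lt_two_pow_self).le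
  have h8 : D ^ 8 ≤ 2 ^ (8 * D) := by
    calc D ^ 8 ≤ (2 ^ D) ^ 8 := Nat.pow_le_pow_left h2D 8
      _ = 2 ^ (8 * D) := by rw [← pow_mul, mul_comm]
  have hone : 1 ≤ D ^ 8 := Nat.one_le_pow _ _ hD1
  have hn : 3 * 2 ^ 55 * D ^ 8 + 1 ≤ 2 ^ (57 + 8 * D) := by
    calc 3 * 2 ^ 55 * D ^ 8 + 1 ≤ 2 ^ 57 * D ^ 8 := by nlinarith
      _ ≤ 2 ^ 57 * 2 ^ (8 * D) := Nat.mul_le_mul_left _ h8
      _ = 2 ^ (57 + 8 * D) := by rw [pow_add]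
  have hlog2 : 0 < Real.log 2 := Real.log_pos (by norm_num)
  have hl : Real.log (((3 * 2 ^ 55 * D ^ 8 : ℕ) : ℝ) + 1) ≤ (57 + 8 * (D : ℝ)) * Real.log 2 := by
    have h1 : (((3 * 2 ^ 55 * D ^ 8 : ℕ) : ℝ) + 1) ≤ (2 : ℝ) ^ (57 + 8 * D) := by
      exact_mod_cast hn
    calc Real.log (((3 * 2 ^ 55 * D ^ 8 : ℕ) : ℝ) + 1) ≤ Real.log ((2 : ℝ) ^ (57 + 8 * D)) :=
          Real.log_le_log (by positivity) h1
      _ = (57 + 8 * (D : ℝ)) * Real.log 2 := by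
          rw [Real.log_pow]; push_cast; ring
  have hDd : (d : ℝ) = (D : ℝ) - 1 := by subst hD; push_cast; ring
  have hDr : (1 : ℝ) ≤ (D : ℝ) := by exact_mod_cast hD1
  have hd0 : (0 : ℝ) ≤ (d : ℝ) := Nat.cast_nonneg d
  calc (d : ℝ) * Real.log (((3 * 2 ^ 55 * D ^ 8 : ℕ) : ℝ) + 1)
      ≤ (d : ℝ) * ((57 + 8 * (D : ℝ)) * Real.log 2) := mul_le_mul_of_nonneg_left hl hd0
    _ = ((d : ℝ) * (57 + 8 * (D : ℝ))) * Real.log 2 := by ring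
    _ < (128 * (D : ℝ) ^ 2) * Real.log 2 := by
        apply mul_lt_mul_of_pos_right _ hlog2
        rw [hDd]
        nlinarith

/-- LEAF G2 (numerics of the teaching theorem; any absolute constants `c`, `a`; smaller `a` is nicer but
not needed).  E.g. with `D = d + 1`: `θ = 1/(16 J)`, `τ = 1/(16 K)`, `m ≥ (32/ (θ)) ⋯`. -/
theorem teach : ∃ c a : ℕ, ∀ (α : Type) [Fintype α] [DecidableEq α] (C : Finset (Finset α)) (d : ℕ),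
    ∅ ∈ C → C.vcDim ≤ d → ∃ H : Finset α, H.card ≤ c * (d + 1) ^ a ∧ ∀ z, ¬ Kills C H z := by
  refine ⟨3 * 2 ^ 55, 8, ?_⟩
  intro α _ _ C d hC hd
  obtain ⟨D, hD⟩ : ∃ D : ℕ, D = d + 1 := ⟨_, rfl⟩
  rw [← hD]
  have hD1 : 1 ≤ D := by omega
  have hDr : (1 : ℝ) ≤ (D : ℝ) := by exact_mod_cast hD1
  have hD0 : (0 : ℝ) < (D : ℝ) := by linarith
  have hD6 : 1 ≤ D ^ 6 := Nat.one_le_pow _ _ hD1
  have hlog := teachNum_log d D hD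
  have hnat := teachNum_nat d D hD
  have hne : (D : ℝ) ≠ 0 := hD0.ne'
  refine teach_param C hC d hd (1 / (2 ^ 16 * (D : ℝ) ^ 2)) (1 / (2 ^ 48 * (D : ℝ) ^ 6))
    (2 ^ 12 * D ^ 2) (2 ^ 55 * D ^ 8) (2 ^ 44 * D ^ 6) (2 ^ 23 * D ^ 4) (3 * 2 ^ 55 * D ^ 8)
    (by ring) (by nlinarith) (by positivity) ?_ ?_ (by positivity) ?_ ?_ ?_ ?_ ?_ ?_ ?_
  · push_cast
    rw [mul_one_div, div_le_div_iff₀ (by positivity) (by norm_num)]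
    nlinarith [pow_pos hD0 6]
  · apply one_div_le_one_div_of_le (by positivity)
    have h1 : (D : ℝ) ^ 2 ≤ (D : ℝ) ^ 6 := pow_le_pow_right₀ hDr (by norm_num)
    nlinarith [pow_pos hD0 6]
  · push_cast
    rw [mul_one_div, div_le_div_iff₀ (by positivity) (by norm_num)]
    nlinarith [pow_pos hD0 2]
  · nlinarith [Nat.one_le_pow 2 D hD1]
  · have h : (1 / (2 ^ 16 * (D : ℝ) ^ 2)) * ((2 ^ 23 * D ^ 4 : ℕ) : ℝ) = 128 * (D : ℝ) ^ 2 := by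
      push_cast; field_simp; norm_num
    rw [h]
    nlinarith
  · have h : (1 / (2 ^ 16 * (D : ℝ) ^ 2)) * ((2 ^ 23 * D ^ 4 : ℕ) : ℝ) / 2 = ((64 * D ^ 2 : ℕ) : ℝ) := by
      push_cast; field_simp; norm_num
    rw [h, Real.rpow_natCast]
    exact_mod_cast hnat
  · have hK0 : (0 : ℝ) < ((2 ^ 44 * D ^ 6 : ℕ) : ℝ) := by positivity
    rw [div_lt_div_iff₀ hK0 (by norm_num)]
    have h : (1 / (2 ^ 16 * (D : ℝ) ^ 2)) * ((2 ^ 44 * D ^ 6 : ℕ) : ℝ) = 2 ^ 28 * (D : ℝ) ^ 4 := by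
      push_cast; field_simp; norm_num
    rw [h]
    push_cast
    nlinarith [pow_pos hD0 4]
  · have h : (((2 ^ 12 * D ^ 2 : ℕ)) : ℝ) * (Real.log 2 / 32) = 128 * (D : ℝ) ^ 2 * Real.log 2 := by
      push_cast; ring
    rw [h]
    exact hlog
  · have h : (((2 ^ 55 * D ^ 8 : ℕ)) : ℝ) * (Real.log 2 * (1 / (2 ^ 48 * (D : ℝ) ^ 6)))
        = 128 * (D : ℝ) ^ 2 * Real.log 2 := by
      push_cast; field_simp; norm_num
    rw [h]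
    exact hlog

end Pool.Agent.MPaa62e0T
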