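import Pool.Agent.Lib.MP_aa62e0_lcT.Defs

set_option autoImplicit false
set_option linter.unusedSectionVars false

open Finset
open scoped Classical

namespace Pool.Agent.MPaa62e0T

variable {α : Type} [Fintype α] [DecidableEq α]

theorem union_sample_tot {ι : Type} [Fintype ι] (x : ι → ℝ) (hx1 : ∑ i, x i = 1) (n : ℕ) :
    ∑ v : Fin n → ι, ∏ j, x (v j) = 1 := by
  have h := Fintype.prod_sum (fun (_ : Fin n) (i : ι) => x i)
  rw [← h]
  simp [hx1]

/-- the marginal of one coordinate -/
theorem union_sample_marg {ι : Type} [Fintype ι] (x : ι → ℝ) (hx1 : ∑ i, x i = 1) (n : ℕ)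
    (f : ι → ℝ) (a : Fin n) :
    ∑ v : Fin n → ι, (∏ j, x (v j)) * f (v a) = ∑ i, x i * f i := by
  have h := Fintype.prod_sum (fun (j : Fin n) (i : ι) => if j = a then x i * f i else x i)
  have h1 : ∀ v : Fin n → ι, ∏ j, (if j = a then x (v j) * f (v j) else x (v j)) =
      (∏ j, x (v j)) * f (v a) := by
    intro v
    have h2 : ∀ j, (if j = a then x (v j) * f (v j) else x (v j)) =
        x (v j) * (if j = a then f (v j) else 1) := by
      intro j; split_ifs <;> ring
    rw [Finset.prod_congr rfl fun j _ => h2 j, Finset.prod_mul_distrib]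
    congr 1
    rw [Finset.prod_ite_eq' Finset.univ a (fun j => f (v j))]
    simp
  rw [← Finset.sum_congr rfl fun v _ => h1 v, ← h]
  have h3 : ∀ j, (∑ i, if j = a then x i * f i else x i) =
      if j = a then ∑ i, x i * f i else 1 := by
    intro j
    split_ifs
    · rfl
    · exact hx1
  rw [Finset.prod_congr rfl fun j _ => h3 j, Finset.prod_ite_eq' Finset.univ a
    (fun _ => ∑ i, x i * f i)]
  simp

/-- a given coordinate is the strict maximum with probability at most `1 / (r + 1)` -/
theorem union_sample_max {ι : Type} [Fintype ι] (x : ι → ℝ) (hx : ∀ i, 0 ≤ x i)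
    (hx1 : ∑ i, x i = 1) (r : ℕ) (g : ι → ℕ) :
    ∑ v : Fin (r + 1) → ι, (∏ j, x (v j)) *
      (if ∀ j, j ≠ 0 → g (v j) < g (v 0) then 1 else 0) ≤ 1 / (r + 1) := by
  set P : Fin (r + 1) → ℝ := fun a => ∑ v : Fin (r + 1) → ι, (∏ j, x (v j)) *
      (if ∀ j, j ≠ a → g (v j) < g (v a) then 1 else 0) with hP
  have h0 : ∀ a, P a = P 0 := by
    intro a
    rw [hP]
    refine Fintype.sum_equiv ((Equiv.swap 0 a).arrowCongr (Equiv.refl ι)) _ _ fun v => ?_
    have e : ∀ j, ((Equiv.swap 0 a).arrowCongr (Equiv.refl ι)) v j = v (Equiv.swap 0 a j) := by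
      intro j
      rw [Equiv.arrowCongr_apply]
      simp
    congr 1
    · simp only [e]
      exact (Equiv.prod_comp (Equiv.swap 0 a) (fun j => x (v j))).symm
    · have h1 : (∀ j, j ≠ a → g (v j) < g (v a)) ↔
          ∀ j, j ≠ 0 → g (((Equiv.swap 0 a).arrowCongr (Equiv.refl ι)) v j) <
            g (((Equiv.swap 0 a).arrowCongr (Equiv.refl ι)) v 0) := by
        simp only [e, Equiv.swap_apply_left]
        constructor
        · intro h j hj
          refine h _ fun h2 => hj ?_
          have h3 := (Equiv.swap 0 a).injective (a₁ := j) (a₂ := 0)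
            (by rw [h2, Equiv.swap_apply_left])
          exact h3
        · intro h j hj
          have h2 := h (Equiv.swap 0 a j) fun h3 => hj ?_
          · rwa [Equiv.swap_apply_self] at h2
          · have h4 := congrArg (Equiv.swap 0 a) h3
            rw [Equiv.swap_apply_self, Equiv.swap_apply_left] at h4
            exact h4
      by_cases h2 : ∀ j, j ≠ a → g (v j) < g (v a)
      · rw [if_pos h2, if_pos (h1.1 h2)]
      · rw [if_neg h2, if_neg (fun h3 => h2 (h1.2 h3))]
  have hs : ∑ a, P a ≤ 1 := by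
    refine le_trans ?_ (le_of_eq (union_sample_tot x hx1 (r + 1)))
    rw [hP]
    rw [Finset.sum_comm]
    refine Finset.sum_le_sum fun v _ => ?_
    rw [← Finset.mul_sum]
    refine mul_le_of_le_one_right (Finset.prod_nonneg fun j _ => hx _) ?_
    have h1 : (Finset.univ.filter fun a : Fin (r + 1) =>
        ∀ j, j ≠ a → g (v j) < g (v a)).card ≤ 1 := by
      rw [Finset.card_le_one]
      intro a ha b hb
      rw [Finset.mem_filter] at ha hb
      by_contra hab
      have h2 := ha.2 b (Ne.symm hab)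
      have h3 := hb.2 a hab
      omega
    rw [← Finset.sum_filter, Finset.sum_const, nsmul_eq_mul, mul_one]
    exact_mod_cast h1
  have h1 : ∑ a, P a = (r + 1) * P 0 := by
    rw [Finset.sum_congr rfl fun a _ => h0 a, Finset.sum_const, Finset.card_univ,
      Fintype.card_fin, nsmul_eq_mul]
    push_cast
    ring
  have h2 : (r + 1 : ℝ) * P 0 ≤ 1 := by rw [← h1]; exact hs
  have h3 : (0 : ℝ) < r + 1 := by positivity
  change P 0 ≤ 1 / (r + 1)
  rw [le_div_iff₀ h3]
  linarith

/-- LEAF B0.  `x` a probability on a finite type `ι` of sets `Wf i`, voters `t ∈ T` with weights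
`β t` (sum 1), `s t` a monotone score.  `r` iid sets `W_1..W_r ~ x`, `U` = their union; if
`r * E|W| ≤ K/2` then some outcome has `|U| ≤ K` and
`∑_i x i * β(t : s t U < s t (Wf i)) ≤ 2/(r+1)`.
Proof: `P(|U| > K) ≤ 1/2` (Markov, `|U| ≤ ∑ |W_j|`); if `s t U < s t W'` then `W'` is the strict
maximum of the `r+1` iid sets `W', W_1, .., W_r` (monotonicity), which has probability `≤ 1/(r+1)`
by symmetry (sum over `Fin (r+1) → ι`, swap coordinates). -/
theorem union_sample {τ ι : Type} [Fintype ι] (T : Finset τ) (β : τ → ℝ) (hβ : ∀ t, 0 ≤ β t)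
    (hβ1 : ∑ t ∈ T, β t = 1) (Wf : ι → Finset α) (x : ι → ℝ) (hx : ∀ i, 0 ≤ x i)
    (hx1 : ∑ i, x i = 1) (s : τ → Finset α → ℕ)
    (hs : ∀ t, ∀ W W' : Finset α, W ⊆ W' → s t W ≤ s t W') (r K : ℕ)
    (hr : 2 * (r * ∑ i, x i * (Wf i).card) ≤ K) :
    ∃ w : Fin r → ι, (∀ j, x (w j) ≠ 0) ∧ (Finset.univ.biUnion (fun j => Wf (w j))).card ≤ K ∧
      ∑ i, x i * ∑ t ∈ T.filter (fun t => s t (Finset.univ.biUnion (fun j => Wf (w j)))
        < s t (Wf i)), β t ≤ 2 / (r + 1) := by
  set U : (Fin r → ι) → Finset α := fun w => Finset.univ.biUnion (fun j => Wf (w j)) with hU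
  set G : (Fin r → ι) → ℝ := fun w => ∑ i, x i * ∑ t ∈ T.filter (fun t => s t (U w)
        < s t (Wf i)), β t with hG
  have hG0 : ∀ w, 0 ≤ G w := fun w => Finset.sum_nonneg fun i _ =>
    mul_nonneg (hx i) (Finset.sum_nonneg fun t _ => hβ t)
  have hP0 : ∀ w : Fin r → ι, 0 ≤ ∏ j, x (w j) := fun w => Finset.prod_nonneg fun j _ => hx _
  -- the expected size
  have hE1 : ∑ w : Fin r → ι, (∏ j, x (w j)) * ((U w).card : ℝ) ≤ K / 2 := by
    calc ∑ w : Fin r → ι, (∏ j, x (w j)) * ((U w).card : ℝ)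
        ≤ ∑ w : Fin r → ι, (∏ j, x (w j)) * ∑ a, ((Wf (w a)).card : ℝ) := by
          refine Finset.sum_le_sum fun w _ => mul_le_mul_of_nonneg_left ?_ (hP0 w)
          have h1 := Finset.card_biUnion_le (s := (Finset.univ : Finset (Fin r)))
            (t := fun j => Wf (w j))
          exact_mod_cast h1
      _ = ∑ a : Fin r, ∑ w : Fin r → ι, (∏ j, x (w j)) * ((Wf (w a)).card : ℝ) := by
          rw [Finset.sum_comm]
          exact Finset.sum_congr rfl fun w _ => Finset.mul_sum _ _ _
      _ = ∑ _a : Fin r, ∑ i, x i * ((Wf i).card : ℝ) :=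
          Finset.sum_congr rfl fun a _ =>
            union_sample_marg x hx1 r (fun i => ((Wf i).card : ℝ)) a
      _ = r * ∑ i, x i * ((Wf i).card : ℝ) := by
          rw [Finset.sum_const, Finset.card_univ, Fintype.card_fin, nsmul_eq_mul]
      _ ≤ K / 2 := by linarith
  -- the expected mass
  have hE2 : ∑ w : Fin r → ι, (∏ j, x (w j)) * G w ≤ 1 / (r + 1) := by
    have h1 : ∀ w, G w = ∑ t ∈ T, β t * ∑ i, x i * (if s t (U w) < s t (Wf i) then 1 else 0) := by
      intro w
      rw [hG]
      simp only [Finset.mul_sum]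
      rw [Finset.sum_comm]
      refine Finset.sum_congr rfl fun i _ => ?_
      rw [Finset.sum_filter]
      refine Finset.sum_congr rfl fun t _ => ?_
      split_ifs <;> ring
    have h2 : ∑ w : Fin r → ι, (∏ j, x (w j)) * G w = ∑ t ∈ T, β t *
        ∑ w : Fin r → ι, (∏ j, x (w j)) *
          ∑ i, x i * (if s t (U w) < s t (Wf i) then 1 else 0) := by
      simp only [h1, Finset.mul_sum]
      rw [Finset.sum_comm]
      refine Finset.sum_congr rfl fun t _ => ?_
      refine Finset.sum_congr rfl fun w _ => ?_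
      refine Finset.sum_congr rfl fun i _ => ?_
      ring
    have h3 : ∀ t, ∑ w : Fin r → ι, (∏ j, x (w j)) *
          ∑ i, x i * (if s t (U w) < s t (Wf i) then 1 else 0) ≤ 1 / (r + 1) := by
      intro t
      refine le_trans ?_ (union_sample_max x hx hx1 r (fun i => s t (Wf i)))
      rw [← Equiv.sum_comp (Fin.consEquiv (fun _ : Fin (r + 1) => ι)), Fintype.sum_prod_type,
        Finset.sum_comm]
      refine Finset.sum_le_sum fun w _ => ?_
      rw [Finset.mul_sum]
      refine Finset.sum_le_sum fun i _ => ?_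
      have e0 : (Fin.consEquiv (fun _ : Fin (r + 1) => ι)) (i, w) = Fin.cons i w := rfl
      rw [e0, Fin.prod_univ_succ]
      simp only [Fin.cons_zero, Fin.cons_succ]
      have e1 : (∏ j, x (w j)) * (x i * (if s t (U w) < s t (Wf i) then (1 : ℝ) else 0)) =
          (x i * ∏ j, x (w j)) * (if s t (U w) < s t (Wf i) then (1 : ℝ) else 0) := by ring
      rw [e1]
      refine mul_le_mul_of_nonneg_left ?_ (mul_nonneg (hx i) (hP0 w))
      by_cases h4 : s t (U w) < s t (Wf i)
      · rw [if_pos h4, if_pos]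
        intro j hj
        obtain ⟨j', rfl⟩ := Fin.exists_succ_eq.2 hj
        simp only [Fin.cons_succ]
        refine lt_of_le_of_lt (hs t _ _ ?_) h4
        exact Finset.subset_biUnion_of_mem (fun j => Wf (w j)) (Finset.mem_univ j')
      · rw [if_neg h4]
        split_ifs <;> norm_num
    rw [h2]
    calc ∑ t ∈ T, β t * ∑ w : Fin r → ι, (∏ j, x (w j)) *
          ∑ i, x i * (if s t (U w) < s t (Wf i) then 1 else 0)
        ≤ ∑ t ∈ T, β t * (1 / (r + 1)) :=
          Finset.sum_le_sum fun t _ => mul_le_mul_of_nonneg_left (h3 t) (hβ t)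
      _ = 1 / (r + 1) := by rw [← Finset.sum_mul, hβ1, one_mul]
  by_contra hcon
  push Not at hcon
  have hr1 : (0 : ℝ) < r + 1 := by positivity
  have hK1 : (0 : ℝ) < K + 1 := by positivity
  have key : ∀ w : Fin r → ι, (∏ j, x (w j)) ≤
      (∏ j, x (w j)) * ((U w).card : ℝ) * (1 / (K + 1)) +
        (∏ j, x (w j)) * G w * ((r + 1) / 2) := by
    intro w
    by_cases h0 : ∀ j, x (w j) ≠ 0
    · have h1 := hcon w h0
      have h2 : 1 ≤ ((U w).card : ℝ) * (1 / (K + 1)) + G w * ((r + 1) / 2) := by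
        by_cases h3 : (U w).card ≤ K
        · have h4 : 2 / ((r : ℝ) + 1) < G w := h1 h3
          have h5 : 1 ≤ G w * ((r + 1) / 2) := by
            have h6 : 2 / ((r : ℝ) + 1) * ((r + 1) / 2) = 1 := by field_simp
            have h7 : (0 : ℝ) < (r + 1) / 2 := by positivity
            have h8 := mul_lt_mul_of_pos_right h4 h7
            linarith
          have h6 : 0 ≤ ((U w).card : ℝ) * (1 / (K + 1)) := by positivity
          linarith
        · have h4 : ((K : ℝ) + 1) ≤ (U w).card := by
            have h5 : K + 1 ≤ (U w).card := by omega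
            exact_mod_cast h5
          have h5 : 1 ≤ ((U w).card : ℝ) * (1 / (K + 1)) := by
            rw [mul_one_div, le_div_iff₀ hK1, one_mul]
            exact h4
          have h6 : 0 ≤ G w * ((r + 1) / 2) := mul_nonneg (hG0 w) (by positivity)
          linarith
      have h3 := mul_le_mul_of_nonneg_left h2 (hP0 w)
      calc (∏ j, x (w j)) = (∏ j, x (w j)) * 1 := (mul_one _).symm
        _ ≤ _ := h3
        _ = _ := by ring
    · push Not at h0
      obtain ⟨j, hj⟩ := h0
      have h1 : (∏ j, x (w j)) = 0 := Finset.prod_eq_zero (Finset.mem_univ j) hj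
      rw [h1]
      simp
  have hsum := Finset.sum_le_sum fun (w : Fin r → ι) (_ : w ∈ Finset.univ) => key w
  rw [union_sample_tot x hx1 r, Finset.sum_add_distrib, ← Finset.sum_mul, ← Finset.sum_mul] at hsum
  have h1 : (∑ w : Fin r → ι, (∏ j, x (w j)) * ((U w).card : ℝ)) * (1 / (K + 1)) ≤
      K / 2 * (1 / (K + 1)) := mul_le_mul_of_nonneg_right hE1 (by positivity)
  have h2 : (∑ w : Fin r → ι, (∏ j, x (w j)) * G w) * ((r + 1) / 2) ≤
      1 / (r + 1) * ((r + 1) / 2) := mul_le_mul_of_nonneg_right hE2 (by positivity)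
  have h3 : (1 : ℝ) / (r + 1) * ((r + 1) / 2) = 1 / 2 := by field_simp
  have h4 : (K : ℝ) / 2 * (1 / (K + 1)) < 1 / 2 := by
    rw [mul_one_div, div_lt_iff₀ hK1]
    linarith
  linarith

end Pool.Agent.MPaa62e0T
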